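import Mathlib

/-! Entire functions: splitting off finitely many zeros. -/

set_option autoImplicit false

namespace Pool.Agent.D0H40.GC

open Filter Topology Set

theorem factor_one {f : ℂ → ℂ} (hf : Differentiable ℂ f) {a : ℂ} {n : ℕ}
    (hn : analyticOrderAt f a = n) :
    ∃ g : ℂ → ℂ, Differentiable ℂ g ∧ (∀ w, f w = (w - a) ^ n * g w) ∧ g a ≠ 0 := by
  classical
  obtain ⟨g₀, hg, hg0, he⟩ := ((hf.analyticAt a).analyticOrderAt_eq_natCast).mp hn
  set g : ℂ → ℂ := fun w => if w = a then g₀ a else f w / (w - a) ^ n with hgd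
  have hga : g a = g₀ a := by rw [hgd]; simp
  have hne : ∀ w, w ≠ a → g w = f w / (w - a) ^ n := by
    intro w hw
    rw [hgd]
    simp only
    rw [if_neg hw]
  have heq : g =ᶠ[𝓝 a] g₀ := by
    filter_upwards [he] with w hw
    by_cases h : w = a
    · rw [h, hga]
    · rw [hne w h, hw, smul_eq_mul]
      have : (w - a) ^ n ≠ 0 := pow_ne_zero _ (sub_ne_zero.2 h)
      field_simp
  refine ⟨g, fun w => ?_, fun w => ?_, by rw [hga]; exact hg0⟩
  · by_cases h : w = a
    · rw [h]
      exact (hg.congr heq.symm).differentiableAt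
    · have h2 : g =ᶠ[𝓝 w] fun w => f w / (w - a) ^ n := by
        filter_upwards [isOpen_ne.mem_nhds h] with v hv using hne v hv
      refine DifferentiableAt.congr_of_eventuallyEq ?_ h2
      exact (hf w).div (by fun_prop) (pow_ne_zero _ (sub_ne_zero.2 h))
  · by_cases h : w = a
    · have h1 := he.self_of_nhds
      rw [h, hga, h1, smul_eq_mul]
    · rw [hne w h]
      have : (w - a) ^ n ≠ 0 := pow_ne_zero _ (sub_ne_zero.2 h)
      field_simp

theorem factor {f : ℂ → ℂ} (hf : Differentiable ℂ f)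
    (hfin : ∀ z, ∃ n : ℕ, analyticOrderAt f z = n) (Z : Finset ℂ) :
    ∃ g : ℂ → ℂ, Differentiable ℂ g ∧
      (∀ w, f w = (∏ b ∈ Z, (w - b) ^ analyticOrderNatAt f b) * g w) ∧ ∀ b ∈ Z, g b ≠ 0 := by
  classical
  induction Z using Finset.induction_on with
  | empty => exact ⟨f, hf, fun w => by simp, fun b hb => by simp at hb⟩
  | insert c Z hc ih =>
    obtain ⟨g, hg1, hg2, hg3⟩ := ih
    obtain ⟨n, hn⟩ := hfin c
    have hP : AnalyticAt ℂ (fun w : ℂ => ∏ b ∈ Z, (w - b) ^ analyticOrderNatAt f b) c := by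
      refine Finset.analyticAt_fun_prod _ fun b _ => ?_
      fun_prop
    have hPc : ∏ b ∈ Z, (c - b) ^ analyticOrderNatAt f b ≠ 0 := by
      refine Finset.prod_ne_zero_iff.2 fun b hb => pow_ne_zero _ (sub_ne_zero.2 ?_)
      rintro rfl
      exact hc hb
    have hgo : analyticOrderAt g c = n := by
      have h1 : f = (fun w : ℂ => ∏ b ∈ Z, (w - b) ^ analyticOrderNatAt f b) * g := by
        funext w
        exact hg2 w
      have h2 := analyticOrderAt_mul hP (hg1.analyticAt c)
      rw [← h1, hn, hP.analyticOrderAt_eq_zero.2 hPc, zero_add] at h2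
      exact h2.symm
    obtain ⟨g', h1, h2, h3⟩ := factor_one hg1 hgo
    refine ⟨g', h1, fun w => ?_, fun b hb => ?_⟩
    · rw [Finset.prod_insert hc, hg2 w, h2 w]
      have : analyticOrderNatAt f c = n := by
        unfold analyticOrderNatAt
        rw [hn]
        rfl
      rw [this]
      ring
    · rw [Finset.mem_insert] at hb
      rcases hb with rfl | hb
      · exact h3
      · intro h0
        apply hg3 b hb
        rw [h2 b, h0, mul_zero]

theorem zeros_finite {f : ℂ → ℂ} (hf : Differentiable ℂ f) (hne : ∃ z, f z ≠ 0) {K : Set ℂ}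
    (hK : IsCompact K) : {w | w ∈ K ∧ f w = 0}.Finite := by
  by_contra hinf
  obtain ⟨z, -, hz⟩ := Set.Infinite.exists_accPt_of_subset_isCompact hinf hK (fun w hw => hw.1)
  rw [accPt_iff_frequently_nhdsNE] at hz
  have h1 : ∃ᶠ w in 𝓝[≠] z, f w = 0 := hz.mono fun w hw => hw.2
  have hG : AnalyticOnNhd ℂ f univ := hf.differentiableOn.analyticOnNhd isOpen_univ
  have h2 := hG.eqOn_zero_of_preconnected_of_frequently_eq_zero isPreconnected_univ (mem_univ z) h1
  obtain ⟨v, hv⟩ := hne
  exact hv (h2 (mem_univ v))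

end Pool.Agent.D0H40.GC
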