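import Pool.Agent.D0H40.GC.Asym2
import Pool.Agent.D0H40.GC.Fact

/-! The explicit formula: abstract form. -/

set_option autoImplicit false

namespace Pool.Agent.D0H40.GC

open Complex MeasureTheory Filter Topology Set
open Pool.Agent.W189.ML (ser)
open scoped ComplexConjugate

variable {lam c : ℕ → ℝ} {G Φ : ℂ → ℂ} {d : ℂ}

/-- the contribution of a zero -/
noncomputable def Ez (z : ℂ) (r : ℝ) : ℂ :=
  z * ((√(4 * Real.pi * r) : ℝ) * ∫ t in (0:ℝ)..1, exp (r * z ^ 2 * (t : ℂ) ^ 2))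

theorem Ez_eq (h : Dir d) {r : ℝ} (hr : 0 < r) (z : ℂ) :
    (d * z) * ((Real.pi / (d ^ 2 / (4 * r))) ^ (1 / 2 : ℂ) *
      ∫ t in (0:ℝ)..1, exp ((t : ℂ) ^ 2 * ((d * z) ^ 2 / (4 * (d ^ 2 / (4 * r)))))) = Ez z r := by
  have hd0 := h.ne
  have hrc : (r : ℂ) ≠ 0 := by exact_mod_cast hr.ne'
  have e1 : ∀ t : ℝ, (t : ℂ) ^ 2 * ((d * z) ^ 2 / (4 * (d ^ 2 / (4 * r)))) = r * z ^ 2 * (t : ℂ) ^ 2 := by
    intro t
    field_simp
  simp only [e1]
  have e2 : (Real.pi / (d ^ 2 / (4 * r)) : ℂ) ^ (1 / 2 : ℂ) = (√(4 * Real.pi * r) : ℝ) * conj d := by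
    have e3 : (Real.pi / (d ^ 2 / (4 * r)) : ℂ) = ((√(4 * Real.pi * r) : ℝ) * conj d) ^ 2 := by
      rw [mul_pow, ← Complex.ofReal_pow, Real.sq_sqrt (by positivity)]
      push_cast
      rw [div_div_eq_mul_div, div_eq_iff (pow_ne_zero 2 hd0)]
      have := h.mul_conj
      have e4 : 4 * (Real.pi : ℂ) * r * conj d ^ 2 * d ^ 2 = 4 * Real.pi * r * (d * conj d) ^ 2 := by ring
      rw [e4, this]
      ring
    have hcr : (((√(4 * Real.pi * r) : ℝ) : ℂ) * conj d).re = √(4 * Real.pi * r) * d.re := by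
      rw [Complex.re_ofReal_mul, Complex.conj_re]
    have hpos : 0 < (((√(4 * Real.pi * r) : ℝ) : ℂ) * conj d).re := by
      rw [hcr]
      have := h.re_pos
      positivity
    rw [e3]
    have harg := Complex.abs_arg_lt_pi_div_two_iff.2 (Or.inl hpos)
    rw [abs_lt] at harg
    have := Complex.pow_cpow_nat_inv (x := ((√(4 * Real.pi * r) : ℝ) : ℂ) * conj d) (n := 2)
      (by norm_num) (by push_cast; linarith) (by push_cast; linarith)
    rw [show (1 / 2 : ℂ) = ((2 : ℕ) : ℂ)⁻¹ by push_cast; norm_num]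
    exact this
  rw [e2]
  unfold Ez
  have := h.mul_conj
  linear_combination (z * (√(4 * Real.pi * r) : ℝ) *
    ∫ t in (0:ℝ)..1, exp (r * z ^ 2 * (t : ℂ) ^ 2)) * this

theorem Ez_bdry {z : ℂ} (hz : z ≠ 0) (hz2 : z.re ^ 2 = z.im ^ 2) :
    ∃ C : ℝ, ∀ r : ℝ, 1 ≤ r → ‖Ez z r‖ ≤ C := by
  set T₀ : ℝ := 2 * (z.re * z.im) with hT₀
  have hT0 : T₀ ≠ 0 := by
    intro h0
    have h1 : z.re * z.im = 0 := by linarith
    apply hz
    rcases mul_eq_zero.1 h1 with h2 | h2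
    · have h3 : z.im = 0 := by
        have : z.im ^ 2 = 0 := by rw [← hz2, h2]; ring
        exact pow_eq_zero_iff (two_ne_zero) |>.1 this
      exact Complex.ext h2 h3
    · have h3 : z.re = 0 := by
        have : z.re ^ 2 = 0 := by rw [hz2, h2]; ring
        exact pow_eq_zero_iff (two_ne_zero) |>.1 this
      exact Complex.ext h3 h2
  have hTa : 0 < |T₀| := abs_pos.2 hT0
  refine ⟨‖z‖ * (√(4 * Real.pi) * (3 / √|T₀|)), fun r hr => ?_⟩
  have hr0 : 0 < r := by linarith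
  have hsr : 0 < √r := Real.sqrt_pos.2 hr0
  have e1 : ∀ t : ℝ, exp (r * z ^ 2 * (t : ℂ) ^ 2) = exp (((r * T₀ * t ^ 2 : ℝ) : ℂ) * I) := by
    intro t
    congr 1
    have e2 : z ^ 2 = (T₀ : ℂ) * I := by
      apply Complex.ext
      · rw [sq, Complex.mul_re, Complex.re_ofReal_mul, Complex.I_re, mul_zero]
        linarith
      · rw [sq, Complex.mul_im, Complex.im_ofReal_mul, Complex.I_im, mul_one, hT₀]
        ring
    rw [e2]
    push_cast
    ring
  have hI : ‖∫ t in (0:ℝ)..1, exp (r * z ^ 2 * (t : ℂ) ^ 2)‖ ≤ 3 / √|r * T₀| := by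
    simp only [e1]
    by_cases h1 : 1 ≤ |r * T₀|
    · exact fresnel h1
    · push Not at h1
      have h2 : 0 < |r * T₀| := abs_pos.2 (mul_ne_zero hr0.ne' hT0)
      have h3 : √|r * T₀| ≤ 1 := by
        rw [Real.sqrt_le_one]
        exact h1.le
      have h4 : 0 < √|r * T₀| := Real.sqrt_pos.2 h2
      have h5 := intervalIntegral.norm_integral_le_of_norm_le_const (a := (0:ℝ)) (b := 1) (C := 1)
        (f := fun t : ℝ => exp (((r * T₀ * t ^ 2 : ℝ) : ℂ) * I))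
        (fun t _ => (Complex.norm_exp_ofReal_mul_I _).le)
      rw [sub_zero, abs_one, mul_one] at h5
      refine h5.trans ?_
      rw [le_div_iff₀ h4]
      linarith
  unfold Ez
  rw [norm_mul, norm_mul, Complex.norm_real, Real.norm_eq_abs, abs_of_nonneg (Real.sqrt_nonneg _)]
  have e3 : √(4 * Real.pi * r) * (3 / √|r * T₀|) = √(4 * Real.pi) * (3 / √|T₀|) := by
    rw [abs_mul, abs_of_pos hr0, Real.sqrt_mul (by positivity), Real.sqrt_mul hr0.le]
    have : 0 < √|T₀| := Real.sqrt_pos.2 hTa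
    field_simp
  calc ‖z‖ * (√(4 * Real.pi * r) * ‖∫ t in (0:ℝ)..1, exp (r * z ^ 2 * (t : ℂ) ^ 2)‖) ≤
      ‖z‖ * (√(4 * Real.pi * r) * (3 / √|r * T₀|)) := by gcongr
    _ = _ := by rw [e3]

/-- points of the open cone -/
def Sec : Set ℂ := {z | |z.im| < z.re}

theorem Sec_mem {z : ℂ} : z ∈ Sec ↔ |z.im| < z.re := Iff.rfl

/-- zeros in the closed cone are bounded -/
theorem cone_bdd (h : Dir d) (D : Dat lam c G Φ) {z : ℂ} (hz : |z.im| ≤ z.re) (h0 : Φ (d * z) = 0) :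
    z ∈ Cone (2 / (d.re - |d.im|)) := by
  refine ⟨?_, hz⟩
  by_contra hc
  push Not at hc
  have hpq : 0 < d.re - |d.im| := by have := h.h; linarith
  rw [div_lt_iff₀ hpq] at hc
  have h1 : 2 < (d * z).re := by
    rw [Dir.mul_re]
    have h2 : d.im * z.im ≤ |d.im| * |z.im| := by rw [← abs_mul]; exact le_abs_self _
    have h3 : |d.im| * |z.im| ≤ |d.im| * z.re := mul_le_mul_of_nonneg_left hz (abs_nonneg _)
    linarith
  have h2 := D.eq _ h1
  rw [h0] at h2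
  exact Complex.exp_ne_zero _ h2

theorem closed_finite (h : Dir d) (D : Dat lam c G Φ) (hne : ∃ z, Φ z ≠ 0) :
    {z : ℂ | |z.im| ≤ z.re ∧ Φ (d * z) = 0}.Finite := by
  have hd : Differentiable ℂ fun z => Φ (d * z) :=
    D.Φd.comp (differentiable_id.const_mul d)
  obtain ⟨v, hv⟩ := hne
  have h1 := zeros_finite hd ⟨v / d, by rw [mul_div_cancel₀ _ h.ne]; exact hv⟩
    (Cone_compact (2 / (d.re - |d.im|)))
  exact h1.subset fun z hz => ⟨cone_bdd h D hz.1 hz.2, hz.2⟩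

theorem sec_finite (h : Dir d) (D : Dat lam c G Φ) (hne : ∃ z, Φ z ≠ 0) :
    {z : ℂ | z ∈ Sec ∧ Φ (d * z) = 0}.Finite :=
  (closed_finite h D hne).subset fun _ hz => ⟨hz.1.le, hz.2⟩

/-- **The explicit formula**, abstract form. -/
theorem expl_main (h : Dir d) (D : Dat lam c G Φ) (hfin : ∀ w, ∃ n : ℕ, analyticOrderAt Φ w = n)
    {m : ℕ} (hm : analyticOrderAt Φ 0 = m) (Z : Finset ℂ) (hZ : ∀ z, z ∈ Z ↔ z ∈ Sec ∧ Φ (d * z) = 0) :
    ∃ C : ℝ, ∀ r : ℝ, 1 ≤ r → ‖gs lam c (d ^ 2 / (4 * r)) -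
      ((m : ℂ) * (Real.log √r : ℝ) + ∑ z ∈ Z, (analyticOrderNatAt Φ (d * z) : ℂ) * Ez z r)‖ ≤ C := by
  classical
  have hd0 := h.ne
  have hne : ∃ z, Φ z ≠ 0 := ⟨3, fun h0 => by
    have := D.eq 3 (by norm_num)
    rw [h0] at this
    exact Complex.exp_ne_zero _ this⟩
  have hcf := closed_finite h D hne
  -- the zeros in the closed cone
  set Y : Finset ℂ := hcf.toFinset.filter (fun z => z ≠ 0) with hY
  have hYm : ∀ z, z ∈ Y ↔ (|z.im| ≤ z.re ∧ Φ (d * z) = 0) ∧ z ≠ 0 := by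
    intro z
    rw [hY, Finset.mem_filter, Set.Finite.mem_toFinset]
    rfl
  have hinj : Set.InjOn (fun z => d * z) (Y : Set ℂ) := fun z _ w _ h => mul_left_cancel₀ hd0 h
  set B : Finset ℂ := Y.image (fun z => d * z) with hB
  have hBm : ∀ b, b ∈ B ↔ ∃ z, z ∈ Y ∧ d * z = b := by
    intro b
    rw [hB, Finset.mem_image]
  have h0B : (0 : ℂ) ∉ B := by
    rw [hBm]
    rintro ⟨z, hz, hz2⟩
    rcases mul_eq_zero.1 hz2 with h1 | h1
    · exact hd0 h1
    · exact ((hYm z).1 hz).2 h1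
  obtain ⟨g, hg1, hg2, hg3⟩ := factor D.Φd hfin (insert 0 B)
  have hord0 : analyticOrderNatAt Φ 0 = m := by
    unfold analyticOrderNatAt
    rw [hm]
    rfl
  have hfac : ∀ w, Φ w = w ^ m * (∏ b ∈ B, (w - b) ^ analyticOrderNatAt Φ b) * g w := by
    intro w
    rw [hg2 w, Finset.prod_insert h0B, hord0, sub_zero]
  have hYre : ∀ z ∈ Y, 0 < (d * z).re := by
    intro z hz
    obtain ⟨⟨h1, h2⟩, h3⟩ := (hYm z).1 hz
    have h4 : 0 ≤ z.re := (abs_nonneg _).trans h1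
    have h5 : 0 < z.re := by
      rcases h4.eq_or_lt with h6 | h6
      · exfalso
        rw [← h6] at h1
        have h7 : z.im = 0 := abs_nonpos_iff.1 h1
        exact h3 (Complex.ext h6.symm h7)
      · exact h6
    exact h.pos_of_cone h5 h1
  have hB2 : ∀ b ∈ B, b.re ≤ 2 := by
    intro b hb
    obtain ⟨z, hz, rfl⟩ := (hBm b).1 hb
    by_contra hc
    push Not at hc
    have := D.eq _ hc
    rw [((hYm z).1 hz).1.2] at this
    exact Complex.exp_ne_zero _ this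
  have hgne : ∀ z : ℂ, |z.im| ≤ z.re → g (d * z) ≠ 0 := by
    intro z hz h0
    have h1 : Φ (d * z) = 0 := by rw [hfac, h0, mul_zero]
    by_cases hz0 : z = 0
    · subst hz0
      rw [mul_zero] at h0
      exact hg3 0 (Finset.mem_insert_self _ _) h0
    · have h2 : d * z ∈ B := (hBm _).2 ⟨z, (hYm z).2 ⟨⟨hz, h1⟩, hz0⟩, rfl⟩
      exact hg3 _ (Finset.mem_insert_of_mem h2) h0
  obtain ⟨C, hC⟩ := expl h D B (analyticOrderNatAt Φ) hg1 hfac hB2 hgne
  -- each zero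
  have hone : ∀ z : ℂ, ∃ C : ℝ, z ∈ Y → ∀ r : ℝ, 1 ≤ r →
      ‖(Real.log √r : ℝ) + Aint (d * z) (d ^ 2 / (4 * r)) - if z ∈ Sec then Ez z r else 0‖ ≤ C := by
    intro z
    by_cases hz : z ∈ Y
    · obtain ⟨C₁, hC₁⟩ := Aint_asym h (hYre z hz)
      by_cases hs : z ∈ Sec
      · refine ⟨C₁, fun _ r hr => ?_⟩
        have := hC₁ r hr
        rw [Ez_eq h (by linarith)] at this
        rw [if_pos hs, add_comm ((Real.log √r : ℝ) : ℂ)]
        exact this
      · obtain ⟨⟨h1, h2⟩, h3⟩ := (hYm z).1 hz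
        have h4 : z.re ^ 2 = z.im ^ 2 := by
          have h5 : |z.im| = z.re := le_antisymm h1 (not_lt.1 hs)
          rw [← h5, sq_abs]
        obtain ⟨C₂, hC₂⟩ := Ez_bdry h3 h4
        refine ⟨C₁ + C₂, fun _ r hr => ?_⟩
        have := hC₁ r hr
        rw [Ez_eq h (by linarith)] at this
        rw [if_neg hs, sub_zero]
        have e : (Real.log √r : ℝ) + Aint (d * z) (d ^ 2 / (4 * r)) =
          (Aint (d * z) (d ^ 2 / (4 * r)) + (Real.log √r : ℝ) - Ez z r) + Ez z r := by ring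
        rw [e]
        exact (norm_add_le _ _).trans (add_le_add this (hC₂ r hr))
    · exact ⟨0, fun h => absurd h hz⟩
  choose K hK using hone
  have hZY : Z = Y.filter (fun z => z ∈ Sec) := by
    ext z
    rw [hZ, Finset.mem_filter, hYm]
    constructor
    · rintro ⟨h1, h2⟩
      refine ⟨⟨⟨h1.le, h2⟩, ?_⟩, h1⟩
      rintro rfl
      have : |(0:ℂ).im| < (0:ℂ).re := h1
      simp at this
    · rintro ⟨⟨⟨-, h2⟩, -⟩, h1⟩
      exact ⟨h1, h2⟩
  refine ⟨C + ∑ z ∈ Y, (analyticOrderNatAt Φ (d * z) : ℝ) * K z, fun r hr => ?_⟩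
  have h1 := hC r hr
  have e1 : ∑ z ∈ Z, (analyticOrderNatAt Φ (d * z) : ℂ) * Ez z r =
      ∑ z ∈ Y, (analyticOrderNatAt Φ (d * z) : ℂ) * (if z ∈ Sec then Ez z r else 0) := by
    rw [hZY, Finset.sum_filter]
    refine Finset.sum_congr rfl fun z _ => ?_
    split_ifs <;> simp
  have e2 : (((m + ∑ b ∈ B, analyticOrderNatAt Φ b : ℕ) : ℂ) * (Real.log √r : ℝ) +
        ∑ b ∈ B, (analyticOrderNatAt Φ b : ℂ) * Aint b (d ^ 2 / (4 * r))) =
      (m : ℂ) * (Real.log √r : ℝ) + ∑ z ∈ Y, (analyticOrderNatAt Φ (d * z) : ℂ) *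
        ((Real.log √r : ℝ) + Aint (d * z) (d ^ 2 / (4 * r))) := by
    rw [hB, Finset.sum_image hinj, Finset.sum_image hinj]
    push_cast
    simp only [mul_add]
    rw [Finset.sum_add_distrib, add_mul, Finset.sum_mul]
    ring
  rw [e2] at h1
  rw [e1]
  have e3 : gs lam c (d ^ 2 / (4 * r)) - ((m : ℂ) * (Real.log √r : ℝ) +
      ∑ z ∈ Y, (analyticOrderNatAt Φ (d * z) : ℂ) * (if z ∈ Sec then Ez z r else 0)) =
      (gs lam c (d ^ 2 / (4 * r)) - ((m : ℂ) * (Real.log √r : ℝ) +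
        ∑ z ∈ Y, (analyticOrderNatAt Φ (d * z) : ℂ) *
          ((Real.log √r : ℝ) + Aint (d * z) (d ^ 2 / (4 * r))))) +
      ∑ z ∈ Y, (analyticOrderNatAt Φ (d * z) : ℂ) *
          ((Real.log √r : ℝ) + Aint (d * z) (d ^ 2 / (4 * r)) - if z ∈ Sec then Ez z r else 0) := by
    simp only [mul_sub]
    rw [Finset.sum_sub_distrib]
    ring
  rw [e3]
  refine (norm_add_le _ _).trans (add_le_add h1 ?_)
  refine (norm_sum_le _ _).trans (Finset.sum_le_sum fun z hz => ?_)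
  rw [norm_mul, Complex.norm_natCast]
  exact mul_le_mul_of_nonneg_left (hK z hz r hr) (Nat.cast_nonneg _)

end Pool.Agent.D0H40.GC
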