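import Pool.Agent.D0H40.GC.Expl

/-! Asymptotics of the contribution of one zero. -/

set_option autoImplicit false

namespace Pool.Agent.D0H40.GC

open Complex MeasureTheory Filter Topology Set
open Pool.Agent.W189.ML (ser)
open scoped ComplexConjugate

variable {d : ℂ}

theorem gauss_full (b : ℂ) {s : ℂ} (hs : 0 < s.re) :
    ∫ u : ℝ, exp (b * u) * exp (-(s * (u : ℂ) ^ 2)) =
      (Real.pi / s) ^ (1 / 2 : ℂ) * exp (b ^ 2 / (4 * s)) := by
  have h1 := integral_cexp_quadratic (b := -s) (by simpa using hs) b 0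
  have hs0 : s ≠ 0 := by rintro rfl; simp at hs
  have e1 : ∀ u : ℝ, exp (b * u) * exp (-(s * (u : ℂ) ^ 2)) =
      exp (-s * (u : ℂ) ^ 2 + b * u + 0) := by
    intro u
    rw [← Complex.exp_add]
    congr 1
    ring
  simp only [e1]
  rw [h1, neg_neg]
  congr 2
  field_simp
  ring

theorem gauss_int (b : ℂ) {s : ℂ} (hs : 0 < s.re) :
    Integrable fun u : ℝ => exp (b * u) * exp (-(s * (u : ℂ) ^ 2)) := by
  have h1 := integrable_cexp_quadratic (b := s) hs b 0
  refine h1.congr (Eventually.of_forall fun u => ?_)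
  show exp (-s * (u : ℂ) ^ 2 + b * u + 0) = exp (b * u) * exp (-(s * (u : ℂ) ^ 2))
  rw [← Complex.exp_add]
  congr 1
  ring

theorem gauss_real {s : ℂ} (hs : 0 < s.re) (σ : ℝ) :
    Integrable fun u : ℝ => Real.exp (σ * u) * Real.exp (-(s.re * u ^ 2)) := by
  have h1 := (gauss_int (σ : ℂ) hs).norm
  refine h1.congr (Eventually.of_forall fun u => ?_)
  show ‖exp ((σ : ℂ) * u) * exp (-(s * (u : ℂ) ^ 2))‖ = _
  rw [norm_mul, Complex.norm_exp, Complex.norm_exp]
  congr 2
  · simp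
  · rw [← Complex.ofReal_pow, Complex.neg_re, Complex.re_mul_ofReal]

theorem norm_exp_neg_sq (s : ℂ) (u : ℝ) : ‖exp (-(s * (u : ℂ) ^ 2))‖ = Real.exp (-(s.re * u ^ 2)) := by
  rw [Complex.norm_exp, ← Complex.ofReal_pow, Complex.neg_re, Complex.re_mul_ofReal]

theorem hb_int (b : ℂ) {s : ℂ} (hs : 0 < s.re) :
    IntegrableOn (fun u : ℝ => hb b u * exp (-(s * (u : ℂ) ^ 2))) (Ioi 0) := by
  refine Integrable.mono' (g := fun u => ‖b‖ * (Real.exp (|b.re| * u) * Real.exp (-(s.re * u ^ 2))))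
    (((gauss_real hs _).const_mul _).integrableOn) ?_ ?_
  · refine AEStronglyMeasurable.mul (hb_meas b).aestronglyMeasurable ?_
    exact (Continuous.aestronglyMeasurable (by fun_prop))
  · refine (ae_restrict_iff' measurableSet_Ioi).2 (Eventually.of_forall fun u hu => ?_)
    have hu0 : 0 < u := hu
    rw [norm_mul, norm_exp_neg_sq, ← mul_assoc]
    exact mul_le_mul_of_nonneg_right (hb_le (abs_nonneg _) (le_abs_self _) hu0) (Real.exp_pos _).le

theorem hb_sub (b : ℂ) {u : ℝ} (hu : 0 < u) : hb b u - hb (-b) u =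
    ∫ t in (0:ℝ)..1, b * (exp (t * b * u) + exp (-(t * b * u))) := by
  have hu' : (u : ℂ) ≠ 0 := by exact_mod_cast hu.ne'
  have key : ∀ t ∈ uIcc (0:ℝ) 1, HasDerivAt (fun t : ℝ => (exp (t * b * u) - exp (-(t * b * u))) / u)
      (b * (exp (t * b * u) + exp (-(t * b * u)))) t := by
    intro t _
    have h1 : HasDerivAt (fun t : ℝ => (t : ℂ) * b * u) (b * u) t := by
      have := ((hasDerivAt_id t).ofReal_comp.mul_const b).mul_const (u : ℂ)
      simpa using this
    have h1n : HasDerivAt (fun t : ℝ => -((t : ℂ) * b * u)) (-(b * u)) t := h1.fun_neg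
    have h2 := (h1.cexp.sub h1n.cexp).div_const (u : ℂ)
    refine h2.congr_deriv ?_
    field_simp
    ring
  rw [intervalIntegral.integral_eq_sub_of_hasDerivAt key
    (Continuous.intervalIntegrable (by fun_prop) _ _)]
  unfold hb
  simp
  ring

theorem gauss_half (b : ℂ) {s : ℂ} (hs : 0 < s.re) :
    ∫ u in Ioi (0:ℝ), (exp (b * u) + exp (-(b * u))) * exp (-(s * (u : ℂ) ^ 2)) =
      (Real.pi / s) ^ (1 / 2 : ℂ) * exp (b ^ 2 / (4 * s)) := by
  have h1 := gauss_int b hs
  have h2 := gauss_int (-b) hs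
  rw [← gauss_full b hs, ← intervalIntegral.integral_Iic_add_Ioi (b := 0) h1.integrableOn h1.integrableOn]
  have e1 : ∫ u in Iic (0:ℝ), exp (b * u) * exp (-(s * (u : ℂ) ^ 2)) =
      ∫ u in Ioi (0:ℝ), exp (-(b * u)) * exp (-(s * (u : ℂ) ^ 2)) := by
    have h3 := integral_comp_neg_Ioi (0:ℝ) (fun u : ℝ => exp (b * u) * exp (-(s * (u : ℂ) ^ 2)))
    rw [neg_zero] at h3
    rw [← h3]
    refine integral_congr_ae (Eventually.of_forall fun u => ?_)
    simp
  rw [e1, ← integral_add]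
  · refine integral_congr_ae (Eventually.of_forall fun u => ?_)
    simp only
    ring
  · refine (h2.integrableOn (s := Ioi 0)).congr (Eventually.of_forall fun u => ?_)
    simp
  · exact h1.integrableOn

/-- the difference of `Aint` at `b` and `-b` -/
theorem Aint_sub (b : ℂ) {s : ℂ} (hs : 0 < s.re) : Aint b s - Aint (-b) s =
    b * ((Real.pi / s) ^ (1 / 2 : ℂ) * ∫ t in (0:ℝ)..1, exp ((t : ℂ) ^ 2 * (b ^ 2 / (4 * s)))) := by
  unfold Aint
  rw [← integral_sub (hb_int b hs) (hb_int (-b) hs)]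
  have e1 : ∫ u in Ioi (0:ℝ), (hb b u * exp (-(s * (u : ℂ) ^ 2)) -
      hb (-b) u * exp (-(s * (u : ℂ) ^ 2))) =
      ∫ u in Ioi (0:ℝ), ∫ t in Ioc (0:ℝ) 1, b * (exp (t * b * u) + exp (-(t * b * u))) *
        exp (-(s * (u : ℂ) ^ 2)) := by
    refine setIntegral_congr_fun measurableSet_Ioi fun u hu => ?_
    rw [← sub_mul, hb_sub b hu, intervalIntegral.integral_of_le zero_le_one, ← integral_mul_const]
  rw [e1, integral_integral_swap]
  · have e2 : ∀ t : ℝ, ∫ u in Ioi (0:ℝ), b * (exp (t * b * u) + exp (-(t * b * u))) *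
        exp (-(s * (u : ℂ) ^ 2)) = b * ((Real.pi / s) ^ (1 / 2 : ℂ) *
          exp ((t : ℂ) ^ 2 * (b ^ 2 / (4 * s)))) := by
      intro t
      have := gauss_half ((t : ℂ) * b) hs
      rw [mul_pow, mul_div_assoc] at this
      rw [← this, ← integral_const_mul]
      refine integral_congr_ae (Eventually.of_forall fun u => ?_)
      simp only
      ring
    simp only [e2]
    rw [intervalIntegral.integral_of_le zero_le_one, integral_const_mul, integral_const_mul]
  · have hb1 : Integrable (fun z : ℝ × ℝ => (2 * ‖b‖) * ((Real.exp (|b.re| * z.1) *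
        Real.exp (-(s.re * z.1 ^ 2))) * (1 : ℝ))) ((volume.restrict (Ioi (0:ℝ))).prod
          (volume.restrict (Ioc (0:ℝ) 1))) := by
      refine Integrable.const_mul ?_ _
      exact Integrable.mul_prod (f := fun u : ℝ => Real.exp (|b.re| * u) * Real.exp (-(s.re * u ^ 2)))
        (g := fun _ : ℝ => (1:ℝ)) (gauss_real hs _).integrableOn (integrable_const _)
    refine hb1.mono' ?_ ?_
    · refine Continuous.aestronglyMeasurable ?_
      unfold Function.uncurry
      fun_prop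
    · rw [Measure.prod_restrict]
      refine (ae_restrict_iff' (measurableSet_Ioi.prod measurableSet_Ioc)).2
        (Eventually.of_forall fun z hz => ?_)
      obtain ⟨hz1, hz2⟩ := hz
      have hu0 : 0 < z.1 := hz1
      have ht0 : 0 < z.2 := hz2.1
      have ht1 : z.2 ≤ 1 := hz2.2
      unfold Function.uncurry
      simp only
      rw [norm_mul, norm_mul, norm_exp_neg_sq]
      have hk : z.2 * (|b.re| * z.1) ≤ |b.re| * z.1 :=
        mul_le_of_le_one_left (by positivity) ht1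
      have h3 : ‖exp ((z.2 : ℂ) * b * z.1)‖ ≤ Real.exp (|b.re| * z.1) := by
        rw [Complex.norm_exp, Complex.re_mul_ofReal, Complex.re_ofReal_mul]
        apply Real.exp_le_exp.2
        have h5 : z.2 * b.re * z.1 ≤ z.2 * (|b.re| * z.1) := by
          rw [mul_assoc]
          gcongr
          exact le_abs_self _
        linarith
      have h4 : ‖exp (-((z.2 : ℂ) * b * z.1))‖ ≤ Real.exp (|b.re| * z.1) := by
        rw [Complex.norm_exp, Complex.neg_re, Complex.re_mul_ofReal, Complex.re_ofReal_mul]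
        apply Real.exp_le_exp.2
        have h5 : -(z.2 * b.re * z.1) ≤ z.2 * (|b.re| * z.1) := by
          have : z.2 * (-b.re) * z.1 ≤ z.2 * (|b.re| * z.1) := by
            rw [mul_assoc]
            gcongr
            exact neg_le_abs _
          linarith
        linarith
      have h6 : ‖exp ((z.2 : ℂ) * b * z.1) + exp (-((z.2 : ℂ) * b * z.1))‖ ≤
          2 * Real.exp (|b.re| * z.1) := (norm_add_le _ _).trans (by linarith)
      calc _ ≤ ‖b‖ * (2 * Real.exp (|b.re| * z.1)) * Real.exp (-(s.re * z.1 ^ 2)) := by gcongr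
        _ = _ := by ring

/-- Fresnel's integral -/
theorem fresnel {T : ℝ} (hT : 1 ≤ |T|) :
    ‖∫ t in (0:ℝ)..1, exp (((T * t ^ 2 : ℝ) : ℂ) * I)‖ ≤ 3 / √|T| := by
  have hT0 : 0 < |T| := by linarith
  have hTne : T ≠ 0 := abs_pos.1 hT0
  have hTc : (T : ℂ) ≠ 0 := by exact_mod_cast hTne
  set q : ℝ := √|T| with hq
  have hq1 : 1 ≤ q := by rw [hq, Real.one_le_sqrt]; exact hT
  have hq0 : 0 < q := by linarith
  have hqq : q ^ 2 = |T| := Real.sq_sqrt hT0.le
  have hn : ∀ t : ℝ, ‖exp (((T * t ^ 2 : ℝ) : ℂ) * I)‖ = 1 := fun t => Complex.norm_exp_ofReal_mul_I _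
  set t₀ : ℝ := 1 / q with ht₀
  have ht00 : 0 < t₀ := by positivity
  have ht01 : t₀ ≤ 1 := by rw [ht₀, div_le_one hq0]; exact hq1
  have hc : Continuous fun t : ℝ => exp (((T * t ^ 2 : ℝ) : ℂ) * I) := by fun_prop
  rw [← intervalIntegral.integral_add_adjacent_intervals (b := t₀) (hc.intervalIntegrable _ _)
    (hc.intervalIntegrable _ _)]
  have h1 : ‖∫ t in (0:ℝ)..t₀, exp (((T * t ^ 2 : ℝ) : ℂ) * I)‖ ≤ 1 * |t₀ - 0| :=
    intervalIntegral.norm_integral_le_of_norm_le_const fun t _ => (hn t).le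
  rw [sub_zero, abs_of_pos ht00, one_mul] at h1
  have hpos : ∀ t ∈ uIcc t₀ 1, 0 < t := by
    intro t ht
    rw [uIcc_of_le ht01] at ht
    exact ht00.trans_le ht.1
  have hu : ∀ t ∈ uIcc t₀ 1, HasDerivAt (fun t : ℝ => (2 * T * t * I : ℂ)⁻¹)
      (-(2 * T * I : ℂ)⁻¹ * ((t : ℂ) ^ 2)⁻¹) t := by
    intro t ht
    have ht0 : (t : ℂ) ≠ 0 := by exact_mod_cast (hpos t ht).ne'
    have h2 : HasDerivAt (fun t : ℝ => (2 * T * t * I : ℂ)) (2 * T * I) t := by
      have := ((hasDerivAt_id t).ofReal_comp.const_mul (2 * (T : ℂ))).mul_const I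
      simpa using this
    have h3 := h2.inv (mul_ne_zero (mul_ne_zero (mul_ne_zero two_ne_zero hTc) ht0) I_ne_zero)
    refine h3.congr_deriv ?_
    have := I_ne_zero
    field_simp
  have hv : ∀ t ∈ uIcc t₀ 1, HasDerivAt (fun t : ℝ => exp (((T * t ^ 2 : ℝ) : ℂ) * I))
      (2 * T * t * I * exp (((T * t ^ 2 : ℝ) : ℂ) * I)) t := by
    intro t _
    have h2 : HasDerivAt (fun t : ℝ => ((T * t ^ 2 : ℝ) : ℂ) * I) (2 * T * t * I) t := by
      have h3 : HasDerivAt (fun t : ℝ => T * t ^ 2) (T * (2 * t)) t := by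
        simpa using (hasDerivAt_pow 2 t).const_mul T
      have := h3.ofReal_comp.mul_const I
      refine this.congr_deriv ?_
      push_cast
      ring
    refine h2.cexp.congr_deriv ?_
    ring
  have hui : IntervalIntegrable (fun t : ℝ => -(2 * T * I : ℂ)⁻¹ * ((t : ℂ) ^ 2)⁻¹) volume t₀ 1 := by
    refine ContinuousOn.intervalIntegrable ?_
    refine continuousOn_const.mul (ContinuousOn.inv₀ (by fun_prop) fun t ht => ?_)
    have : (t : ℂ) ≠ 0 := by exact_mod_cast (hpos t ht).ne'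
    exact pow_ne_zero 2 this
  have hvi : IntervalIntegrable (fun t : ℝ => 2 * T * t * I * exp (((T * t ^ 2 : ℝ) : ℂ) * I))
      volume t₀ 1 := Continuous.intervalIntegrable (by fun_prop) _ _
  have hparts := intervalIntegral.integral_mul_deriv_eq_deriv_mul hu hv hui hvi
  have e1 : ∫ t in t₀..1, exp (((T * t ^ 2 : ℝ) : ℂ) * I) =
      ∫ t in t₀..1, (2 * T * t * I : ℂ)⁻¹ * (2 * T * t * I * exp (((T * t ^ 2 : ℝ) : ℂ) * I)) := by
    refine intervalIntegral.integral_congr fun t ht => ?_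
    have ht0 : (t : ℂ) ≠ 0 := by exact_mod_cast (hpos t ht).ne'
    have h3 : (2 * T * t * I : ℂ) ≠ 0 :=
      mul_ne_zero (mul_ne_zero (mul_ne_zero two_ne_zero hTc) ht0) I_ne_zero
    rw [← mul_assoc, inv_mul_cancel₀ h3, one_mul]
  rw [e1, hparts]
  have hnu : ∀ t : ℝ, 0 < t → ‖(2 * T * t * I : ℂ)⁻¹‖ = 1 / (2 * |T| * t) := by
    intro t ht
    rw [norm_inv, norm_mul, norm_mul, norm_mul, Complex.norm_I, Complex.norm_real, Complex.norm_real,
      Real.norm_eq_abs, Real.norm_eq_abs, abs_of_pos ht, mul_one]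
    simp
  have h4 : ‖∫ t in t₀..1, -(2 * T * I : ℂ)⁻¹ * ((t : ℂ) ^ 2)⁻¹ * exp (((T * t ^ 2 : ℝ) : ℂ) * I)‖ ≤
      1 / (2 * |T|) * (1 / t₀ - 1) := by
    have h5 : ∫ t in t₀..1, 1 / (2 * |T|) * (t ^ 2)⁻¹ = 1 / (2 * |T|) * (1 / t₀ - 1) := by
      have h6 : ∀ t ∈ uIcc t₀ 1, HasDerivAt (fun t : ℝ => 1 / (2 * |T|) * (-t⁻¹))
          (1 / (2 * |T|) * (t ^ 2)⁻¹) t := by
        intro t ht
        have h7 := ((hasDerivAt_inv (hpos t ht).ne').neg).const_mul (1 / (2 * |T|))
        refine h7.congr_deriv ?_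
        rw [neg_neg]
      rw [intervalIntegral.integral_eq_sub_of_hasDerivAt h6]
      · rw [inv_one, one_div t₀]
        ring
      · refine ContinuousOn.intervalIntegrable ?_
        exact continuousOn_const.mul (ContinuousOn.inv₀ (by fun_prop) fun t ht =>
          pow_ne_zero 2 (hpos t ht).ne')
    rw [← h5]
    refine intervalIntegral.norm_integral_le_of_norm_le ht01 ?_ ?_
    · refine Eventually.of_forall fun t ht => ?_
      have ht0 : 0 < t := ht00.trans ht.1
      rw [norm_mul, norm_mul, hn, mul_one, norm_neg, norm_inv, norm_inv, norm_mul, norm_mul,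
        Complex.norm_I, norm_pow, Complex.norm_real, Complex.norm_real, Real.norm_eq_abs,
        Real.norm_eq_abs, abs_of_pos ht0]
      simp
    · refine ContinuousOn.intervalIntegrable ?_
      exact continuousOn_const.mul (ContinuousOn.inv₀ (by fun_prop) fun t ht =>
        pow_ne_zero 2 (hpos t ht).ne')
  have h8 : 1 / (2 * |T|) * (1 / t₀ - 1) ≤ 1 / (2 * q) := by
    rw [ht₀, one_div_one_div, ← hqq]
    have e : 1 / (2 * q ^ 2) * q = 1 / (2 * q) := by field_simp
    have : 0 ≤ 1 / (2 * q ^ 2) := by positivity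
    linarith
  have h9 : ‖(2 * T * (1 : ℝ) * I : ℂ)⁻¹ * exp (((T * 1 ^ 2 : ℝ) : ℂ) * I)‖ ≤ 1 / (2 * q) := by
    rw [norm_mul, hn, hnu 1 one_pos, mul_one, mul_one, ← hqq]
    apply one_div_le_one_div_of_le (by positivity)
    have : q * 1 ≤ q * q := by gcongr
    rw [sq]
    linarith
  have h10 : ‖(2 * T * t₀ * I : ℂ)⁻¹ * exp (((T * t₀ ^ 2 : ℝ) : ℂ) * I)‖ = 1 / (2 * q) := by
    rw [norm_mul, hn, hnu t₀ ht00, mul_one, ← hqq, ht₀]
    field_simp
  have e0 : t₀ = 1 / q := ht₀
  calc _ ≤ t₀ + (1 / (2 * q) + 1 / (2 * q) + 1 / (2 * q)) := by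
        refine (norm_add_le _ _).trans (add_le_add h1 ?_)
        refine (norm_sub_le _ _).trans (add_le_add ?_ (h4.trans h8))
        exact (norm_sub_le _ _).trans (add_le_add h9 h10.le)
    _ ≤ 3 / q := by
        rw [e0]
        have : 0 < 1 / q := by positivity
        have e2 : 1 / (2 * q) = 1 / q / 2 := by field_simp
        have e3 : 3 / q = 3 * (1 / q) := by ring
        rw [e2, e3]
        linarith

end Pool.Agent.D0H40.GC
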