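import Pool.Agent.D0H40.GC.Asym

/-! Asymptotics of the contribution of one zero: the logarithmic part. -/

set_option autoImplicit false

namespace Pool.Agent.D0H40.GC

open Complex MeasureTheory Filter Topology Set
open Pool.Agent.W189.ML (ser norm_exp_sub_one_le_of_re)
open scoped ComplexConjugate

variable {d : ℂ}

theorem int_inv_Ioc {ρ : ℝ} (hρ : 1 ≤ ρ) : IntegrableOn (fun u : ℝ => u⁻¹) (Ioc 1 ρ) ∧
    ∫ u in Ioc (1:ℝ) ρ, u⁻¹ = Real.log ρ := by
  have h0 : (0:ℝ) ∉ uIcc 1 ρ := by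
    rw [uIcc_of_le hρ]
    rintro ⟨h, _⟩
    linarith
  constructor
  · have := (intervalIntegral.intervalIntegrable_inv (f := fun u : ℝ => u) (μ := volume)
      (a := 1) (b := ρ) (fun x hx h => h0 (h ▸ hx)) continuousOn_id).1
    exact this
  · rw [← intervalIntegral.integral_of_le hρ, integral_inv h0, div_one]

theorem int_id_Ioc {ρ : ℝ} (hρ : 0 ≤ ρ) : IntegrableOn (fun u : ℝ => u) (Ioc 0 ρ) ∧
    ∫ u in Ioc (0:ℝ) ρ, u = ρ ^ 2 / 2 := by
  constructor
  · exact (continuous_id.intervalIntegrable 0 ρ).1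
  · rw [← intervalIntegral.integral_of_le hρ, integral_id]
    ring

/-- the pointwise bound -/
theorem neg_pt {b s : ℂ} (hbr : 0 < b.re) (hs : 0 < s.re) {ρ u : ℝ} (hρ : 1 ≤ ρ) (hu : 0 < u) :
    ‖hb (-b) u * exp (-(s * (u : ℂ) ^ 2)) + (((Ioc 1 ρ).indicator (fun u : ℝ => u⁻¹) u : ℝ) : ℂ)‖ ≤
      (Ioc 0 1).indicator (fun _ => ‖b‖) u + Real.exp (-(b.re * u)) +
        (Ioc 0 ρ).indicator (fun u => ‖s‖ * u) u + 2 / ρ * Real.exp (-(s.re) * u ^ 2) := by
  have hρ0 : 0 < ρ := by linarith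
  have hu' : (u : ℂ) ≠ 0 := by exact_mod_cast hu.ne'
  have hE : ‖exp (-(s * (u : ℂ) ^ 2))‖ ≤ 1 := by
    rw [norm_exp_neg_sq]
    apply Real.exp_le_one_iff.2
    have : 0 ≤ s.re * u ^ 2 := by positivity
    linarith
  have hbn : ‖exp (-b * u)‖ = Real.exp (-(b.re * u)) := by
    rw [Complex.norm_exp, Complex.re_mul_ofReal, Complex.neg_re]
    congr 1
    ring
  have hb1 : ‖exp (-b * u)‖ ≤ 1 := by
    rw [hbn]
    apply Real.exp_le_one_iff.2
    have : 0 ≤ b.re * u := by positivity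
    linarith
  by_cases h1 : u ≤ 1
  · have e1 : (Ioc 1 ρ).indicator (fun u : ℝ => u⁻¹) u = 0 :=
      indicator_of_notMem (fun h => by linarith [h.1]) _
    have e2 : (Ioc (0:ℝ) 1).indicator (fun _ => ‖b‖) u = ‖b‖ :=
      indicator_of_mem (show u ∈ Ioc (0:ℝ) 1 from ⟨hu, h1⟩) _
    rw [e1, e2, Complex.ofReal_zero, add_zero, norm_mul]
    have h2 : ‖GC.hb (-b) u‖ ≤ ‖b‖ := by
      have := hb_le (b := -b) le_rfl (by simp; exact hbr.le) hu
      simpa using this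
    have h3 : 0 ≤ (Ioc 0 ρ).indicator (fun u => ‖s‖ * u) u := by
      refine indicator_nonneg (fun v hv => ?_) _
      have := hv.1
      positivity
    have h4 : ‖GC.hb (-b) u‖ * ‖exp (-(s * (u : ℂ) ^ 2))‖ ≤ ‖b‖ * 1 := by gcongr
    have h5 : 0 < Real.exp (-(b.re * u)) := Real.exp_pos _
    have h6 : 0 ≤ 2 / ρ * Real.exp (-(s.re) * u ^ 2) := by positivity
    linarith
  · push Not at h1
    have e2 : (Ioc (0:ℝ) 1).indicator (fun _ => ‖b‖) u = 0 :=
      indicator_of_notMem (fun h => by linarith [h.2]) _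
    rw [e2]
    by_cases h2 : u ≤ ρ
    · have e1 : (Ioc 1 ρ).indicator (fun u : ℝ => u⁻¹) u = u⁻¹ :=
        indicator_of_mem (show u ∈ Ioc (1:ℝ) ρ from ⟨h1, h2⟩) _
      have e3 : (Ioc 0 ρ).indicator (fun u => ‖s‖ * u) u = ‖s‖ * u :=
        indicator_of_mem (show u ∈ Ioc (0:ℝ) ρ from ⟨hu, h2⟩) _
      rw [e1, e3]
      have e4 : GC.hb (-b) u * exp (-(s * (u : ℂ) ^ 2)) + ((u⁻¹ : ℝ) : ℂ) =
          (exp (-b * u) * exp (-(s * (u : ℂ) ^ 2)) - (exp (-(s * (u : ℂ) ^ 2)) - 1)) / u := by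
        unfold GC.hb
        push_cast
        field_simp
        ring
      rw [e4, norm_div, Complex.norm_real, Real.norm_eq_abs, abs_of_pos hu, div_le_iff₀ hu]
      have h5 : ‖exp (-(s * (u : ℂ) ^ 2)) - 1‖ ≤ ‖s‖ * u ^ 2 := by
        refine (norm_exp_sub_one_le_of_re ?_).trans ?_
        · rw [← Complex.ofReal_pow, Complex.neg_re, Complex.re_mul_ofReal]
          have : 0 ≤ s.re * u ^ 2 := by positivity
          linarith
        · rw [norm_neg, norm_mul, norm_pow, Complex.norm_real, Real.norm_eq_abs, abs_of_pos hu]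
      have h6 : ‖exp (-b * u)‖ * ‖exp (-(s * (u : ℂ) ^ 2))‖ ≤ Real.exp (-(b.re * u)) * 1 := by
        rw [hbn]
        gcongr
      have h7 : ‖exp (-b * u) * exp (-(s * (u : ℂ) ^ 2)) - (exp (-(s * (u : ℂ) ^ 2)) - 1)‖ ≤
          Real.exp (-(b.re * u)) + ‖s‖ * u ^ 2 := by
        refine (norm_sub_le _ _).trans (add_le_add ?_ h5)
        rw [norm_mul]
        linarith
      have h8 : 0 < Real.exp (-(b.re * u)) := Real.exp_pos _
      have h9 : 0 ≤ 2 / ρ * Real.exp (-(s.re) * u ^ 2) * u := by positivity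
      have h10 : Real.exp (-(b.re * u)) ≤ Real.exp (-(b.re * u)) * u := le_mul_of_one_le_right h8.le h1.le
      calc _ ≤ _ := h7
        _ ≤ Real.exp (-(b.re * u)) * u + ‖s‖ * u * u + 2 / ρ * Real.exp (-(s.re) * u ^ 2) * u := by
            rw [sq u] at *
            linarith
        _ = _ := by ring
    · push Not at h2
      have e1 : (Ioc 1 ρ).indicator (fun u : ℝ => u⁻¹) u = 0 :=
        indicator_of_notMem (fun h => by linarith [h.2]) _
      have e3 : (Ioc 0 ρ).indicator (fun u => ‖s‖ * u) u = 0 :=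
        indicator_of_notMem (fun h => by linarith [h.2]) _
      rw [e1, e3, Complex.ofReal_zero, add_zero, norm_mul]
      have h3 : ‖GC.hb (-b) u‖ ≤ 2 / ρ := by
        unfold GC.hb
        rw [norm_div, Complex.norm_real, Real.norm_eq_abs, abs_of_pos hu]
        have h4 : ‖exp (-b * u) - 1‖ ≤ 2 := by
          refine (norm_sub_le _ _).trans ?_
          rw [norm_one]
          linarith
        gcongr
      have h5 : ‖exp (-(s * (u : ℂ) ^ 2))‖ = Real.exp (-(s.re) * u ^ 2) := by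
        rw [norm_exp_neg_sq]
        congr 1
        ring
      have h6 : ‖GC.hb (-b) u‖ * ‖exp (-(s * (u : ℂ) ^ 2))‖ ≤ 2 / ρ * Real.exp (-(s.re) * u ^ 2) := by
        rw [h5]
        gcongr
      have h8 : 0 < Real.exp (-(b.re * u)) := Real.exp_pos _
      linarith

/-- `Aint` at `-b` -/
theorem Aint_neg_le (h : Dir d) {b : ℂ} (hbr : 0 < b.re) :
    ∃ C : ℝ, ∀ r : ℝ, 1 ≤ r → ‖Aint (-b) (d ^ 2 / (4 * r)) + (Real.log √r : ℝ)‖ ≤ C := by
  have hC := h.C_pos
  refine ⟨‖b‖ + b.re⁻¹ + 1 / 8 + 2 * √(Real.pi / (d.re ^ 2 - d.im ^ 2)), fun r hr => ?_⟩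
  have hr0 : 0 < r := by linarith
  set ρ : ℝ := √r with hρ
  have hρ1 : 1 ≤ ρ := by rw [hρ, Real.one_le_sqrt]; exact hr
  have hρ0 : 0 < ρ := by linarith
  have hρr : ρ ^ 2 = r := Real.sq_sqrt hr0.le
  set s : ℂ := d ^ 2 / (4 * r) with hs
  have hsre : s.re = (d.re ^ 2 - d.im ^ 2) / (4 * r) := by
    rw [hs]
    have e : (4 * (r : ℂ)) = ((4 * r : ℝ) : ℂ) := by push_cast; ring
    rw [e, Complex.div_ofReal_re, sq, Complex.mul_re]
    ring
  have hs0 : 0 < s.re := by rw [hsre]; positivity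
  have hsn : ‖s‖ = 1 / (4 * r) := by
    rw [hs, norm_div, norm_pow, h.norm_eq, norm_mul, Complex.norm_real, Real.norm_eq_abs,
      abs_of_pos hr0]
    norm_num
  obtain ⟨hi1, hi2⟩ := int_inv_Ioc hρ1
  obtain ⟨hj1, hj2⟩ := int_id_Ioc hρ0.le
  obtain ⟨hk1, hk2⟩ := int_exp_real hbr
  have hsub : Ioc 1 ρ ⊆ Ioi (0:ℝ) := fun u hu => by
    have := hu.1
    show (0:ℝ) < u
    linarith
  have hind : ∫ u in Ioi (0:ℝ), (((Ioc 1 ρ).indicator (fun u : ℝ => u⁻¹) u : ℝ) : ℂ) =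
      (Real.log ρ : ℝ) := by
    rw [integral_complex_ofReal, setIntegral_indicator measurableSet_Ioc, inter_eq_self_of_subset_right hsub,
      hi2]
  have hindi : IntegrableOn (fun u => (((Ioc 1 ρ).indicator (fun u : ℝ => u⁻¹) u : ℝ) : ℂ)) (Ioi (0:ℝ)) := by
    refine Integrable.ofReal ?_
    refine Integrable.integrableOn ?_
    exact (integrable_indicator_iff measurableSet_Ioc).2 hi1
  have e0 : Aint (-b) s + (Real.log ρ : ℝ) = ∫ u in Ioi (0:ℝ), (GC.hb (-b) u * exp (-(s * (u : ℂ) ^ 2)) +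
      (((Ioc 1 ρ).indicator (fun u : ℝ => u⁻¹) u : ℝ) : ℂ)) := by
    rw [integral_add (hb_int (-b) hs0) hindi, hind]
    rfl
  rw [e0]
  -- the four bounds
  have g1 : IntegrableOn ((Ioc (0:ℝ) 1).indicator (fun _ => ‖b‖)) (Ioi 0) := by
    refine Integrable.integrableOn ?_
    refine (integrable_indicator_iff measurableSet_Ioc).2 ?_
    exact integrableOn_const (by simp)
  have g3 : IntegrableOn ((Ioc (0:ℝ) ρ).indicator (fun u => ‖s‖ * u)) (Ioi 0) := by
    refine Integrable.integrableOn ?_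
    refine (integrable_indicator_iff measurableSet_Ioc).2 ?_
    exact hj1.const_mul _
  have g4 : IntegrableOn (fun u : ℝ => 2 / ρ * Real.exp (-(s.re) * u ^ 2)) (Ioi 0) :=
    ((integrable_exp_neg_mul_sq hs0).const_mul _).integrableOn
  have i1 : ∫ u in Ioi (0:ℝ), (Ioc (0:ℝ) 1).indicator (fun _ => ‖b‖) u = ‖b‖ := by
    rw [setIntegral_indicator measurableSet_Ioc,
      inter_eq_self_of_subset_right (Ioc_subset_Ioi_self), setIntegral_const]
    simp
  have i3 : ∫ u in Ioi (0:ℝ), (Ioc (0:ℝ) ρ).indicator (fun u => ‖s‖ * u) u = 1 / 8 := by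
    rw [setIntegral_indicator measurableSet_Ioc,
      inter_eq_self_of_subset_right (Ioc_subset_Ioi_self), integral_const_mul, hj2, hsn, hρr]
    field_simp
    norm_num
  have i4 : ∫ u in Ioi (0:ℝ), 2 / ρ * Real.exp (-(s.re) * u ^ 2) =
      2 * √(Real.pi / (d.re ^ 2 - d.im ^ 2)) := by
    rw [integral_const_mul, integral_gaussian_Ioi]
    have e5 : Real.pi / s.re = (2 * ρ) ^ 2 * (Real.pi / (d.re ^ 2 - d.im ^ 2)) := by
      rw [hsre, mul_pow, hρr]
      field_simp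
      norm_num
    rw [e5, Real.sqrt_mul (by positivity), Real.sqrt_sq (by positivity)]
    field_simp
  have g12 : IntegrableOn (fun u : ℝ => (Ioc (0:ℝ) 1).indicator (fun _ => ‖b‖) u +
      Real.exp (-(b.re * u))) (Ioi 0) := g1.add hk1
  have g123 : IntegrableOn (fun u : ℝ => (Ioc (0:ℝ) 1).indicator (fun _ => ‖b‖) u +
      Real.exp (-(b.re * u)) + (Ioc 0 ρ).indicator (fun u => ‖s‖ * u) u) (Ioi 0) := g12.add g3
  calc _ ≤ ∫ u in Ioi (0:ℝ), ((Ioc 0 1).indicator (fun _ => ‖b‖) u + Real.exp (-(b.re * u)) +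
        (Ioc 0 ρ).indicator (fun u => ‖s‖ * u) u + 2 / ρ * Real.exp (-(s.re) * u ^ 2)) := by
        refine norm_integral_le_of_norm_le (g123.add g4) ?_
        exact (ae_restrict_iff' measurableSet_Ioi).2 (Eventually.of_forall fun u hu =>
          neg_pt hbr hs0 hρ1 hu)
    _ = _ := by
        rw [integral_add g123 g4, integral_add g12 g3, integral_add g1 hk1, i1, i3, i4, hk2]

/-- **The contribution of one zero.** -/
theorem Aint_asym (h : Dir d) {b : ℂ} (hbr : 0 < b.re) :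
    ∃ C : ℝ, ∀ r : ℝ, 1 ≤ r → ‖Aint b (d ^ 2 / (4 * r)) + (Real.log √r : ℝ) -
      b * ((Real.pi / (d ^ 2 / (4 * r))) ^ (1 / 2 : ℂ) *
        ∫ t in (0:ℝ)..1, exp ((t : ℂ) ^ 2 * (b ^ 2 / (4 * (d ^ 2 / (4 * r))))))‖ ≤ C := by
  obtain ⟨C, hC⟩ := Aint_neg_le h hbr
  refine ⟨C, fun r hr => ?_⟩
  have hr0 : 0 < r := by linarith
  have hs0 : 0 < (d ^ 2 / (4 * r) : ℂ).re := by
    have e : (4 * (r : ℂ)) = ((4 * r : ℝ) : ℂ) := by push_cast; ring
    have hC := h.C_pos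
    rw [e, Complex.div_ofReal_re, sq, Complex.mul_re]
    have e2 : d.re * d.re - d.im * d.im = d.re ^ 2 - d.im ^ 2 := by ring
    rw [e2]
    positivity
  rw [← Aint_sub b hs0]
  have := hC r hr
  have e : Aint b (d ^ 2 / (4 * r)) + (Real.log √r : ℝ) - (Aint b (d ^ 2 / (4 * r)) -
      Aint (-b) (d ^ 2 / (4 * r))) = Aint (-b) (d ^ 2 / (4 * r)) + (Real.log √r : ℝ) := by ring
  rw [e]
  exact this

end Pool.Agent.D0H40.GC
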