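import Pool.Agent.D0H40.GC.Geo
import Pool.Agent.W334.BSD.Ker

/-! The converse: bounds for the Gaussian sums exclude zeros. -/

set_option autoImplicit false

namespace Pool.Agent.D0H40.GC

open Complex MeasureTheory Filter Topology Set
open Pool.Agent.W189.ML (ser)
open Pool.Agent.W334.BSD (gker gker_nonneg gker_measurable lap_gker_real csq csq_sq csq_re_pos
  csq_ofReal csq_ne_zero)
open Pool.Agent.H295R2 (Nice Lap)
open scoped ComplexConjugate

variable {lam c : ℕ → ℝ} {G Φ : ℂ → ℂ} {d : ℂ}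

/-- the kernel `v^{-3/2} exp (-t²/(4v))` -/
noncomputable def kt (t : ℂ) : ℝ → ℂ :=
  (Ioi (0:ℝ)).indicator fun v => ((v ^ (-(3 / 2) : ℝ) : ℝ) : ℂ) * exp (-(t ^ 2 / (4 * v)))

theorem pow_exp_le {a v : ℝ} (ha : 0 < a) (hv : 0 < v) :
    v ^ (-(3 / 2) : ℝ) * Real.exp (-(a / v)) ≤ 1 + 2 / a ^ 2 := by
  have h2 : 0 ≤ 2 / a ^ 2 := by positivity
  by_cases h1 : 1 ≤ v
  · have h3 : v ^ (-(3 / 2) : ℝ) ≤ 1 := Real.rpow_le_one_of_one_le_of_nonpos h1 (by norm_num)
    have h4 : Real.exp (-(a / v)) ≤ 1 := Real.exp_le_one_iff.2 (by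
      have : 0 ≤ a / v := by positivity
      linarith)
    calc v ^ (-(3 / 2) : ℝ) * Real.exp (-(a / v)) ≤ 1 * 1 :=
          mul_le_mul h3 h4 (Real.exp_pos _).le zero_le_one
      _ ≤ _ := by linarith
  · push Not at h1
    have h3 : v ^ (-(3 / 2) : ℝ) ≤ v ^ (-2 : ℝ) :=
      Real.rpow_le_rpow_of_exponent_ge hv h1.le (by norm_num)
    have h4 : v ^ (-2 : ℝ) = (1 / v) ^ 2 := by
      rw [Real.rpow_neg hv.le, one_div, inv_pow]
      norm_cast
    have h5 : (a / v) ^ 2 / 2 ≤ Real.exp (a / v) := by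
      have := Real.quadratic_le_exp_of_nonneg (show 0 ≤ a / v by positivity)
      have h6 : 0 ≤ a / v := by positivity
      linarith
    rw [Real.exp_neg]
    have h6 := Real.exp_pos (a / v)
    calc v ^ (-(3 / 2) : ℝ) * (Real.exp (a / v))⁻¹ ≤ (1 / v) ^ 2 * (Real.exp (a / v))⁻¹ := by
          rw [← h4]
          exact mul_le_mul_of_nonneg_right h3 (inv_pos.2 h6).le
      _ ≤ 2 / a ^ 2 := by
          rw [← div_eq_mul_inv, div_le_div_iff₀ h6 (by positivity)]
          have e : (1 / v) ^ 2 * a ^ 2 = 2 * ((a / v) ^ 2 / 2) := by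
            field_simp
          rw [e]
          linarith
      _ ≤ _ := by linarith

theorem kt_nice {t : ℂ} (ht : 0 < (t ^ 2).re) : Nice (kt t) (1 + 2 / ((t ^ 2).re / 4) ^ 2) 0 0 where
  meas := by
    unfold kt
    refine Measurable.indicator ?_ measurableSet_Ioi
    fun_prop
  bound := by
    intro u
    rw [zero_mul, Real.exp_zero, mul_one]
    unfold kt
    by_cases hu : u ∈ Ioi (0:ℝ)
    · have hu0 : 0 < u := hu
      rw [indicator_of_mem hu, norm_mul, Complex.norm_real, Real.norm_eq_abs,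
        abs_of_nonneg (by positivity), Complex.norm_exp]
      have e : (-(t ^ 2 / (4 * (u : ℂ)))).re = -((t ^ 2).re / 4 / u) := by
        have : t ^ 2 / (4 * (u : ℂ)) = t ^ 2 * (((4 * u)⁻¹ : ℝ) : ℂ) := by
          push_cast
          rw [div_eq_mul_inv]
        rw [this, Complex.neg_re, Complex.re_mul_ofReal]
        field_simp
      rw [e]
      exact pow_exp_le (by positivity) hu0
    · rw [indicator_of_notMem hu, norm_zero]
      positivity
  zero := by
    intro u hu
    unfold kt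
    rw [indicator_of_notMem]
    simpa using hu.le

/-- the Laplace transform of the kernel for complex `t` -/
theorem lap_cplx {t : ℂ} (ht : 0 < t.re) (ht2 : 0 < (t ^ 2).re) {x : ℝ} (hx : 0 < x) :
    ∫ v in Ioi (0:ℝ), exp (-(t ^ 2 / (4 * v))) / (√(Real.pi * v) : ℝ) * exp (-(x * v)) =
      exp (-(√x * t)) / (√x : ℝ) := by
  have hN := kt_nice ht2
  have hD := hN.Lap_hasDerivAt (s := (x : ℂ)) (by simpa using hx)
  have hD2 := hD.comp_ofReal
  -- the values on the real line
  have hval : ∀ l : ℝ, 0 < l → Lap (kt t) l = (2 * √Real.pi / t) * exp (-(t * √l)) := by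
    intro l hl
    rw [← (Pool.Agent.Helper5.PG.glasser_cplx t l ht ht2 hl).2]
    unfold Lap kt
    rw [← integral_indicator measurableSet_Ioi]
    congr 1
    funext v
    by_cases hv : v ∈ Ioi (0:ℝ)
    · rw [indicator_of_mem hv, indicator_of_mem hv, mul_assoc, ← Complex.exp_add]
      ring_nf
    · rw [indicator_of_notMem hv, indicator_of_notMem hv, zero_mul]
  have ht0 : t ≠ 0 := by rintro rfl; simp at ht
  have hsx : 0 < √x := Real.sqrt_pos.2 hx
  have hK : HasDerivAt (fun l : ℝ => (2 * √Real.pi / t : ℂ) * exp (-(t * √l)))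
      ((2 * √Real.pi / t) * (exp (-(t * √x)) * -(t * ((1 / (2 * √x) : ℝ) : ℂ)))) x := by
    have h1 := (Real.hasDerivAt_sqrt hx.ne').ofReal_comp
    have h2 := (h1.const_mul t).neg
    exact h2.cexp.const_mul _
  have hD3 : HasDerivAt (fun l : ℝ => (2 * √Real.pi / t : ℂ) * exp (-(t * √l)))
      (∫ u : ℝ, kt t u * (-(u : ℂ) * Complex.exp (-((x : ℂ) * u)))) x := by
    refine hD2.congr_of_eventuallyEq ?_
    filter_upwards [lt_mem_nhds hx] with l hl
    exact (hval l hl).symm
  have huniq := hD3.unique hK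
  have hp : 0 < √Real.pi := Real.sqrt_pos.2 Real.pi_pos
  have hpc : ((√Real.pi : ℝ) : ℂ) ≠ 0 := by exact_mod_cast hp.ne'
  have hsc : ((√x : ℝ) : ℂ) ≠ 0 := by exact_mod_cast hsx.ne'
  have e1 : ∫ u : ℝ, kt t u * (-(u : ℂ) * Complex.exp (-((x : ℂ) * u))) =
      -(√Real.pi : ℂ) * ∫ v in Ioi (0:ℝ), exp (-(t ^ 2 / (4 * v))) / (√(Real.pi * v) : ℝ) *
        exp (-(x * v)) := by
    rw [← integral_const_mul, ← integral_indicator measurableSet_Ioi]
    congr 1
    funext v
    unfold kt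
    by_cases hv : v ∈ Ioi (0:ℝ)
    · have hv0 : 0 < v := hv
      rw [indicator_of_mem hv, indicator_of_mem hv, Real.sqrt_mul Real.pi_pos.le]
      have hsv : 0 < √v := Real.sqrt_pos.2 hv0
      have hsvc : ((√v : ℝ) : ℂ) ≠ 0 := by exact_mod_cast hsv.ne'
      have e2 : v ^ (-(3 / 2) : ℝ) * v = (√v)⁻¹ := by
        rw [Real.sqrt_eq_rpow, ← Real.rpow_neg hv0.le]
        nth_rewrite 2 [← Real.rpow_one v]
        rw [← Real.rpow_add hv0]
        norm_num
      have e3 : ((v ^ (-(3 / 2) : ℝ) : ℝ) : ℂ) * (v : ℂ) = ((√v : ℝ) : ℂ)⁻¹ := by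
        rw [← Complex.ofReal_mul, e2, Complex.ofReal_inv]
      calc ((v ^ (-(3 / 2) : ℝ) : ℝ) : ℂ) * exp (-(t ^ 2 / (4 * v))) *
            (-(v : ℂ) * Complex.exp (-((x : ℂ) * v))) =
            -(((v ^ (-(3 / 2) : ℝ) : ℝ) : ℂ) * (v : ℂ)) * exp (-(t ^ 2 / (4 * v))) *
              Complex.exp (-((x : ℂ) * v)) := by ring
        _ = _ := by
            rw [e3]
            push_cast
            field_simp
    · rw [indicator_of_notMem hv, indicator_of_notMem hv, zero_mul]
  rw [e1] at huniq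
  have e4 : (2 * √Real.pi / t : ℂ) * (exp (-(t * √x)) * -(t * ((1 / (2 * √x) : ℝ) : ℂ))) =
      -(√Real.pi : ℂ) * (exp (-(√x * t)) / (√x : ℝ)) := by
    push_cast
    rw [mul_comm t (√x : ℂ)]
    field_simp
  rw [e4] at huniq
  exact mul_left_cancel₀ (neg_ne_zero.2 hpc) huniq

/-! ### the Laplace transform of the Gaussian sum -/

/-- the Gaussian sum as a function on the line, `v = 1/t` -/
noncomputable def gv (lam c : ℕ → ℝ) (d : ℂ) (v : ℝ) : ℂ := gs lam c (d ^ 2 / v)

theorem Dir.sq_re (h : Dir d) : (d ^ 2).re = d.re ^ 2 - d.im ^ 2 := by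
  rw [sq, Complex.mul_re]
  ring

theorem Dir.sq_re_pos (h : Dir d) : 0 < (d ^ 2).re := by rw [h.sq_re]; exact h.C_pos

theorem div_re (d : ℂ) {v : ℝ} : (d ^ 2 / v).re = (d ^ 2).re / v := by
  rw [Complex.div_ofReal_re]

theorem Dat.gs_diff (D : Dat lam c G Φ) : DifferentiableOn ℂ (gs lam c) {s | 0 < s.re} := by
  intro s hs
  have hs0 : 0 < s.re := hs
  have h1 : DifferentiableOn ℂ (gs lam c) {z | s.re / 2 < z.re} := by
    unfold gs
    refine differentiableOn_tsum_of_summable_norm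
      (u := fun i => Real.exp (1 / (s.re / 2)) * (|c i| * Real.exp (-(2 * lam i))))
      (D.sum.mul_left _) (fun i => by fun_prop)
      (isOpen_lt continuous_const Complex.continuous_re) fun i z hz => ?_
    have hz' : s.re / 2 < z.re := hz
    rw [norm_gs_term]
    calc |c i| * Real.exp (-(z.re * lam i ^ 2)) ≤ |c i| * Real.exp (-(s.re / 2 * lam i ^ 2)) := by
          gcongr
      _ ≤ |c i| * (Real.exp (1 / (s.re / 2)) * Real.exp (-(2 * lam i))) :=
          mul_le_mul_of_nonneg_left (exp_sq_le (by linarith)) (abs_nonneg _)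
      _ = _ := by ring
  have h2 : s ∈ {z : ℂ | s.re / 2 < z.re} := by show s.re / 2 < s.re; linarith
  exact (h1.differentiableAt ((isOpen_lt continuous_const Complex.continuous_re).mem_nhds
    h2)).differentiableWithinAt

theorem Dat.gv_cont (D : Dat lam c G Φ) (h : Dir d) : ContinuousOn (gv lam c d) (Ioi 0) := by
  unfold gv
  refine D.gs_diff.continuousOn.comp ?_ ?_
  · refine ContinuousOn.div continuousOn_const (by fun_prop) fun v hv => ?_
    have : (v : ℝ) ≠ 0 := (ne_of_gt hv)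
    exact_mod_cast this
  · intro v hv
    have hv0 : 0 < v := hv
    show 0 < (d ^ 2 / (v : ℂ)).re
    rw [div_re]
    exact div_pos h.sq_re_pos hv0

/-- the function whose Laplace transform is taken -/
noncomputable def kv (lam c : ℕ → ℝ) (d : ℂ) : ℝ → ℂ :=
  (Ioi (0:ℝ)).indicator fun v => gv lam c d v / (√(Real.pi * v) : ℝ)

theorem kv_meas (D : Dat lam c G Φ) (h : Dir d) : Measurable (kv lam c d) := by
  have h1 : ContinuousOn (fun v : ℝ => gv lam c d v / (√(Real.pi * v) : ℝ)) (Ioi 0) := by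
    refine (D.gv_cont h).div (by fun_prop) fun v hv => ?_
    have hv0 : 0 < v := hv
    have : √(Real.pi * v) ≠ 0 := (Real.sqrt_pos.2 (mul_pos Real.pi_pos hv0)).ne'
    exact_mod_cast this
  have h2 := h1.measurable_piecewise (continuousOn_const (c := (0:ℂ)) (s := (Ioi (0:ℝ))ᶜ))
    measurableSet_Ioi
  unfold kv
  rw [← Set.piecewise_eq_indicator]
  exact h2

/-- crude bound for the Gaussian sum -/
theorem Dat.gv_le (D : Dat lam c G Φ) (h : Dir d) {l₀ : ℝ} (hl : ∀ i, c i ≠ 0 → l₀ ≤ lam i)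
    (hl0 : 0 < l₀) {v : ℝ} (hv : 0 < v) :
    ‖gv lam c d v‖ ≤ Real.exp (-((d ^ 2).re * l₀ ^ 2 / (2 * v))) *
      (Real.exp (2 * v / (d ^ 2).re) * ∑' i, |c i| * Real.exp (-(2 * lam i))) := by
  have hC := h.sq_re_pos
  unfold gv gs
  rw [← tsum_mul_left, ← tsum_mul_left]
  refine tsum_of_norm_bounded ((D.sum.mul_left _).mul_left _).hasSum fun i => ?_
  rw [norm_gs_term, div_re]
  by_cases hc : c i = 0
  · rw [hc, abs_zero]
    simp
  · have h1 := hl i hc
    have h2 : l₀ ^ 2 ≤ lam i ^ 2 := pow_le_pow_left₀ hl0.le h1 2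
    have e : -((d ^ 2).re / v * lam i ^ 2) = -((d ^ 2).re / (2 * v) * lam i ^ 2) +
        -((d ^ 2).re / (2 * v) * lam i ^ 2) := by
      field_simp
      ring
    rw [e, Real.exp_add]
    have h3 : Real.exp (-((d ^ 2).re / (2 * v) * lam i ^ 2)) ≤
        Real.exp (-((d ^ 2).re * l₀ ^ 2 / (2 * v))) := by
      apply Real.exp_le_exp.2
      have : (d ^ 2).re / (2 * v) * l₀ ^ 2 ≤ (d ^ 2).re / (2 * v) * lam i ^ 2 := by gcongr
      have e2 : (d ^ 2).re * l₀ ^ 2 / (2 * v) = (d ^ 2).re / (2 * v) * l₀ ^ 2 := by ring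
      linarith
    have h4 := exp_sq_le (σ := (d ^ 2).re / (2 * v)) (x := lam i) (by positivity)
    have e3 : 1 / ((d ^ 2).re / (2 * v)) = 2 * v / (d ^ 2).re := by
      rw [one_div_div]
    rw [e3] at h4
    calc |c i| * (Real.exp (-((d ^ 2).re / (2 * v) * lam i ^ 2)) *
        Real.exp (-((d ^ 2).re / (2 * v) * lam i ^ 2))) ≤
        |c i| * (Real.exp (-((d ^ 2).re * l₀ ^ 2 / (2 * v))) *
          (Real.exp (2 * v / (d ^ 2).re) * Real.exp (-(2 * lam i)))) := by gcongr
      _ = _ := by ring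

theorem exp_neg_div_le {a v : ℝ} (ha : 0 < a) (hv : 0 < v) (hv1 : v ≤ 1) :
    Real.exp (-(a / v)) / √v ≤ 1 / a := by
  have h1 : a / v ≤ Real.exp (a / v) := by
    have := Real.add_one_le_exp (a / v)
    linarith
  have h2 : v ≤ √v := by
    rw [Real.le_sqrt' hv]
    nlinarith
  have hs : 0 < √v := Real.sqrt_pos.2 hv
  have h3 := Real.exp_pos (a / v)
  rw [Real.exp_neg, inv_eq_one_div, div_div, div_le_div_iff₀ (by positivity) ha]
  have h4 : a ≤ Real.exp (a / v) * v := by rwa [div_le_iff₀ hv] at h1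
  calc 1 * a ≤ Real.exp (a / v) * v := by linarith
    _ ≤ Real.exp (a / v) * √v := by gcongr
    _ = _ := by ring

/-- the function is nice if the Gaussian sum is bounded -/
theorem kv_nice (D : Dat lam c G Φ) (h : Dir d) {l₀ : ℝ} (hl : ∀ i, c i ≠ 0 → l₀ ≤ lam i)
    (hl0 : 0 < l₀) {C a : ℝ} (ha : 0 ≤ a) (hb : ∀ v : ℝ, 1 ≤ v → ‖gv lam c d v‖ ≤ C * Real.exp (a * v)) :
    ∃ C' : ℝ, Nice (kv lam c d) C' a 0 := by
  have hC := h.sq_re_pos
  set M : ℝ := ∑' i, |c i| * Real.exp (-(2 * lam i)) with hM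
  have hM0 : 0 ≤ M := tsum_nonneg fun i => by positivity
  set K : ℝ := 1 / ((d ^ 2).re * l₀ ^ 2 / 2) * (Real.exp (2 / (d ^ 2).re) * M) with hK
  have hK0 : 0 ≤ K := by positivity
  have hC0 : 0 ≤ C := by
    have h1 := (norm_nonneg _).trans (hb 1 le_rfl)
    by_contra hc
    push Not at hc
    have := mul_neg_of_neg_of_pos hc (Real.exp_pos (a * 1))
    linarith
  refine ⟨K + C, kv_meas D h, fun v => ?_, fun v hv => ?_⟩
  · unfold kv
    by_cases hv : v ∈ Ioi (0:ℝ)
    · have hv0 : 0 < v := hv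
      rw [indicator_of_mem hv, norm_div, Complex.norm_real, Real.norm_eq_abs,
        abs_of_nonneg (Real.sqrt_nonneg _)]
      have hea : 1 ≤ Real.exp (a * v) := Real.one_le_exp (by positivity)
      have hsv : 0 < √v := Real.sqrt_pos.2 hv0
      have hpi : √v ≤ √(Real.pi * v) := by
        apply Real.sqrt_le_sqrt
        have := Real.pi_gt_three
        nlinarith
      rcases le_total v 1 with h1 | h1
      · have h2 := D.gv_le h hl hl0 hv0
        have e1 : (d ^ 2).re * l₀ ^ 2 / (2 * v) = ((d ^ 2).re * l₀ ^ 2 / 2) / v := by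
          field_simp
        rw [e1] at h2
        have h3 := exp_neg_div_le (a := (d ^ 2).re * l₀ ^ 2 / 2) (by positivity) hv0 h1
        have h4 : Real.exp (2 * v / (d ^ 2).re) ≤ Real.exp (2 / (d ^ 2).re) := by
          apply Real.exp_le_exp.2
          gcongr
          linarith
        calc ‖gv lam c d v‖ / √(Real.pi * v) ≤ ‖gv lam c d v‖ / √v := by gcongr
          _ ≤ (Real.exp (-((d ^ 2).re * l₀ ^ 2 / 2 / v)) *
              (Real.exp (2 * v / (d ^ 2).re) * M)) / √v := by gcongr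
          _ = (Real.exp (-((d ^ 2).re * l₀ ^ 2 / 2 / v)) / √v) *
              (Real.exp (2 * v / (d ^ 2).re) * M) := by ring
          _ ≤ (1 / ((d ^ 2).re * l₀ ^ 2 / 2)) * (Real.exp (2 / (d ^ 2).re) * M) := by gcongr
          _ = K * 1 := by rw [hK, mul_one]
          _ ≤ K * Real.exp (a * v) := by gcongr
          _ ≤ (K + C) * Real.exp (a * v) := by gcongr; linarith
      · have h2 := hb v h1
        have h3 : 1 ≤ √(Real.pi * v) := by
          rw [Real.one_le_sqrt]
          have := Real.pi_gt_three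
          nlinarith
        calc ‖gv lam c d v‖ / √(Real.pi * v) ≤ ‖gv lam c d v‖ := div_le_self (norm_nonneg _) h3
          _ ≤ C * Real.exp (a * v) := h2
          _ ≤ (K + C) * Real.exp (a * v) := by gcongr; linarith
    · rw [indicator_of_notMem hv, norm_zero]
      positivity
  · unfold kv
    rw [indicator_of_notMem]
    simpa using hv.le

/-- the Laplace transform at large real points is the Dirichlet series -/
theorem lap_kv (D : Dat lam c G Φ) (h : Dir d) {l₀ : ℝ} (hl : ∀ i, c i ≠ 0 → l₀ ≤ lam i)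
    (hl0 : 0 < l₀) {q : ℝ} (hq : 0 < q) (hq1 : 1 ≤ q * (d ^ 2).re) :
    Lap (kv lam c d) q = ser lam c (2 * √q * d) / (√q : ℝ) := by
  have hC := h.sq_re_pos
  have hsq : 0 < √q := Real.sqrt_pos.2 hq
  have hsC : 0 < √(d ^ 2).re := Real.sqrt_pos.2 hC
  have hprod : 1 ≤ √q * √(d ^ 2).re := by
    rw [← Real.sqrt_mul hq.le, Real.one_le_sqrt]
    exact hq1
  set F : ℕ → ℝ → ℂ := fun i v =>
    (c i : ℂ) * (exp (-((2 * d * lam i) ^ 2 / (4 * v))) / (√(Real.pi * v) : ℝ) * exp (-(q * v))) with hF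
  have hnorm : ∀ i v, 0 < v → ‖F i v‖ = |c i| * (gker (2 * √(d ^ 2).re * lam i) v *
      Real.exp (-(q * v))) := by
    intro i v hv
    rw [hF]
    simp only
    rw [norm_mul, norm_mul, norm_div, Complex.norm_real, Complex.norm_real, Real.norm_eq_abs,
      Real.norm_eq_abs, abs_of_nonneg (Real.sqrt_nonneg _), Complex.norm_exp, Complex.norm_exp]
    unfold gker
    congr 3
    · have e1 : ((2 * d * lam i) ^ 2 / (4 * (v : ℂ))) = d ^ 2 * ((lam i ^ 2 / v : ℝ) : ℂ) := by
        have : (v : ℂ) ≠ 0 := by exact_mod_cast hv.ne'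
        push_cast
        field_simp
        ring
      rw [e1, Complex.neg_re, Complex.re_mul_ofReal, mul_pow, mul_pow, Real.sq_sqrt hC.le]
      field_simp
      ring
    · congr 1
      simp
  have hmeas : ∀ i, Measurable (F i) := by
    intro i
    rw [hF]
    fun_prop
  have hgk : ∀ i, c i ≠ 0 → IntegrableOn (fun v : ℝ => gker (2 * √(d ^ 2).re * lam i) v *
      Real.exp (-(q * v))) (Ioi 0) ∧
      ∫ v in Ioi (0:ℝ), gker (2 * √(d ^ 2).re * lam i) v * Real.exp (-(q * v)) =
        Real.exp (-(√q * (2 * √(d ^ 2).re * lam i))) / √q := by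
    intro i hi
    have hli : 0 < lam i := hl0.trans_le (hl i hi)
    exact lap_gker_real (by positivity) hq
  have hint : ∀ i, Integrable (F i) (volume.restrict (Ioi (0:ℝ))) := by
    intro i
    by_cases hi : c i = 0
    · have : F i = fun _ => 0 := by
        funext v
        rw [hF]
        simp only
        rw [hi]
        simp
      rw [this]
      exact integrable_zero _ _ _
    · refine Integrable.mono' ((hgk i hi).1.const_mul |c i|) (hmeas i).aestronglyMeasurable ?_
      refine (ae_restrict_iff' measurableSet_Ioi).2 (Eventually.of_forall fun v hv => ?_)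
      exact (hnorm i v hv).le
  have hval : ∀ i, ∫ v in Ioi (0:ℝ), ‖F i v‖ ≤ |c i| * Real.exp (-(2 * lam i)) / √q := by
    intro i
    have e0 : ∫ v in Ioi (0:ℝ), ‖F i v‖ =
        ∫ v in Ioi (0:ℝ), |c i| * (gker (2 * √(d ^ 2).re * lam i) v * Real.exp (-(q * v))) :=
      setIntegral_congr_fun measurableSet_Ioi fun v hv => hnorm i v hv
    rw [e0, integral_const_mul]
    by_cases hi : c i = 0
    · rw [hi, abs_zero]
      simp
    · rw [(hgk i hi).2, mul_div_assoc]
      refine mul_le_mul_of_nonneg_left ?_ (abs_nonneg _)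
      refine div_le_div_of_nonneg_right (Real.exp_le_exp.2 ?_) hsq.le
      have h1 := D.lam_pos i
      have h2 : 1 * (2 * lam i) ≤ (√q * √(d ^ 2).re) * (2 * lam i) := by gcongr
      have e1 : √q * (2 * √(d ^ 2).re * lam i) = (√q * √(d ^ 2).re) * (2 * lam i) := by ring
      rw [e1]
      linarith
  have hsum : Summable fun i => ∫ v in Ioi (0:ℝ), ‖F i v‖ :=
    Summable.of_nonneg_of_le (fun i => integral_nonneg fun v => norm_nonneg _) hval
      (D.sum.div_const _)
  have hS := hasSum_integral_of_summable_integral_norm hint hsum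
  -- the values of the integrals
  have hFi : ∀ i, ∫ v in Ioi (0:ℝ), F i v =
      ((c i : ℂ) * exp (-((2 * √q * d) * lam i))) / (√q : ℝ) := by
    intro i
    by_cases hi : c i = 0
    · rw [hF]
      simp only
      rw [hi]
      simp
    · have hli : 0 < lam i := hl0.trans_le (hl i hi)
      rw [hF]
      simp only
      rw [integral_const_mul]
      have ht : 0 < (2 * d * (lam i : ℂ)).re := by
        rw [Complex.re_mul_ofReal]
        have : (2 * d).re = 2 * d.re := by simp
        rw [this]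
        have := h.re_pos
        positivity
      have ht2 : 0 < ((2 * d * (lam i : ℂ)) ^ 2).re := by
        have e1 : (2 * d * (lam i : ℂ)) ^ 2 = d ^ 2 * ((4 * lam i ^ 2 : ℝ) : ℂ) := by
          push_cast; ring
        rw [e1, Complex.re_mul_ofReal]
        positivity
      rw [lap_cplx ht ht2 hq, mul_div_assoc]
      congr 3
      ring
  have e2 : ∫ v in Ioi (0:ℝ), ∑' i, F i v = Lap (kv lam c d) q := by
    unfold Lap kv
    rw [← integral_indicator measurableSet_Ioi]
    congr 1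
    funext v
    by_cases hv : v ∈ Ioi (0:ℝ)
    · have hv0 : 0 < v := hv
      have hvc : (v : ℂ) ≠ 0 := by exact_mod_cast hv0.ne'
      rw [indicator_of_mem hv, indicator_of_mem hv]
      unfold gv gs
      rw [div_mul_eq_mul_div, ← tsum_mul_right, ← tsum_div_const]
      refine tsum_congr fun i => ?_
      rw [hF]
      simp only
      have e3 : (2 * d * (lam i : ℂ)) ^ 2 / (4 * v) = d ^ 2 / v * (lam i) ^ 2 := by
        field_simp
        ring
      rw [e3]
      ring
    · rw [indicator_of_notMem hv, indicator_of_notMem hv, zero_mul]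
  rw [← e2, ← hS.tsum_eq]
  unfold ser
  rw [← tsum_div_const]
  exact tsum_congr fun i => hFi i

theorem freq_of_real {f g : ℂ → ℂ} {x₀ : ℝ} (h : ∀ x : ℝ, x₀ < x → f x = g x) :
    ∃ᶠ z in 𝓝[≠] ((x₀ + 1 : ℝ) : ℂ), f z = g z := by
  have h1 : Tendsto (fun x : ℝ => (x : ℂ)) (𝓝[≠] (x₀ + 1)) (𝓝[≠] ((x₀ + 1 : ℝ) : ℂ)) := by
    rw [tendsto_nhdsWithin_iff]
    refine ⟨(Complex.continuous_ofReal.tendsto _).mono_left nhdsWithin_le_nhds, ?_⟩
    filter_upwards [self_mem_nhdsWithin] with x hx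
    intro h'
    have h'' : (x : ℂ) = ((x₀ + 1 : ℝ) : ℂ) := h'
    exact hx (Complex.ofReal_injective h'')
  have h2 : ∀ᶠ x : ℝ in 𝓝[≠] (x₀ + 1), f x = g x := by
    have h3 : ∀ᶠ x : ℝ in 𝓝 (x₀ + 1), x₀ < x := lt_mem_nhds (by linarith)
    filter_upwards [h3.filter_mono nhdsWithin_le_nhds] with x hx using h x hx
  exact h1.frequently h2.frequently

theorem csq_diff {q : ℂ} (hq : 0 < q.re) : DifferentiableAt ℂ csq q := by
  unfold csq
  exact differentiableAt_id.cpow_const (Or.inl hq)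

theorem csq_mem (h : Dir d) {a : ℝ} (ha : 0 ≤ a) {q : ℂ} (hq : a < q.re) :
    0 < (d * (2 * csq q)).re := by
  have hq0 : 0 < q.re := by linarith
  refine Hy.re_pos h (κ := 0) le_rfl ⟨?_, ?_⟩
  · have := csq_re_pos hq0
    simpa using this
  · have h1 : (csq q ^ 2).re = q.re := by rw [csq_sq]
    rw [sq, Complex.mul_re] at h1
    have e1 : (2 * csq q).re = 2 * (csq q).re := by simp
    have e2 : (2 * csq q).im = 2 * (csq q).im := by simp
    rw [e1, e2]
    nlinarith

/-- **The identity behind the converse.** -/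
theorem conv_identity (D : Dat lam c G Φ) (h : Dir d) {l₀ : ℝ} (hl : ∀ i, c i ≠ 0 → l₀ ≤ lam i)
    (hl0 : 0 < l₀) {a : ℝ} (ha : 0 ≤ a)
    (hN : ∀ ε : ℝ, 0 < ε → ∃ C : ℝ, Nice (kv lam c d) C (a + ε) 0) {q : ℂ} (hq : a < q.re) :
    Φ (d * (2 * csq q)) = exp (G (d * (2 * csq q)) - csq q * Lap (kv lam c d) q) := by
  have hop : IsOpen {q : ℂ | a < q.re} := isOpen_lt continuous_const Complex.continuous_re
  have hd1 : DifferentiableOn ℂ (fun q => Φ (d * (2 * csq q))) {q : ℂ | a < q.re} := by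
    intro q hq
    have hq0 : 0 < q.re := lt_of_le_of_lt ha hq
    refine DifferentiableAt.differentiableWithinAt ?_
    exact DifferentiableAt.comp (g := Φ) (f := fun q : ℂ => d * (2 * csq q)) q D.Φd.differentiableAt
      (((csq_diff hq0).const_mul 2).const_mul d)
  have hd2 : DifferentiableOn ℂ (fun q => exp (G (d * (2 * csq q)) - csq q * Lap (kv lam c d) q))
      {q : ℂ | a < q.re} := by
    intro q hq
    have hq' : a < q.re := hq
    have hq0 : 0 < q.re := lt_of_le_of_lt ha hq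
    refine DifferentiableAt.differentiableWithinAt ?_
    obtain ⟨C, hC⟩ := hN ((q.re - a) / 2) (by linarith)
    have h1 : DifferentiableAt ℂ (Lap (kv lam c d)) q := hC.Lap_differentiableAt (by linarith)
    have h2 : DifferentiableAt ℂ (fun q => G (d * (2 * csq q))) q :=
      DifferentiableAt.comp (g := G) (f := fun q : ℂ => d * (2 * csq q)) q
        (D.Gd _ (csq_mem h ha hq')) (((csq_diff hq0).const_mul 2).const_mul d)
    exact (h2.sub ((csq_diff hq0).mul h1)).cexp
  have hC := h.sq_re_pos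
  have hdre := h.re_pos
  set x₀ : ℝ := a + 1 / (d ^ 2).re + 1 / d.re ^ 2 with hx₀
  have hx00 : 0 < x₀ := by positivity
  have hfreq := freq_of_real (f := fun q => Φ (d * (2 * csq q)))
    (g := fun q => exp (G (d * (2 * csq q)) - csq q * Lap (kv lam c d) q)) (x₀ := x₀) (by
      intro x hx
      have hx0 : 0 < x := by linarith
      have h1 : 1 ≤ x * (d ^ 2).re := by
        have h2 : 1 / (d ^ 2).re ≤ x := by
          have : 0 < 1 / d.re ^ 2 := by positivity
          linarith
        rwa [div_le_iff₀ hC] at h2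
      have hsx : 0 < √x := Real.sqrt_pos.2 hx0
      have hsxc : ((√x : ℝ) : ℂ) ≠ 0 := by exact_mod_cast hsx.ne'
      rw [lap_kv D h hl hl0 hx0 h1, csq_ofReal hx0.le, mul_div_assoc', mul_comm (√x : ℂ) (ser _ _ _),
        mul_div_assoc, div_self hsxc, mul_one, mul_comm (2 * (√x : ℂ)) d]
      refine (D.eq _ ?_).symm
      have e : (d * (2 * (√x : ℂ))).re = 2 * √x * d.re := by
        have : d * (2 * (√x : ℂ)) = d * ((2 * √x : ℝ) : ℂ) := by push_cast; ring
        rw [this, Complex.re_mul_ofReal]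
        ring
      rw [e]
      have h3 : 1 < √x * d.re := by
        have h4 : 1 / d.re < √x := by
          rw [Real.lt_sqrt (by positivity), div_pow, one_pow]
          have : 0 < 1 / (d ^ 2).re := by positivity
          linarith
        rwa [div_lt_iff₀ hdre] at h4
      linarith)
  have hmem : ((x₀ + 1 : ℝ) : ℂ) ∈ {q : ℂ | a < q.re} := by
    show a < ((x₀ + 1 : ℝ) : ℂ).re
    rw [Complex.ofReal_re]
    have : 0 < 1 / (d ^ 2).re := by positivity
    have : 0 < 1 / d.re ^ 2 := by positivity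
    linarith
  exact (hd1.analyticOnNhd hop).eqOn_of_preconnected_of_frequently_eq (hd2.analyticOnNhd hop)
    (Pool.Agent.W334.BSD.halfplane_preconnected a) hmem hfreq hq

/-- **The converse.** A bound for the Gaussian sums excludes zeros. -/
theorem converse (D : Dat lam c G Φ) (h : Dir d) {l₀ : ℝ} (hl : ∀ i, c i ≠ 0 → l₀ ≤ lam i)
    (hl0 : 0 < l₀) {κ : ℝ} (hκ : 0 ≤ κ)
    (hb : ∀ ε : ℝ, 0 < ε → ∃ C : ℝ, ∀ v : ℝ, 1 ≤ v → ‖gv lam c d v‖ ≤ C * Real.exp ((κ / 4 + ε) * v)) :
    ∀ z ∈ Hy κ, Φ (d * z) ≠ 0 := by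
  intro z hz
  have hid := conv_identity D h hl hl0 (a := κ / 4) (by positivity) (fun ε hε => by
    obtain ⟨C, hC⟩ := hb ε hε
    exact kv_nice D h hl hl0 (by positivity) hC) (q := z ^ 2 / 4) (by
      have e : (z ^ 2 / 4).re = (z.re ^ 2 - z.im ^ 2) / 4 := by
        have : z ^ 2 / 4 = z ^ 2 * ((1 / 4 : ℝ) : ℂ) := by push_cast; ring
        rw [this, Complex.re_mul_ofReal, sq, Complex.mul_re]
        ring
      rw [e]
      have := hz.2
      linarith)
  have e : 2 * csq (z ^ 2 / 4) = z := by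
    have h1 : (z ^ 2 / 4) = (z / 2) ^ 2 := by ring
    have h2 : csq ((z / 2) ^ 2) = z / 2 := by
      unfold csq
      rw [one_div]
      refine Complex.sq_cpow_two_inv ?_
      have : (z / 2).re = z.re / 2 := by simp
      rw [this]
      have := hz.1
      linarith
    rw [h1, h2]
    ring
  rw [e] at hid
  rw [hid]
  exact Complex.exp_ne_zero _

end Pool.Agent.D0H40.GC
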