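import Pool.Agent.D0H40.GC.Frul
import Pool.Agent.D0H40.GC.Conv

/-! The explicit formula with finitely many zeros. -/

set_option autoImplicit false

namespace Pool.Agent.D0H40.GC

open Complex MeasureTheory Filter Topology Set
open Pool.Agent.W189.ML (ser)
open scoped ComplexConjugate

variable {lam c : ℕ → ℝ} {G Φ : ℂ → ℂ} {d : ℂ}

/-- the Dirichlet series plus the logarithms of the zeros -/
noncomputable def S1 (lam c : ℕ → ℝ) (Z : Finset ℂ) (n : ℂ → ℕ) (w : ℂ) : ℂ :=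
  ser lam c w + ∑ b ∈ Z, (n b : ℂ) * (log (w - b) - log w)

theorem dat_S1 (D : Dat lam c G Φ) {m : ℕ} (Z : Finset ℂ) (n : ℂ → ℕ) {Q₀ : ℂ → ℂ}
    (hQa : Differentiable ℂ Q₀)
    (hQ : ∀ w, Φ w = w ^ m * (∏ b ∈ Z, (w - b) ^ n b) * Q₀ w) (hZ : ∀ b ∈ Z, b.re ≤ 2) :
    Dat2 (S1 lam c Z n) G (fun w => w ^ (m + ∑ b ∈ Z, n b) * Q₀ w) where
  Sd := by
    unfold S1
    refine D.ser_diff.add ?_
    refine DifferentiableOn.fun_sum fun b hb => ?_
    refine (DifferentiableOn.sub ?_ ?_).const_mul _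
    · intro w hw
      have hw' : 2 < w.re := hw
      have h1 : w - b ∈ slitPlane := slit_of_re (by simp; linarith [hZ b hb])
      exact (DifferentiableAt.clog (f := fun w : ℂ => w - b) (x := w) (by fun_prop) h1).differentiableWithinAt
    · intro w hw
      have hw' : 2 < w.re := hw
      exact (differentiableAt_log (slit_of_re (by linarith))).differentiableWithinAt
  Sb := by
    obtain ⟨M, hM0, hM⟩ := D.two.Sb
    refine ⟨M + ∑ b ∈ Z, (n b : ℝ) * ‖b‖, by positivity, fun w hw => ?_⟩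
    unfold S1
    refine (norm_add_le _ _).trans (add_le_add (hM w hw) ?_)
    refine (norm_sum_le _ _).trans (Finset.sum_le_sum fun b hb => ?_)
    rw [norm_mul, Complex.norm_natCast]
    exact mul_le_mul_of_nonneg_left (norm_log_sub_le (hZ b hb) hw) (Nat.cast_nonneg _)
  Gd := D.Gd
  Gb := D.Gb
  Φd := by fun_prop
  eq := by
    intro w hw
    have hw0 : w ≠ 0 := by
      rintro rfl
      simp at hw
      linarith
    have hwb : ∀ b ∈ Z, w - b ≠ 0 := by
      intro b hb h0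
      have := congrArg Complex.re h0
      simp at this
      linarith [hZ b hb]
    unfold S1
    have e1 : G w - (ser lam c w + ∑ b ∈ Z, (n b : ℂ) * (log (w - b) - log w)) =
        (G w - ser lam c w) + ∑ b ∈ Z, (n b : ℂ) * (log w - log (w - b)) := by
      rw [← sub_sub, sub_eq_add_neg _ (∑ b ∈ Z, _), ← Finset.sum_neg_distrib]
      congr 1
      refine Finset.sum_congr rfl fun b _ => ?_
      ring
    rw [e1, Complex.exp_add, D.eq w hw, hQ w, Complex.exp_sum]
    have e2 : ∀ b ∈ Z, exp ((n b : ℂ) * (log w - log (w - b))) = w ^ n b / (w - b) ^ n b := by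
      intro b hb
      rw [Complex.exp_nat_mul, Complex.exp_sub, Complex.exp_log hw0, Complex.exp_log (hwb b hb),
        div_pow]
    rw [Finset.prod_congr rfl e2, Finset.prod_div_distrib, pow_add, ← Finset.prod_pow_eq_pow_sum]
    have h3 : ∏ b ∈ Z, (w - b) ^ n b ≠ 0 := Finset.prod_ne_zero_iff.2 fun b hb => pow_ne_zero _ (hwb b hb)
    field_simp

/-- **The explicit formula**, abstract form. -/
theorem expl (h : Dir d) (D : Dat lam c G Φ) {m : ℕ} (Z : Finset ℂ) (n : ℂ → ℕ) {Q₀ : ℂ → ℂ}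
    (hQa : Differentiable ℂ Q₀)
    (hQ : ∀ w, Φ w = w ^ m * (∏ b ∈ Z, (w - b) ^ n b) * Q₀ w) (hZ : ∀ b ∈ Z, b.re ≤ 2)
    (hQ0 : ∀ z : ℂ, |z.im| ≤ z.re → Q₀ (d * z) ≠ 0) :
    ∃ C : ℝ, ∀ r : ℝ, 1 ≤ r → ‖gs lam c (d ^ 2 / (4 * r)) -
      (((m + ∑ b ∈ Z, n b : ℕ) : ℂ) * (Real.log √r : ℝ) +
        ∑ b ∈ Z, (n b : ℂ) * Aint b (d ^ 2 / (4 * r)))‖ ≤ C := by
  have D1 := dat_S1 D Z n hQa hQ hZ
  set N : ℕ := m + ∑ b ∈ Z, n b with hN
  have hd0 := h.ne
  obtain ⟨C, hC⟩ := law h D1 (m := N) (Q := fun z => d ^ N * Q₀ (d * z))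
    (fun z => by
      have : Differentiable ℂ fun z => d ^ N * Q₀ (d * z) := by fun_prop
      exact this.analyticAt z)
    (fun z _ => by
      rw [mul_pow]
      ring)
    (fun z hz => mul_ne_zero (pow_ne_zero _ hd0) (hQ0 z hz))
  refine ⟨C / √Real.pi, fun r hr => ?_⟩
  have hr0 : 0 < r := by linarith
  have hrc : (r : ℂ) ≠ 0 := by exact_mod_cast hr0.ne'
  set β : ℂ := r * (conj d) ^ 2 with hβ
  have hβre : 0 < β.re := beta_re h hr0
  have hβ0 : β ≠ 0 := by rintro h0; rw [h0] at hβre; simp at hβre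
  have hβn : ‖β‖ = r := by
    rw [hβ, norm_mul, norm_pow, Complex.norm_conj, h.norm_eq, Complex.norm_real, Real.norm_eq_abs,
      abs_of_pos hr0]
    ring
  have hs : 1 / (4 * β) = d ^ 2 / (4 * r) := by
    rw [hβ]
    have hcd : conj d ≠ 0 := by rw [Ne, map_eq_zero]; exact hd0
    rw [div_eq_div_iff (mul_ne_zero (by norm_num) (mul_ne_zero hrc (pow_ne_zero 2 hcd)))
      (mul_ne_zero (by norm_num) hrc)]
    have := h.mul_conj
    have e : d ^ 2 * (4 * (r * conj d ^ 2)) = (d * conj d) ^ 2 * (4 * r) := by ring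
    rw [e, this]
    ring
  have h1 := hC r hr
  set Nn : ℂ := (Real.pi / β) ^ (1 / 2 : ℂ) with hNn
  have h0 : Integrable fun y : ℝ => exp (β * (3 + y * I) ^ 2) := by
    have := kern_int hβre 0
    simpa using this
  -- the integral of `S1`
  have hlogi : ∀ b ∈ Z, Integrable fun y : ℝ =>
      (n b : ℂ) * (exp (β * (3 + y * I) ^ 2) * (log (3 + y * I - b) - log (3 + y * I))) := by
    intro b hb
    refine Integrable.const_mul ?_ _
    refine h0.mul_bdd (c := ‖b‖) ?_ (Eventually.of_forall fun y => norm_log_sub_le (hZ b hb) (by simp))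
    refine Continuous.aestronglyMeasurable ?_
    refine Continuous.sub ?_ ?_
    · refine Continuous.clog (by fun_prop) fun y => slit_of_re ?_
      have := hZ b hb
      simp
      linarith
    · refine Continuous.clog (by fun_prop) fun y => slit_of_re ?_
      simp
  have e1 : ∀ y : ℝ, ig β (S1 lam c Z n) y = ig β (ser lam c) y +
      ∑ b ∈ Z, (n b : ℂ) * (exp (β * (3 + y * I) ^ 2) * (log (3 + y * I - b) - log (3 + y * I))) := by
    intro y
    unfold ig S1
    rw [mul_add, Finset.mul_sum]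
    congr 1
    refine Finset.sum_congr rfl fun b _ => ?_
    ring
  have e2 : ∫ y, ig β (S1 lam c Z n) y = Nn * gs lam c (d ^ 2 / (4 * r)) -
      ∑ b ∈ Z, (n b : ℂ) * (Nn * Aint b (d ^ 2 / (4 * r))) := by
    simp only [e1]
    rw [integral_add (D.ig_int hβre) (integrable_finsetSum _ hlogi), D.gs_eq hβre, hs,
      integral_finsetSum _ hlogi, sub_eq_add_neg, ← Finset.sum_neg_distrib]
    congr 1
    refine Finset.sum_congr rfl fun b hb => ?_
    rw [integral_const_mul]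
    have e3 : ∀ y : ℝ, exp (β * (3 + y * I) ^ 2) * (log (3 + y * I - b) - log (3 + y * I)) =
        -(exp (β * (3 + y * I) ^ 2) * (log (3 + y * I) - log (3 + y * I - b))) := fun y => by ring
    simp only [e3]
    rw [integral_neg, int_log (hZ b hb) hβre, hs]
    ring
  have e4 : ∫ y, (ig β (S1 lam c Z n) y - ((N : ℂ) * (Real.log √r : ℝ)) * exp (β * (3 + y * I) ^ 2)) =
      Nn * (gs lam c (d ^ 2 / (4 * r)) - ((N : ℂ) * (Real.log √r : ℝ) +
        ∑ b ∈ Z, (n b : ℂ) * Aint b (d ^ 2 / (4 * r)))) := by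
    rw [integral_sub (D1.ig_int hβre) (h0.const_mul _), e2, integral_const_mul, int_one hβre, ← hNn]
    rw [mul_sub, mul_add, Finset.mul_sum]
    have e5 : ∑ b ∈ Z, (n b : ℂ) * (Nn * Aint b (d ^ 2 / (4 * r))) =
        ∑ b ∈ Z, Nn * ((n b : ℂ) * Aint b (d ^ 2 / (4 * r))) :=
      Finset.sum_congr rfl fun b _ => by ring
    rw [e5]
    ring
  rw [e4, norm_mul, hNn, norm_norm, hβn, Real.sqrt_div Real.pi_pos.le] at h1
  have hsr : 0 < √r := Real.sqrt_pos.2 hr0
  have hsp : 0 < √Real.pi := Real.sqrt_pos.2 Real.pi_pos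
  rw [le_div_iff₀ hsp]
  have h2 := mul_le_mul_of_nonneg_right h1 hsr.le
  rw [div_mul_cancel₀ _ hsr.ne'] at h2
  calc _ = √Real.pi / √r * ‖gs lam c (d ^ 2 / (4 * r)) - ((N : ℂ) * (Real.log √r : ℝ) +
        ∑ b ∈ Z, (n b : ℂ) * Aint b (d ^ 2 / (4 * r)))‖ * √r := by
        field_simp
    _ ≤ C := h2

end Pool.Agent.D0H40.GC
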