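import Pool.Agent.D0H40.GC.Law2
import Pool.Agent.W189.ML.Sector

/-! Logarithms of quotients as Laplace integrals. -/

set_option autoImplicit false

namespace Pool.Agent.D0H40.GC

open Complex MeasureTheory Filter Topology Set
open Pool.Agent.W189.ML (ser int_exp norm_exp_sub_one_le_of_re)
open scoped ComplexConjugate

/-- `(e^{bu} - 1)/u` -/
noncomputable def hb (b : ℂ) (u : ℝ) : ℂ := (exp (b * u) - 1) / u

theorem norm_exp_sub_one_le (z : ℂ) : ‖exp z - 1‖ ≤ ‖z‖ * Real.exp (max 0 z.re) := by
  rcases le_total z.re 0 with h | h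
  · refine (norm_exp_sub_one_le_of_re h).trans ?_
    exact le_mul_of_one_le_right (norm_nonneg _) (Real.one_le_exp (le_max_left _ _))
  · have e : exp z - 1 = -(exp z * (exp (-z) - 1)) := by
      rw [mul_sub, ← Complex.exp_add, add_neg_cancel, Complex.exp_zero]
      ring
    rw [e, norm_neg, norm_mul, Complex.norm_exp, max_eq_right h, mul_comm]
    refine mul_le_mul_of_nonneg_right ?_ (Real.exp_pos _).le
    have := norm_exp_sub_one_le_of_re (z := -z) (by simpa using h)
    rwa [norm_neg] at this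

theorem hb_le {b : ℂ} {σ : ℝ} (hσ : 0 ≤ σ) (hb' : b.re ≤ σ) {u : ℝ} (hu : 0 < u) :
    ‖hb b u‖ ≤ ‖b‖ * Real.exp (σ * u) := by
  unfold hb
  rw [norm_div, Complex.norm_real, Real.norm_eq_abs, abs_of_pos hu, div_le_iff₀ hu]
  refine (norm_exp_sub_one_le _).trans ?_
  rw [norm_mul, Complex.norm_real, Real.norm_eq_abs, abs_of_pos hu, Complex.re_mul_ofReal]
  have h1 : max 0 (b.re * u) ≤ σ * u := max_le (by positivity) (by gcongr)
  calc ‖b‖ * u * Real.exp (max 0 (b.re * u)) ≤ ‖b‖ * u * Real.exp (σ * u) := by gcongr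
    _ = _ := by ring

theorem hb_meas (b : ℂ) : Measurable (hb b) := by
  unfold hb
  fun_prop

theorem slit_of_re {z : ℂ} (h : 0 < z.re) : z ∈ slitPlane := Or.inl h

/-- **Frullani's integral** -/
theorem frul {b w : ℂ} (h1 : 1 ≤ w.re) (h2 : b.re + 1 ≤ w.re) :
    log w - log (w - b) = ∫ u in Ioi (0:ℝ), exp (-(w * u)) * hb b u := by
  have hre : ∀ x ∈ Icc (0:ℝ) 1, 1 ≤ (w - x * b).re := by
    intro x hx
    have e : (w - x * b).re = w.re - x * b.re := by simp
    rw [e]
    rcases le_total b.re 0 with h | h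
    · have := mul_nonpos_of_nonneg_of_nonpos hx.1 h
      linarith
    · have := mul_le_mul_of_nonneg_right hx.2 h
      linarith
  have e1 : ∫ x in (0 : ℝ)..1, b * (w - x * b)⁻¹ = log w - log (w - b) := by
    have h2 : ∀ x ∈ uIcc (0 : ℝ) 1, HasDerivAt (fun x : ℝ => -log (w - x * b)) (b * (w - x * b)⁻¹) x := by
      intro x hx
      rw [uIcc_of_le zero_le_one] at hx
      have h3 : w - x * b ∈ slitPlane := slit_of_re (by linarith [hre x hx])
      have h4 : HasDerivAt (fun x : ℝ => w - (x : ℂ) * b) (-b) x := by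
        have := ((hasDerivAt_id x).ofReal_comp.mul_const b).const_sub w
        simpa using this
      have h5 := (Complex.hasDerivAt_log h3).comp x h4
      have h6 := h5.neg
      refine h6.congr_deriv ?_
      ring
    have h3 := intervalIntegral.integral_eq_sub_of_hasDerivAt h2 ?_
    · rw [h3]
      simp
      ring
    · refine ContinuousOn.intervalIntegrable ?_
      refine continuousOn_const.mul (ContinuousOn.inv₀ (by fun_prop) fun x hx => ?_)
      rw [uIcc_of_le zero_le_one] at hx
      intro h4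
      have := hre x hx
      rw [h4] at this
      norm_num at this
  rw [← e1, intervalIntegral.integral_of_le zero_le_one]
  have e2 : ∫ x in Ioc (0:ℝ) 1, b * (w - (x : ℂ) * b)⁻¹ =
      ∫ x in Ioc (0:ℝ) 1, ∫ v in Ioi (0 : ℝ), b * exp (-((w - (x : ℂ) * b) * v)) := by
    refine setIntegral_congr_fun measurableSet_Ioc fun x hx => ?_
    have := hre x (Ioc_subset_Icc_self hx)
    rw [integral_const_mul, (int_exp (z := w - x * b) (by linarith)).2]
  rw [e2]
  have hint : Integrable (Function.uncurry fun (x v : ℝ) => b * exp (-((w - (x : ℂ) * b) * v)))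
      ((volume.restrict (Ioc (0:ℝ) 1)).prod (volume.restrict (Ioi (0 : ℝ)))) := by
    have i1 : Integrable (fun _ : ℝ => ‖b‖) (volume.restrict (Ioc (0:ℝ) 1)) :=
      integrableOn_const (by simp) (by simp)
    have i2 : Integrable (fun v : ℝ => Real.exp (-v)) (volume.restrict (Ioi (0 : ℝ))) :=
      integrableOn_exp_neg_Ioi 0
    refine Integrable.mono' (i1.mul_prod i2) ?_ ?_
    · exact (by unfold Function.uncurry; fun_prop : Continuous (Function.uncurry fun (x v : ℝ) =>
        b * exp (-((w - (x : ℂ) * b) * v)))).aestronglyMeasurable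
    · rw [Measure.prod_restrict]
      filter_upwards [ae_restrict_mem (measurableSet_Ioc.prod measurableSet_Ioi)] with q hq
      obtain ⟨hq1, hq2⟩ := hq
      have hq2' : 0 < q.2 := hq2
      simp only [Function.uncurry]
      rw [norm_mul, Complex.norm_exp]
      refine mul_le_mul_of_nonneg_left (Real.exp_le_exp.2 ?_) (norm_nonneg _)
      have h3 : (-((w - (q.1 : ℂ) * b) * q.2)).re = -((w - (q.1 : ℂ) * b).re * q.2) := by
        rw [Complex.neg_re, Complex.re_mul_ofReal]
      rw [h3]
      have := hre q.1 (Ioc_subset_Icc_self hq1)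
      nlinarith
  rw [integral_integral_swap hint]
  refine setIntegral_congr_fun measurableSet_Ioi fun v hv => ?_
  have hv' : 0 < v := hv
  have hvc : (v : ℂ) ≠ 0 := by exact_mod_cast hv'.ne'
  show ∫ x in Ioc (0:ℝ) 1, b * exp (-((w - (x : ℂ) * b) * v)) = exp (-(w * v)) * hb b v
  rw [← intervalIntegral.integral_of_le zero_le_one]
  have h2 : ∀ x ∈ uIcc (0 : ℝ) 1, HasDerivAt (fun x : ℝ => exp (-((w - (x : ℂ) * b) * v)) / v)
      (b * exp (-((w - (x : ℂ) * b) * v))) x := by
    intro x _
    have h4 : HasDerivAt (fun x : ℝ => -((w - (x : ℂ) * b) * v)) (b * v) x := by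
      have := ((((hasDerivAt_id x).ofReal_comp.mul_const b).const_sub w).mul_const (v : ℂ)).fun_neg
      simpa using this
    have h5 := h4.cexp.div_const (v : ℂ)
    refine h5.congr_deriv ?_
    field_simp
  rw [intervalIntegral.integral_eq_sub_of_hasDerivAt h2
    (Continuous.intervalIntegrable (by fun_prop) _ _)]
  unfold hb
  have e3 : exp (-((w - ((1:ℝ) : ℂ) * b) * v)) = exp (-(w * v)) * exp (b * v) := by
    rw [← Complex.exp_add]
    congr 1
    push_cast
    ring
  rw [e3]
  simp only [Complex.ofReal_zero, zero_mul, sub_zero]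
  ring

theorem int_exp_real {σ : ℝ} (hσ : 0 < σ) : IntegrableOn (fun u : ℝ => Real.exp (-(σ * u))) (Ioi 0) ∧
    ∫ u in Ioi (0:ℝ), Real.exp (-(σ * u)) = σ⁻¹ := by
  constructor
  · have := integrableOn_exp_mul_Ioi (a := -σ) (by linarith) 0
    refine this.congr_fun (fun u _ => ?_) measurableSet_Ioi
    simp only [neg_mul]
  · have := integral_exp_mul_Ioi (a := -σ) (by linarith) 0
    simp only [neg_mul] at this
    rw [this]
    simp

/-- the difference of the logarithms on the line -/
theorem norm_log_sub_le {b w : ℂ} (hb2 : b.re ≤ 2) (hw : w.re = 3) :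
    ‖log (w - b) - log w‖ ≤ ‖b‖ := by
  rw [norm_sub_rev, frul (by linarith) (by linarith)]
  have hd : ∀ u ∈ Ioi (0:ℝ), ‖exp (-(w * u)) * hb b u‖ ≤ ‖b‖ * Real.exp (-(1 * u)) := by
    intro u hu
    have hu0 : 0 < u := hu
    rw [norm_mul, Complex.norm_exp, Complex.neg_re, Complex.re_mul_ofReal, hw]
    have h1 := hb_le (by norm_num : (0:ℝ) ≤ 2) hb2 hu0
    calc Real.exp (-(3 * u)) * ‖hb b u‖ ≤ Real.exp (-(3 * u)) * (‖b‖ * Real.exp (2 * u)) := by gcongr
      _ = ‖b‖ * (Real.exp (-(3 * u)) * Real.exp (2 * u)) := by ring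
      _ = _ := by
          rw [← Real.exp_add]
          ring_nf
  obtain ⟨i1, i2⟩ := int_exp_real one_pos
  calc ‖∫ u in Ioi (0:ℝ), exp (-(w * u)) * hb b u‖ ≤ ∫ u in Ioi (0:ℝ), ‖b‖ * Real.exp (-(1 * u)) :=
        norm_integral_le_of_norm_le (i1.const_mul _)
          ((ae_restrict_iff' measurableSet_Ioi).2 (Eventually.of_forall hd))
    _ = ‖b‖ := by rw [integral_const_mul, i2]; ring

/-- the contribution of a zero -/
noncomputable def Aint (b s : ℂ) : ℂ := ∫ u in Ioi (0:ℝ), hb b u * exp (-(s * (u : ℂ) ^ 2))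

/-- the integral of the difference of the logarithms -/
theorem int_log {b : ℂ} (hb2 : b.re ≤ 2) {β : ℂ} (hβ : 0 < β.re) :
    ∫ y : ℝ, exp (β * (3 + y * I) ^ 2) * (log (3 + y * I) - log (3 + y * I - b)) =
      (Real.pi / β) ^ (1 / 2 : ℂ) * Aint b (1 / (4 * β)) := by
  have h0 : Integrable fun y : ℝ => exp (β * (3 + y * I) ^ 2) := by
    have := kern_int hβ 0
    simpa using this
  have e1 : ∀ y : ℝ, exp (β * (3 + y * I) ^ 2) * (log (3 + y * I) - log (3 + y * I - b)) =
      ∫ u in Ioi (0:ℝ), exp (β * (3 + y * I) ^ 2) * (exp (-((3 + y * I) * u)) * hb b u) := by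
    intro y
    rw [frul (by simp) (by simp; linarith), integral_const_mul]
  simp only [e1]
  obtain ⟨i1, -⟩ := int_exp_real one_pos
  have hint : Integrable (Function.uncurry fun (y u : ℝ) =>
      exp (β * (3 + y * I) ^ 2) * (exp (-((3 + y * I) * u)) * hb b u))
      ((volume : Measure ℝ).prod (volume.restrict (Ioi (0 : ℝ)))) := by
    refine Integrable.mono' (h0.norm.mul_prod (i1.const_mul ‖b‖)) ?_ ?_
    · refine Measurable.aestronglyMeasurable ?_
      unfold Function.uncurry
      have := hb_meas b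
      fun_prop
    · have hmem : ∀ᵐ q : ℝ × ℝ ∂((volume : Measure ℝ).prod (volume.restrict (Ioi (0 : ℝ)))),
          q.2 ∈ Ioi (0:ℝ) := by
        have h3 : (volume : Measure ℝ).prod (volume.restrict (Ioi (0 : ℝ))) =
            ((volume : Measure ℝ).prod volume).restrict (univ ×ˢ Ioi (0:ℝ)) := by
          rw [← Measure.prod_restrict, Measure.restrict_univ]
        rw [h3]
        filter_upwards [ae_restrict_mem (MeasurableSet.univ.prod measurableSet_Ioi)] with q hq
        exact hq.2
      filter_upwards [hmem] with q hq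
      have hq0 : 0 < q.2 := hq
      simp only [Function.uncurry]
      rw [norm_mul, norm_mul, Complex.norm_exp (-(_ * _)), Complex.neg_re, Complex.re_mul_ofReal]
      refine mul_le_mul_of_nonneg_left ?_ (norm_nonneg _)
      have h1 := hb_le (by norm_num : (0:ℝ) ≤ 2) hb2 hq0
      have e : (3 + (q.1 : ℂ) * I).re = 3 := by simp
      rw [e]
      calc Real.exp (-(3 * q.2)) * ‖hb b q.2‖ ≤
          Real.exp (-(3 * q.2)) * (‖b‖ * Real.exp (2 * q.2)) := by gcongr
        _ = ‖b‖ * (Real.exp (-(3 * q.2)) * Real.exp (2 * q.2)) := by ring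
        _ = _ := by
            rw [← Real.exp_add]
            ring_nf
  rw [integral_integral_swap hint]
  unfold Aint
  rw [← integral_const_mul]
  refine setIntegral_congr_fun measurableSet_Ioi fun u _ => ?_
  have e2 : ∀ y : ℝ, exp (β * (3 + y * I) ^ 2) * (exp (-((3 + y * I) * u)) * hb b u) =
      (exp (β * (3 + y * I) ^ 2) * exp (-((3 + y * I) * u))) * hb b u := fun y => by ring
  simp only [e2]
  rw [integral_mul_const, kern_integral hβ]
  have : ((u : ℂ)) ^ 2 / (4 * β) = 1 / (4 * β) * (u : ℂ) ^ 2 := by ring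
  rw [this]
  ring

end Pool.Agent.D0H40.GC
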