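import Pool.Agent.D0H40.GC.Kern
import Pool.Agent.W334.BSD.Landau

/-! Geometry of the lines and hyperbolas. -/

set_option autoImplicit false

namespace Pool.Agent.D0H40.GC

open Complex MeasureTheory Filter Topology Set
open Pool.Agent.W189.ML (ser)
open scoped ComplexConjugate

/-- unit vectors `d` with argument between `-π/4` and `π/4` -/
structure Dir (d : ℂ) : Prop where
  n : d.re ^ 2 + d.im ^ 2 = 1
  h : |d.im| < d.re

variable {d : ℂ}

theorem Dir.re_pos (h : Dir d) : 0 < d.re := (abs_nonneg _).trans_lt h.h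

theorem Dir.norm_eq (h : Dir d) : ‖d‖ = 1 := by
  have h1 : ‖d‖ ^ 2 = 1 := by
    rw [← Complex.normSq_eq_norm_sq, Complex.normSq_apply]
    have := h.n
    nlinarith
  have h2 := norm_nonneg d
  nlinarith

theorem Dir.ne (h : Dir d) : d ≠ 0 := by
  intro h0
  have := h.re_pos
  rw [h0] at this
  simp at this

theorem Dir.mul_conj (h : Dir d) : d * conj d = 1 := by
  rw [Complex.mul_conj, Complex.normSq_apply]
  have := h.n
  have e : d.re * d.re + d.im * d.im = 1 := by nlinarith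
  rw [e]
  simp

theorem Dir.conj_mul (h : Dir d) : conj d * d = 1 := by rw [mul_comm]; exact h.mul_conj

/-- the inside of a branch of a hyperbola -/
def Hy (κ : ℝ) : Set ℂ := {z | 0 < z.re ∧ κ < z.re ^ 2 - z.im ^ 2}

theorem Hy_open (κ : ℝ) : IsOpen (Hy κ) :=
  (isOpen_lt continuous_const Complex.continuous_re).inter
    (isOpen_lt continuous_const ((Complex.continuous_re.pow 2).sub (Complex.continuous_im.pow 2)))

theorem Hy_convex {κ : ℝ} (hκ : 0 ≤ κ) : Convex ℝ (Hy κ) := by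
  intro z hz w hw s t hs ht hst
  obtain ⟨hz1, hz2⟩ := hz
  obtain ⟨hw1, hw2⟩ := hw
  have e1 : (s • z + t • w).re = s * z.re + t * w.re := by simp
  have e2 : (s • z + t • w).im = s * z.im + t * w.im := by simp
  show 0 < (s • z + t • w).re ∧ κ < (s • z + t • w).re ^ 2 - (s • z + t • w).im ^ 2
  rw [e1, e2]
  have key : κ < z.re * w.re - z.im * w.im := by
    have h1 : (κ + |z.im| * |w.im|) ^ 2 < (z.re * w.re) ^ 2 := by
      have h2 : 0 ≤ |z.im| := abs_nonneg _
      have h3 : 0 ≤ |w.im| := abs_nonneg _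
      have h4 : z.im ^ 2 = |z.im| ^ 2 := (sq_abs _).symm
      have h5 : w.im ^ 2 = |w.im| ^ 2 := (sq_abs _).symm
      rw [h4] at hz2
      rw [h5] at hw2
      have h6 : (κ + |z.im| ^ 2) * (κ + |w.im| ^ 2) < z.re ^ 2 * w.re ^ 2 := by
        apply mul_lt_mul'' (by linarith) (by linarith) (by positivity) (by positivity)
      have h7 : (κ + |z.im| * |w.im|) ^ 2 ≤ (κ + |z.im| ^ 2) * (κ + |w.im| ^ 2) := by
        nlinarith [mul_nonneg hκ (sq_nonneg (|z.im| - |w.im|))]
      calc _ ≤ _ := h7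
        _ < _ := h6
        _ = _ := by ring
    have h2 : κ + |z.im| * |w.im| < z.re * w.re := by
      have h3 : 0 ≤ κ + |z.im| * |w.im| := by positivity
      exact lt_of_pow_lt_pow_left₀ 2 (by positivity) h1
    have h3 : z.im * w.im ≤ |z.im| * |w.im| := by rw [← abs_mul]; exact le_abs_self _
    linarith
  rcases hs.eq_or_lt with h | h
  · subst h
    have : t = 1 := by linarith
    subst this
    constructor <;> simpa using by assumption
  · rcases ht.eq_or_lt with h' | h'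
    · subst h'
      have : s = 1 := by linarith
      subst this
      constructor <;> simpa using by assumption
    · refine ⟨by positivity, ?_⟩
      have h8 : (s * z.re + t * w.re) ^ 2 - (s * z.im + t * w.im) ^ 2 =
          s ^ 2 * (z.re ^ 2 - z.im ^ 2) + t ^ 2 * (w.re ^ 2 - w.im ^ 2) +
            2 * (s * t) * (z.re * w.re - z.im * w.im) := by ring
      rw [h8]
      have h9 : κ = s ^ 2 * κ + t ^ 2 * κ + 2 * (s * t) * κ := by
        have : (s + t) ^ 2 * κ = κ := by rw [hst]; ring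
        linarith
      have h10 : s ^ 2 * κ < s ^ 2 * (z.re ^ 2 - z.im ^ 2) := by gcongr
      have h11 : t ^ 2 * κ ≤ t ^ 2 * (w.re ^ 2 - w.im ^ 2) := by gcongr
      have h12 : 2 * (s * t) * κ ≤ 2 * (s * t) * (z.re * w.re - z.im * w.im) := by gcongr
      linarith

/-- points of the closed cone are turned into the right half plane -/
theorem Dir.mul_re (d z : ℂ) : (d * z).re = d.re * z.re - d.im * z.im := Complex.mul_re _ _

theorem Dir.pos_of_cone (h : Dir d) {z : ℂ} (h0 : 0 < z.re) (h1 : |z.im| ≤ z.re) : 0 < (d * z).re := by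
  rw [Dir.mul_re]
  have h2 : d.im * z.im ≤ |d.im| * |z.im| := by rw [← abs_mul]; exact le_abs_self _
  have h3 : |d.im| * |z.im| ≤ |d.im| * z.re := mul_le_mul_of_nonneg_left h1 (abs_nonneg _)
  have h4 : |d.im| * z.re < d.re * z.re := mul_lt_mul_of_pos_right h.h h0
  linarith

theorem Hy.abs_im {κ : ℝ} (hκ : 0 ≤ κ) {z : ℂ} (hz : z ∈ Hy κ) : |z.im| < z.re := by
  have h1 : |z.im| ^ 2 < z.re ^ 2 := by
    rw [sq_abs]
    have := hz.2
    linarith
  exact lt_of_pow_lt_pow_left₀ 2 hz.1.le h1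

theorem Hy.re_pos (h : Dir d) {κ : ℝ} (hκ : 0 ≤ κ) {z : ℂ} (hz : z ∈ Hy κ) : 0 < (d * z).re :=
  h.pos_of_cone hz.1 (Hy.abs_im hκ hz).le

/-- points with `Re (d z) > 0` and `z²` in the right half plane are in the cone -/
theorem Dir.re_pos_of (h : Dir d) {z : ℂ} (h1 : 0 < (d * z).re) (h2 : 0 ≤ z.re ^ 2 - z.im ^ 2) :
    0 < z.re := by
  by_contra hc
  push Not at hc
  have h3 : |z.im| ≤ |z.re| := by
    rw [← sq_le_sq]
    linarith
  rw [abs_of_nonpos hc] at h3
  rw [Dir.mul_re] at h1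
  have h4 : -(d.im * z.im) ≤ |d.im| * |z.im| := by rw [← abs_mul]; exact neg_le_abs _
  have h5 : |d.im| * |z.im| ≤ |d.im| * -z.re := mul_le_mul_of_nonneg_left h3 (abs_nonneg _)
  have h6 := h.h
  nlinarith

/-- the point of the vertical line through `3`, turned -/
noncomputable def zt (d : ℂ) (y : ℝ) : ℂ := conj d * (3 + y * I)

theorem zt_re (d : ℂ) (y : ℝ) : (zt d y).re = 3 * d.re + y * d.im := by
  unfold zt
  simp [Complex.mul_re]
  ring

theorem zt_im (d : ℂ) (y : ℝ) : (zt d y).im = y * d.re - 3 * d.im := by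
  unfold zt
  simp [Complex.mul_im]
  ring

theorem Dir.mul_zt (h : Dir d) (y : ℝ) : d * zt d y = 3 + y * I := by
  unfold zt
  rw [← mul_assoc, h.mul_conj, one_mul]

/-- `Re (zt²)` -/
noncomputable def fq (d : ℂ) (y : ℝ) : ℝ := (zt d y).re ^ 2 - (zt d y).im ^ 2

theorem norm_exp_sq (r : ℝ) (z : ℂ) : ‖exp (r * z ^ 2)‖ = Real.exp (r * (z.re ^ 2 - z.im ^ 2)) := by
  rw [Complex.norm_exp, Complex.re_ofReal_mul]
  congr 2
  rw [sq, Complex.mul_re]
  ring

theorem beta_sq (d : ℂ) (r : ℝ) (y : ℝ) :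
    (r * (conj d) ^ 2 : ℂ) * (3 + y * I) ^ 2 = r * (zt d y) ^ 2 := by
  unfold zt
  ring

theorem beta_re (h : Dir d) {r : ℝ} (hr : 0 < r) : 0 < (r * (conj d) ^ 2 : ℂ).re := by
  rw [Complex.re_ofReal_mul]
  have e : ((conj d) ^ 2).re = d.re ^ 2 - d.im ^ 2 := by
    rw [sq, Complex.mul_re]
    simp
    ring
  rw [e]
  have h1 : |d.im| ^ 2 < d.re ^ 2 := by
    have := h.h
    have h2 := abs_nonneg d.im
    nlinarith
  rw [sq_abs] at h1
  have : 0 < d.re ^ 2 - d.im ^ 2 := by linarith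
  positivity

theorem Dir.C_pos (h : Dir d) : 0 < d.re ^ 2 - d.im ^ 2 := by
  have h1 : |d.im| ^ 2 < d.re ^ 2 := by
    have := h.h
    have h2 := abs_nonneg d.im
    nlinarith
  rw [sq_abs] at h1
  linarith

theorem fq_eq (h : Dir d) (y : ℝ) : fq d y = 9 / (d.re ^ 2 - d.im ^ 2) -
    (d.re ^ 2 - d.im ^ 2) * (y - 6 * (d.re * d.im) / (d.re ^ 2 - d.im ^ 2)) ^ 2 := by
  have hC := h.C_pos
  have hn := h.n
  unfold fq
  rw [zt_re, zt_im]
  field_simp
  have e : (d.re ^ 2 - d.im ^ 2) ^ 2 + 4 * (d.re * d.im) ^ 2 = 1 := by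
    have : (d.re ^ 2 - d.im ^ 2) ^ 2 + 4 * (d.re * d.im) ^ 2 = (d.re ^ 2 + d.im ^ 2) ^ 2 := by ring
    rw [this, hn]; norm_num
  linear_combination 9 * e

theorem fq_cont (d : ℂ) : Continuous (fq d) := by
  unfold fq
  simp only [zt_re, zt_im]
  fun_prop

theorem ig_eq (d : ℂ) (r : ℝ) (S : ℂ → ℂ) (y : ℝ) :
    ig (r * (conj d) ^ 2) S y = exp (r * (zt d y) ^ 2) * S (3 + y * I) := by
  unfold ig
  rw [beta_sq]

theorem exp_fq_int (h : Dir d) {r : ℝ} (hr : 0 < r) : Integrable fun y => Real.exp (r * fq d y) := by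
  have h1 := (kern_int (beta_re h hr) 0).norm
  refine h1.congr (Eventually.of_forall fun y => ?_)
  show ‖exp ((r * (conj d) ^ 2 : ℂ) * (3 + y * I) ^ 2) * exp (-((3 + y * I) * 0))‖ = _
  rw [mul_zero, neg_zero, Complex.exp_zero, mul_one, beta_sq, norm_exp_sq]
  rfl

end Pool.Agent.D0H40.GC
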