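import Pool.Agent.D0H40.GC.Geo

/-! The growth of the integral when there are no zeros inside a hyperbola. -/

set_option autoImplicit false

namespace Pool.Agent.D0H40.GC

open Complex MeasureTheory Filter Topology Set
open Pool.Agent.W189.ML (ser)
open Pool.Agent.W334.BSD (exists_log log_unique)
open scoped ComplexConjugate

variable {S G Φ : ℂ → ℂ} {d : ℂ}

/-- The analytic continuation of the Dirichlet series to a convex open set. -/
theorem continuation (D : Dat2 S G Φ) {U : Set ℂ} (hU : IsOpen U) (hc : Convex ℝ U)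
    (hp : ∀ z ∈ U, 0 < (d * z).re) {M L : ℂ → ℂ} (hM : DifferentiableOn ℂ M U)
    (hL : DifferentiableOn ℂ L U) (hML : ∀ z ∈ U, exp (M z + L z) = Φ (d * z)) :
    ∃ k : ℂ, ∀ z ∈ U, 2 < (d * z).re → G (d * z) - M z - L z - k = S (d * z) := by
  set W : Set ℂ := U ∩ {z | 2 < (d * z).re} with hW
  have hd2 : IsOpen {z : ℂ | 2 < (d * z).re} :=
    isOpen_lt continuous_const (Complex.continuous_re.comp (by fun_prop))
  have hd3 : Convex ℝ {z : ℂ | 2 < (d * z).re} := by
    intro x hx y hy s t hs ht hst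
    have hx' : 2 < (d * x).re := hx
    have hy' : 2 < (d * y).re := hy
    have e : (d * (s • x + t • y)).re = s * (d * x).re + t * (d * y).re := by
      simp only [Complex.mul_re, Complex.add_re, Complex.add_im, Complex.real_smul,
        Complex.ofReal_re, Complex.ofReal_im, Complex.mul_im]
      ring
    show 2 < (d * (s • x + t • y)).re
    rw [e]
    have h1 : s * 2 + t * 2 = 2 := by rw [← add_mul, hst, one_mul]
    rcases hs.eq_or_lt with h | h
    · subst h
      have : t = 1 := by linarith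
      subst this
      linarith
    · have h2 : s * 2 < s * (d * x).re := by gcongr
      have h3 : t * 2 ≤ t * (d * y).re := by gcongr
      linarith
  by_cases hne : W.Nonempty
  · obtain ⟨p, hpW⟩ := hne
    have hu := log_unique (hU.inter hd2) (hc.inter hd3).isPreconnected
      (f := fun z => G (d * z) - S (d * z)) (g := fun z => M z + L z)
      (by
        intro z hz
        refine DifferentiableAt.differentiableWithinAt ?_
        refine DifferentiableAt.sub ?_ ?_
        · exact DifferentiableAt.comp (g := G) (f := fun z : ℂ => d * z) z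
            (D.Gd _ (hp z hz.1)) (by fun_prop)
        · refine DifferentiableAt.comp (g := S) (f := fun z : ℂ => d * z) z ?_ (by fun_prop)
          exact D.Sd.differentiableAt
            ((isOpen_lt continuous_const Complex.continuous_re).mem_nhds hz.2))
      ((hM.add hL).mono inter_subset_left)
      (by
        intro z hz
        rw [D.eq _ hz.2, hML z hz.1]) hpW
    refine ⟨G (d * p) - S (d * p) - (M p + L p), fun z hz1 hz2 => ?_⟩
    have h3 := hu z ⟨hz1, hz2⟩
    linear_combination h3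
  · refine ⟨0, fun z hz1 hz2 => ?_⟩
    exact absurd ⟨z, hz1, hz2⟩ hne

/-- primitives on convex open sets -/
theorem exists_prim {U : Set ℂ} (hU : IsOpen U) (hc : Convex ℝ U) {h : ℂ → ℂ}
    (hd : DifferentiableOn ℂ h U) : ∃ P : ℂ → ℂ, ∀ z ∈ U, HasDerivAt P (h z) z := by
  obtain ⟨P, hP⟩ := hc.exists_forall_hasDerivWithinAt hd
  exact ⟨P, fun z hz => (hP z hz).hasDerivAt (hU.mem_nhds hz)⟩

theorem zt_hasDeriv (d : ℂ) (y : ℝ) : HasDerivAt (fun y : ℝ => zt d y) (conj d * I) y := by
  unfold zt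
  have h1 : HasDerivAt (fun y : ℝ => (3 : ℂ) + y * I) I y := by
    have h2 := ((hasDerivAt_id y).ofReal_comp.mul_const I).const_add (3 : ℂ)
    simpa using h2
  exact h1.const_mul (conj d)

/-- the integral over a segment of the line in terms of a primitive -/
theorem line_prim (h : Dir d) (D : Dat2 S G Φ) {r : ℝ} (hr : 0 < r) {U : Set ℂ} {T P : ℂ → ℂ}
    {κ' : ℂ} (hP : ∀ z ∈ U, HasDerivAt P (exp (r * z ^ 2) * (T z - κ')) z)
    (hT : ∀ z ∈ U, 2 < (d * z).re → T z = S (d * z)) {y₁ y₂ : ℝ} (h12 : y₁ ≤ y₂)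
    (hy : ∀ y ∈ Icc y₁ y₂, zt d y ∈ U) :
    ∫ y in y₁..y₂, (ig (r * (conj d) ^ 2) S y - κ' * exp ((r * (conj d) ^ 2) * (3 + y * I) ^ 2)) =
      (P (zt d y₂) - P (zt d y₁)) / (conj d * I) := by
  have hne : conj d * I ≠ 0 := by
    refine mul_ne_zero ?_ Complex.I_ne_zero
    rw [Ne, map_eq_zero]
    exact h.ne
  have key : ∀ y ∈ uIcc y₁ y₂, HasDerivAt (fun y : ℝ => P (zt d y) / (conj d * I))
      (ig (r * (conj d) ^ 2) S y - κ' * exp ((r * (conj d) ^ 2) * (3 + y * I) ^ 2)) y := by
    intro y hy'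
    rw [uIcc_of_le h12] at hy'
    have h1 := (hP _ (hy y hy')).comp y (zt_hasDeriv d y)
    have h2 := h1.div_const (conj d * I)
    have e : exp (r * zt d y ^ 2) * (T (zt d y) - κ') * (conj d * I) / (conj d * I) =
        ig (r * (conj d) ^ 2) S y - κ' * exp ((r * (conj d) ^ 2) * (3 + y * I) ^ 2) := by
      rw [mul_div_assoc, div_self hne, mul_one, ig_eq, beta_sq, hT _ (hy y hy') (by
        rw [h.mul_zt]; simp; norm_num), h.mul_zt]
      ring
    rw [e] at h2
    exact h2
  have hint : IntervalIntegrable (fun y : ℝ => ig (r * (conj d) ^ 2) S y -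
      κ' * exp ((r * (conj d) ^ 2) * (3 + y * I) ^ 2)) volume y₁ y₂ := by
    refine Integrable.intervalIntegrable ?_
    refine (D.ig_int (beta_re h hr)).sub (Integrable.const_mul ?_ κ')
    have := kern_int (beta_re h hr) 0
    simpa using this
  rw [intervalIntegral.integral_eq_sub_of_hasDerivAt key hint, sub_div]

/-- splitting the line into a middle part and the tails -/
theorem split_line {f : ℝ → ℂ} (hf : Integrable f) {y₁ y₂ : ℝ} (h12 : y₁ ≤ y₂) {g : ℝ → ℝ}
    (hg : Integrable g) (hg0 : ∀ y, 0 ≤ g y) (hfg : ∀ y, (y < y₁ ∨ y₂ < y) → ‖f y‖ ≤ g y) :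
    ‖∫ y, f y‖ ≤ ‖∫ y in y₁..y₂, f y‖ + ∫ y, g y := by
  have h1 := integral_add_compl (s := Icc y₁ y₂) measurableSet_Icc hf
  rw [← h1, intervalIntegral.integral_of_le h12, ← integral_Icc_eq_integral_Ioc]
  refine (norm_add_le _ _).trans (add_le_add le_rfl ?_)
  calc ‖∫ y in (Icc y₁ y₂)ᶜ, f y‖ ≤ ∫ y in (Icc y₁ y₂)ᶜ, ‖f y‖ := norm_integral_le_integral_norm _
    _ ≤ ∫ y in (Icc y₁ y₂)ᶜ, g y := by
        refine setIntegral_mono_on hf.norm.integrableOn hg.integrableOn measurableSet_Icc.compl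
          fun y hy => hfg y ?_
        by_contra hc
        push Not at hc
        exact hy ⟨hc.1, hc.2⟩
    _ ≤ ∫ y, g y := setIntegral_le_integral hg (Eventually.of_forall hg0)

/-- the hyperbola -/
noncomputable def hyp (K η : ℝ) : ℂ := (√(K + η ^ 2) : ℝ) + η * I

theorem hyp_re (K η : ℝ) : (hyp K η).re = √(K + η ^ 2) := by simp [hyp]

theorem hyp_im (K η : ℝ) : (hyp K η).im = η := by simp [hyp]

theorem hyp_sq {K : ℝ} (hK : 0 ≤ K) (η : ℝ) : (hyp K η).re ^ 2 - (hyp K η).im ^ 2 = K := by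
  rw [hyp_re, hyp_im, Real.sq_sqrt (by positivity)]
  ring

theorem hyp_deriv {K : ℝ} (hK : 0 < K) (η : ℝ) :
    HasDerivAt (hyp K) (((η / √(K + η ^ 2) : ℝ) : ℂ) + I) η := by
  have hpos : 0 < K + η ^ 2 := by positivity
  have h1 : HasDerivAt (fun η : ℝ => K + η ^ 2) (2 * η) η := by
    have := (hasDerivAt_pow 2 η).const_add K
    simpa using this
  have h2 := h1.sqrt hpos.ne'
  have h3 : 2 * η / (2 * √(K + η ^ 2)) = η / √(K + η ^ 2) := by
    rw [mul_div_mul_left _ _ (by norm_num)]
  rw [h3] at h2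
  have h4 := h2.ofReal_comp
  have h5 := (hasDerivAt_id η).ofReal_comp.mul_const I
  have h6 := h4.add h5
  simp only [id, Complex.ofReal_one, one_mul] at h6
  exact h6

theorem hyp_deriv_le {K : ℝ} (hK : 0 < K) (η : ℝ) : ‖((η / √(K + η ^ 2) : ℝ) : ℂ) + I‖ ≤ 2 := by
  refine (norm_add_le _ _).trans ?_
  rw [Complex.norm_I, Complex.norm_real, Real.norm_eq_abs, abs_div, abs_of_nonneg (Real.sqrt_nonneg _)]
  have h1 : |η| ≤ √(K + η ^ 2) := by
    apply Real.abs_le_sqrt
    linarith
  have h2 : |η| / √(K + η ^ 2) ≤ 1 := div_le_one_of_le₀ h1 (Real.sqrt_nonneg _)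
  linarith

/-- **Growth.** If `Φ` has no zeros inside the hyperbola then the integral grows slowly. -/
theorem growth (h : Dir d) (D : Dat2 S G Φ) {κ : ℝ} (hκ : 0 ≤ κ)
    (hz : ∀ z ∈ Hy κ, Φ (d * z) ≠ 0) {ε : ℝ} (hε : 0 < ε) :
    ∃ C : ℝ, ∀ r : ℝ, 1 ≤ r → ‖∫ y, ig (r * (conj d) ^ 2) S y‖ ≤
      C * Real.exp ((κ + ε) * r) := by
  obtain ⟨M, hM0, hMb⟩ := D.Sb
  set A : ℝ := ∫ y, Real.exp (1 * fq d y) with hA
  have hA0 : 0 ≤ A := integral_nonneg fun y => (Real.exp_pos _).le
  have hAi := exp_fq_int h one_pos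
  set K : ℝ := κ + ε with hK
  have hK0 : 0 < K := by positivity
  have hCp := h.C_pos
  set C₀ : ℝ := d.re ^ 2 - d.im ^ 2 with hC₀
  set y₀ : ℝ := 6 * (d.re * d.im) / C₀ with hy₀
  have hfq : ∀ y, fq d y = 9 / C₀ - C₀ * (y - y₀) ^ 2 := fun y => fq_eq h y
  -- the bound where `fq ≤ K`
  have hbd : ∀ r : ℝ, 1 ≤ r → ∀ y, fq d y ≤ K → ‖ig (r * (conj d) ^ 2) S y‖ ≤
      M * Real.exp (K * r) * Real.exp (1 * fq d y) := by
    intro r hr y hy
    rw [ig_eq, norm_mul, norm_exp_sq]
    have h1 : ‖S (3 + y * I)‖ ≤ M := hMb _ (by simp)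
    have h2 : r * fq d y ≤ K * r + 1 * fq d y := by
      by_cases h3 : 0 ≤ fq d y
      · nlinarith
      · push Not at h3
        nlinarith
    have h4 : Real.exp (r * ((zt d y).re ^ 2 - (zt d y).im ^ 2)) ≤
        Real.exp (K * r) * Real.exp (1 * fq d y) := by
      rw [← Real.exp_add]
      exact Real.exp_le_exp.2 h2
    calc _ ≤ (Real.exp (K * r) * Real.exp (1 * fq d y)) * M :=
          mul_le_mul h4 h1 (norm_nonneg _) (by positivity)
      _ = _ := by ring
  by_cases hcase : 9 / C₀ ≤ K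
  · refine ⟨M * A, fun r hr => ?_⟩
    calc ‖∫ y, ig (r * (conj d) ^ 2) S y‖ ≤
        ∫ y, ‖ig (r * (conj d) ^ 2) S y‖ := norm_integral_le_integral_norm _
      _ ≤ ∫ y, M * Real.exp (K * r) * Real.exp (1 * fq d y) := by
          refine integral_mono (D.ig_int (beta_re h (by linarith))).norm (hAi.const_mul _) fun y => ?_
          refine hbd r hr y ?_
          rw [hfq]
          have : 0 ≤ C₀ * (y - y₀) ^ 2 := by positivity
          linarith
      _ = M * A * Real.exp (K * r) := by
          rw [integral_const_mul]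
          ring
  · push Not at hcase
    set ρ : ℝ := √((9 / C₀ - K) / C₀) with hρ
    have hρ2 : C₀ * ρ ^ 2 = 9 / C₀ - K := by
      rw [hρ, Real.sq_sqrt (div_nonneg (by linarith) hCp.le)]
      field_simp
    have hρ0 : 0 ≤ ρ := Real.sqrt_nonneg _
    -- the continuation
    obtain ⟨ℓ, hℓ1, hℓ2⟩ := exists_log (Hy_open κ) (Hy_convex hκ)
      (⟨(κ + 1 : ℝ), by
        constructor
        · simp; linarith
        · simp; nlinarith⟩)
      (Φ := fun z => Φ (d * z)) ((D.Φd.comp (by fun_prop)).differentiableOn) hz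
    have hpos : ∀ z ∈ Hy κ, 0 < (d * z).re := fun z hz => Hy.re_pos h hκ hz
    obtain ⟨k, hk⟩ := continuation D (d := d) (Hy_open κ) (Hy_convex hκ) hpos
      (M := fun _ => 0) (L := ℓ) (differentiableOn_const _) hℓ1 (fun z hz => by
        rw [zero_add]; exact hℓ2 z hz)
    set T : ℂ → ℂ := fun z => G (d * z) - 0 - ℓ z - k with hT
    have hTd : DifferentiableOn ℂ T (Hy κ) := by
      intro z hz
      refine DifferentiableAt.differentiableWithinAt ?_
      have h1 : DifferentiableAt ℂ (fun z => G (d * z)) z :=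
        DifferentiableAt.comp (g := G) (f := fun z : ℂ => d * z) z (D.Gd _ (hpos z hz)) (by fun_prop)
      have h2 : DifferentiableAt ℂ ℓ z := hℓ1.differentiableAt ((Hy_open κ).mem_nhds hz)
      exact ((h1.sub_const 0).sub h2).sub_const k
    -- the end points
    set y₁ : ℝ := y₀ - ρ with hy₁
    set y₂ : ℝ := y₀ + ρ with hy₂
    have h12 : y₁ ≤ y₂ := by linarith
    have hf1 : fq d y₁ = K := by rw [hfq, hy₁]; linear_combination hρ2.symm
    have hf2 : fq d y₂ = K := by rw [hfq, hy₂]; linear_combination hρ2.symm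
    have hfin : ∀ y ∈ Icc y₁ y₂, K ≤ fq d y := by
      intro y hy
      rw [hfq]
      have : (y - y₀) ^ 2 ≤ ρ ^ 2 := by
        apply sq_le_sq'
        · have := hy.1; linarith
        · have := hy.2; linarith
      nlinarith
    have hfout : ∀ y, (y < y₁ ∨ y₂ < y) → fq d y ≤ K := by
      intro y hy
      rw [hfq]
      have : ρ ^ 2 ≤ (y - y₀) ^ 2 := by
        rcases hy with hy | hy
        · nlinarith
        · nlinarith
      nlinarith
    have hzre : ∀ y, 0 ≤ fq d y → 0 < (zt d y).re := by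
      intro y hy
      refine h.re_pos_of ?_ hy
      rw [h.mul_zt]
      simp
    have hmem : ∀ y ∈ Icc y₁ y₂, zt d y ∈ Hy κ := by
      intro y hy
      have h1 := hfin y hy
      refine ⟨hzre y (by linarith), ?_⟩
      have : fq d y = (zt d y).re ^ 2 - (zt d y).im ^ 2 := rfl
      linarith
    have hend : ∀ y, fq d y = K → hyp K (zt d y).im = zt d y := by
      intro y hy
      apply Complex.ext
      · rw [hyp_re]
        have h1 : K + (zt d y).im ^ 2 = (zt d y).re ^ 2 := by
          have : fq d y = (zt d y).re ^ 2 - (zt d y).im ^ 2 := rfl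
          linarith
        rw [h1]
        exact Real.sqrt_sq (hzre y (by linarith)).le
      · rw [hyp_im]
    have hhyp : ∀ η : ℝ, hyp K η ∈ Hy κ := by
      intro η
      refine ⟨?_, ?_⟩
      · rw [hyp_re]; positivity
      · rw [hyp_sq hK0.le]; linarith
    have hhc : Continuous (hyp K) := by
      unfold hyp
      fun_prop
    -- a bound for `T` on the piece of the hyperbola
    set η₁ : ℝ := (zt d y₁).im with hη₁
    set η₂ : ℝ := (zt d y₂).im with hη₂
    obtain ⟨B, hB⟩ := (isCompact_uIcc (a := η₁) (b := η₂)).exists_bound_of_continuousOn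
      (f := fun η => T (hyp K η)) (hTd.continuousOn.comp hhc.continuousOn fun η _ => hhyp η)
    have hB0 : 0 ≤ B := (norm_nonneg _).trans (hB η₁ left_mem_uIcc)
    refine ⟨M * A + B * 2 * |η₂ - η₁|, fun r hr => ?_⟩
    have hr0 : 0 < r := by linarith
    obtain ⟨P, hP⟩ := exists_prim (Hy_open κ) (Hy_convex hκ)
      (h := fun z => exp (r * z ^ 2) * (T z - 0)) (by
        refine DifferentiableOn.mul ?_ (hTd.sub_const 0)
        exact (Differentiable.differentiableOn (by fun_prop)))
    have hline := line_prim h D hr0 hP (fun z hz hz2 => hk z hz hz2) h12 hmem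
    simp only [zero_mul, sub_zero] at hline
    have hmid : ‖∫ y in y₁..y₂, ig (r * (conj d) ^ 2) S y‖ ≤
        (B * 2 * |η₂ - η₁|) * Real.exp (K * r) := by
      rw [hline, norm_div, norm_mul, Complex.norm_I, mul_one, Complex.norm_conj, h.norm_eq, div_one]
      have hder : ∀ η ∈ uIcc η₁ η₂, HasDerivWithinAt (fun η : ℝ => P (hyp K η))
          (exp (r * (hyp K η) ^ 2) * (T (hyp K η) - 0) * (((η / √(K + η ^ 2) : ℝ) : ℂ) + I))
          (uIcc η₁ η₂) η := fun η _ =>
        ((hP _ (hhyp η)).comp η (hyp_deriv hK0 η)).hasDerivWithinAt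
      have hbound : ∀ η ∈ uIcc η₁ η₂,
          ‖exp (r * (hyp K η) ^ 2) * (T (hyp K η) - 0) * (((η / √(K + η ^ 2) : ℝ) : ℂ) + I)‖ ≤
            Real.exp (K * r) * B * 2 := by
        intro η hη
        rw [norm_mul, norm_mul, norm_exp_sq, hyp_sq hK0.le, sub_zero, mul_comm r K]
        have h1 := hB η hη
        have h2 := hyp_deriv_le hK0 η
        gcongr
      have h5 := Convex.norm_image_sub_le_of_norm_hasDerivWithin_le hder hbound
        (convex_uIcc η₁ η₂) (x := η₁) (y := η₂) left_mem_uIcc right_mem_uIcc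
      rw [hend y₂ hf2, hend y₁ hf1, Real.norm_eq_abs] at h5
      calc _ ≤ _ := h5
        _ = _ := by ring
    have hsplit := split_line (D.ig_int (beta_re h hr0)) h12
      (g := fun y => M * Real.exp (K * r) * Real.exp (1 * fq d y)) (hAi.const_mul _)
      (fun y => by positivity) (fun y hy => hbd r hr y (hfout y hy))
    rw [integral_const_mul] at hsplit
    calc _ ≤ _ := hsplit
      _ ≤ (B * 2 * |η₂ - η₁|) * Real.exp (K * r) + M * Real.exp (K * r) * A := by gcongr
      _ = _ := by ring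

end Pool.Agent.D0H40.GC
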