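import Pool.Agent.D0H40.GC.Land

/-! The one-sided converse. -/

set_option autoImplicit false

namespace Pool.Agent.D0H40.GC

open Complex MeasureTheory Filter Topology Set
open Pool.Agent.W189.ML (ser int_exp)
open Pool.Agent.W334.BSD (Tame RHP RHP_open csq csq_sq csq_re_pos csq_ofReal csq_ne_zero
  one_lt_csq_re)
open Pool.Agent.H295R2 (Nice Lap)
open scoped ComplexConjugate

variable {lam c : ℕ → ℝ} {G Φ : ℂ → ℂ}

theorem dir_one : Dir (1 : ℂ) := ⟨by simp, by simp⟩

theorem gv_real (lam c : ℕ → ℝ) (v : ℝ) : (gv lam c 1 v).im = 0 := by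
  have h1 : gv lam c 1 v = ((∑' i, c i * Real.exp (-(1 / v * lam i ^ 2)) : ℝ) : ℂ) := by
    unfold gv gs
    rw [Complex.ofReal_tsum]
    refine tsum_congr fun i => ?_
    push_cast
    rw [one_pow]
  rw [h1, Complex.ofReal_im]

theorem kv_real (lam c : ℕ → ℝ) (v : ℝ) : (((kv lam c 1 v).re : ℝ) : ℂ) = kv lam c 1 v := by
  apply Complex.ext
  · simp
  · rw [Complex.ofReal_im]
    unfold kv
    by_cases hv : v ∈ Ioi (0:ℝ)
    · rw [indicator_of_mem hv, Complex.div_ofReal_im, gv_real, zero_div]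
    · rw [indicator_of_notMem hv, Complex.zero_im]

/-- the trivial bound -/
theorem Dat.gv_one_le (D : Dat lam c G Φ) {v : ℝ} (hv : 0 < v) :
    ‖gv lam c 1 v‖ ≤ (∑' i, |c i| * Real.exp (-(2 * lam i))) * Real.exp (1 * v) := by
  unfold gv gs
  rw [mul_comm, one_mul, ← tsum_mul_left]
  have hre : ((1 : ℂ) ^ 2 / (v : ℂ)).re = 1 / v := by
    rw [div_re, one_pow, Complex.one_re]
  refine tsum_of_norm_bounded (D.sum.mul_left _).hasSum fun i => ?_
  have h1 := D.gs_term_le (s := (1 : ℂ) ^ 2 / v) (by rw [hre]; positivity) i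
  rwa [hre, one_div_one_div] at h1

theorem converse_one (D : Dat lam c G Φ) {l₀ : ℝ} (hl : ∀ i, c i ≠ 0 → l₀ ≤ lam i)
    (hl0 : 0 < l₀) {κ : ℝ} (hκ : 0 ≤ κ)
    (hb : ∀ ε : ℝ, 0 < ε → ∃ C : ℝ, ∀ v : ℝ, 1 ≤ v →
      (gv lam c 1 v).re ≤ C * Real.exp ((κ / 4 + ε) * v)) :
    ∀ z ∈ Hy κ, Φ z ≠ 0 := by
  intro z hz
  have hgap : 0 < (z.re ^ 2 - z.im ^ 2 - κ) / 8 := by
    have := hz.2
    linarith
  set ε : ℝ := (z.re ^ 2 - z.im ^ 2 - κ) / 8 with hε
  obtain ⟨C₀, hC₀⟩ := hb ε hgap
  set κ' : ℝ := κ / 4 + ε with hκ'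
  have hκ'0 : 0 < κ' := by positivity
  set C₁ : ℝ := |C₀| with hC₁
  have hC₁0 : 0 ≤ C₁ := abs_nonneg _
  obtain ⟨C₂, hC₂⟩ := kv_nice D dir_one hl hl0 zero_le_one (fun v hv => D.gv_one_le (by linarith))
  have hN : ∀ ε : ℝ, 0 < ε → ∃ C : ℝ, Nice (kv lam c 1) C (1 + ε) 0 := by
    intro ε hε
    exact kv_nice D dir_one hl hl0 (by linarith) (C := ∑' i, |c i| * Real.exp (-(2 * lam i)))
      (fun v hv => by
        refine (D.gv_one_le (by linarith)).trans ?_
        have : 0 ≤ ∑' i, |c i| * Real.exp (-(2 * lam i)) := tsum_nonneg fun i => by positivity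
        gcongr
        linarith)
  have hC₂0 := hC₂.C_nonneg
  -- the function
  set T : ℝ → ℝ := fun v => C₁ - Real.exp (-(κ' * v)) * (kv lam c 1 v).re with hT
  have hTame : Tame T (C₁ + C₂) := by
    refine ⟨?_, fun t ht => ?_⟩
    · exact measurable_const.sub ((by fun_prop : Measurable fun v : ℝ => Real.exp (-(κ' * v))).mul
        (Complex.measurable_re.comp hC₂.meas))
    · have h1 : |(kv lam c 1 t).re| ≤ C₂ * Real.exp t := by
        refine (Complex.abs_re_le_norm _).trans ?_
        have := hC₂.bound t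
        rwa [one_mul] at this
      have h2 : Real.exp (-(κ' * t)) ≤ 1 := Real.exp_le_one_iff.2 (by
        have := mul_pos hκ'0 ht
        linarith)
      have h3 : 1 ≤ Real.exp t := Real.one_le_exp ht.le
      calc |T t| ≤ |C₁| + |Real.exp (-(κ' * t)) * (kv lam c 1 t).re| := abs_sub _ _
        _ = C₁ + Real.exp (-(κ' * t)) * |(kv lam c 1 t).re| := by
            rw [abs_of_nonneg hC₁0, abs_mul, abs_of_nonneg (Real.exp_pos _).le]
        _ ≤ C₁ * Real.exp t + 1 * (C₂ * Real.exp t) := by
            refine add_le_add ?_ (mul_le_mul h2 h1 (abs_nonneg _) zero_le_one)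
            exact le_mul_of_one_le_right hC₁0 h3
        _ = _ := by ring
  have hpos : ∀ v, 1 ≤ v → 0 ≤ T v := by
    intro v hv
    have hv0 : 0 < v := by linarith
    have h1 : (kv lam c 1 v).re ≤ C₁ * Real.exp (κ' * v) := by
      unfold kv
      rw [indicator_of_mem (show v ∈ Ioi (0:ℝ) from hv0), Complex.div_ofReal_re]
      have h2 := hC₀ v hv
      have h3 : 1 ≤ √(Real.pi * v) := by
        rw [Real.one_le_sqrt]
        have := Real.pi_gt_three
        nlinarith
      have h4 : (gv lam c 1 v).re ≤ C₁ * Real.exp (κ' * v) :=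
        h2.trans (mul_le_mul_of_nonneg_right (le_abs_self _) (Real.exp_pos _).le)
      rw [div_le_iff₀ (by linarith)]
      have h5 : 0 ≤ C₁ * Real.exp (κ' * v) := by positivity
      nlinarith
    rw [hT]
    simp only
    have h2 : Real.exp (-(κ' * v)) * (kv lam c 1 v).re ≤
        Real.exp (-(κ' * v)) * (C₁ * Real.exp (κ' * v)) :=
      mul_le_mul_of_nonneg_left h1 (Real.exp_pos _).le
    have h3 : Real.exp (-(κ' * v)) * (C₁ * Real.exp (κ' * v)) = C₁ := by
      rw [mul_comm C₁, ← mul_assoc, ← Real.exp_add]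
      simp
    linarith
  -- the Laplace transform
  have hLT : ∀ q : ℂ, 1 < q.re → W334.BSD.LT T q = C₁ / q - Lap (kv lam c 1) (q + κ') := by
    intro q hq
    have hq0 : 0 < q.re := by linarith
    have i1 : IntegrableOn (fun t : ℝ => (C₁ : ℂ) * exp (-(q * t))) (Ioi 0) :=
      (int_exp hq0).1.const_mul _
    have i2 : Integrable (fun t : ℝ => kv lam c 1 t * exp (-((q + κ') * t))) :=
      hC₂.integrable (s := q + κ') (by simp; linarith)
    have e0 : Lap (kv lam c 1) (q + κ') =
        ∫ t in Ioi (0:ℝ), kv lam c 1 t * exp (-((q + κ') * t)) := by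
      unfold Lap
      rw [← integral_indicator measurableSet_Ioi]
      congr 1
      funext t
      by_cases ht : t ∈ Ioi (0:ℝ)
      · rw [indicator_of_mem ht]
      · rw [indicator_of_notMem ht]
        unfold kv
        rw [indicator_of_notMem ht, zero_mul]
    unfold W334.BSD.LT
    have e1 : ∀ t : ℝ, ((T t : ℝ) : ℂ) * exp (-(q * t)) = (C₁ : ℂ) * exp (-(q * t)) -
        kv lam c 1 t * exp (-((q + κ') * t)) := by
      intro t
      rw [hT]
      simp only
      rw [Complex.ofReal_sub, Complex.ofReal_mul, kv_real, sub_mul, Complex.ofReal_exp]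
      congr 1
      rw [mul_comm (exp _) (kv lam c 1 t), mul_assoc, ← Complex.exp_add]
      congr 2
      push_cast
      ring
    simp only [e1]
    rw [integral_sub i1 i2.integrableOn, integral_const_mul, (int_exp hq0).2, e0, div_eq_mul_inv]
  -- the multiplier
  have hshift : ∀ q ∈ RHP, κ' < (q + κ' : ℂ).re := by
    intro q hq
    have : 0 < q.re := hq
    simp
    exact this
  have hκre : ∀ q ∈ RHP, 0 < (q + κ' : ℂ).re := fun q hq => hκ'0.trans (hshift q hq)
  have hMd : ∀ q ∈ RHP, DifferentiableAt ℂ (fun q : ℂ => csq (q + κ')) q := by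
    intro q hq
    exact DifferentiableAt.comp (g := csq) (f := fun q : ℂ => q + κ') q (csq_diff (hκre q hq))
      (by fun_prop)
  have hwre : ∀ q ∈ RHP, 0 < (2 * csq (q + κ')).re := by
    intro q hq
    have := csq_mem dir_one (a := 0) le_rfl (hκre q hq)
    rwa [one_mul] at this
  have hGd : ∀ q ∈ RHP, DifferentiableAt ℂ (fun q : ℂ => G (2 * csq (q + κ'))) q := by
    intro q hq
    exact DifferentiableAt.comp (g := G) (f := fun q : ℂ => 2 * csq (q + κ')) q
      (D.Gd _ (hwre q hq)) ((hMd q hq).const_mul 2)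
  have key := nonvanishing_mult hTame (v0 := 1) hpos (Φ := fun q => Φ (2 * csq (q + κ')))
    (Λ := fun q => csq (q + κ') * (C₁ / q) - G (2 * csq (q + κ'))) (Mu := fun q => csq (q + κ'))
    (fun q hq => (hMd q hq).differentiableWithinAt)
    (fun q hq => csq_ne_zero (by
      intro h0
      have := hκre q hq
      rw [h0] at this
      simp at this))
    (fun x hx => ⟨√(x + κ'), Real.sqrt_nonneg _, by
      rw [← Complex.ofReal_add]
      exact csq_ofReal (by linarith)⟩)
    (fun q hq => (DifferentiableAt.comp (g := Φ) (f := fun q : ℂ => 2 * csq (q + κ')) q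
      D.Φd.differentiableAt ((hMd q hq).const_mul 2)).differentiableWithinAt)
    (fun q hq => by
      have hq0 : q ≠ 0 := by
        intro h0
        have : 0 < q.re := hq
        rw [h0] at this
        simp at this
      exact (((hMd q hq).mul ((differentiableAt_const _).div differentiableAt_id hq0)).sub
        (hGd q hq)).differentiableWithinAt)
    (fun q hq => by
      have h1 : 1 < (q + κ' : ℂ).re := by simp; linarith
      have h2 := conv_identity D dir_one hl hl0 zero_le_one hN h1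
      rw [one_mul] at h2
      rw [h2, hLT q hq]
      congr 1
      ring)
  have hzre : (z ^ 2 / 4).re = (z.re ^ 2 - z.im ^ 2) / 4 := by
    have : z ^ 2 / 4 = z ^ 2 * ((1 / 4 : ℝ) : ℂ) := by push_cast; ring
    rw [this, Complex.re_mul_ofReal, sq, Complex.mul_re]
    ring
  have h3 := key (z ^ 2 / 4 - κ') (by
    show 0 < (z ^ 2 / 4 - κ' : ℂ).re
    rw [Complex.sub_re, hzre, Complex.ofReal_re, hκ', hε]
    have := hz.2
    linarith)
  have e : 2 * csq (z ^ 2 / 4) = z := by
    have h1 : (z ^ 2 / 4) = (z / 2) ^ 2 := by ring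
    have h2 : csq ((z / 2) ^ 2) = z / 2 := by
      unfold csq
      rw [one_div]
      refine Complex.sq_cpow_two_inv ?_
      have : (z / 2).re = z.re / 2 := by simp
      rw [this]
      have := hz.1
      linarith
    rw [h1, h2]
    ring
  simp only [sub_add_cancel] at h3
  rwa [e] at h3

end Pool.Agent.D0H40.GC
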