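import Pool.Agent.W524.RY.Fin
import Pool.Agent.D0H40.GC.Abs
import Pool.Agent.D0H40.GC.One

/-! The case of an elliptic curve. -/

set_option autoImplicit false

namespace Pool.Agent.D0H40.GC

open Complex MeasureTheory Filter Topology Set Classical
open Pool.Agent.W263.BSD
open Pool.Agent.W189.ML (ser sdata exp_eq)
open Pool.Agent.W524.RY (cf F_ne_zero small_ne_zero GG_sector')
open scoped ComplexConjugate

variable {a b : ℤ} {F : ℂ → ℂ}

theorem dat_curve (hF : IsLSeries a b F) : Dat (fun p : ℕ => Real.log p) (cf a b)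
    (GG (SS a b) (Ap a b)) (PhiF a b F) where
  lam_pos := fun p => Real.log_natCast_nonneg p
  sum := (sdata (eData a b)).sum
  Gd := fun _ hw => (eData a b).GG_differentiable hw
  Gb := fun _ hR => GG_sector' (eData a b) hR
  Φd := PhiF_differentiable hF
  eq := fun w hw => exp_eq (eData a b) (by linarith) (PhiF_hasProd hF (by linarith))

theorem PhiF_order (hF : IsLSeries a b F) {w : ℂ} (hw : 0 ≤ w.re) :
    analyticOrderAt (PhiF a b F) w = analyticOrderAt F (1 + w) := by
  obtain ⟨m, hm⟩ := Pool.Agent.W189.ML.order_finite_all hF (1 + w)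
  rw [hm]
  have hFa : AnalyticAt ℂ F (1 + w) := hF.1.analyticAt _
  obtain ⟨g, hg, hg0, he⟩ := (hFa.analyticOrderAt_eq_natCast).mp hm
  have hPa : AnalyticAt ℂ (PhiF a b F) w := (PhiF_differentiable hF).analyticAt _
  rw [hPa.analyticOrderAt_eq_natCast]
  refine ⟨fun z => g (1 + z) * small a b z, ?_, ?_, ?_⟩
  · refine AnalyticAt.mul ?_ (small_differentiable.analyticAt _)
    refine AnalyticAt.fun_comp (g := g) (f := fun z : ℂ => 1 + z) hg ?_
    fun_prop
  · exact mul_ne_zero hg0 (small_ne_zero hw)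
  · have h2 : Tendsto (fun z : ℂ => 1 + z) (𝓝 w) (𝓝 (1 + w)) := by
      have : Continuous fun z : ℂ => 1 + z := by fun_prop
      exact this.tendsto w
    filter_upwards [h2.eventually he] with z hz
    unfold PhiF
    rw [hz, smul_eq_mul, smul_eq_mul]
    have e1 : (1 + z - (1 + w)) = z - w := by ring
    rw [e1]
    ring

theorem PhiF_fin (hF : IsLSeries a b F) (w : ℂ) : ∃ m : ℕ, analyticOrderAt (PhiF a b F) w = m := by
  have hne : analyticOrderAt (PhiF a b F) w ≠ ⊤ := by
    intro htop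
    rw [analyticOrderAt_eq_top] at htop
    have h1 : AnalyticOnNhd ℂ (PhiF a b F) univ :=
      (PhiF_differentiable hF).differentiableOn.analyticOnNhd isOpen_univ
    have h2 := h1.eqOn_zero_of_preconnected_of_eventuallyEq_zero isPreconnected_univ
      (mem_univ w) htop
    exact Pool.Agent.W189.ML.PhiF_ne_zero_of_one_lt hF (w := 3) (by norm_num) (h2 (mem_univ _))
  obtain ⟨r, hr⟩ := ENat.ne_top_iff_exists.mp hne
  exact ⟨r, hr.symm⟩

theorem PhiF_zero (w : ℂ) (hw : 0 ≤ w.re) : PhiF a b F w = 0 ↔ F (1 + w) = 0 := by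
  unfold PhiF
  rw [mul_eq_zero]
  constructor
  · rintro (h | h)
    · exact h
    · exact absurd h (small_ne_zero hw)
  · exact fun h => Or.inl h

/-- tail of the squares -/
theorem tail_sq {X : ℝ} (hX : 1 ≤ X) {h : ℕ → ℝ} (h0 : ∀ n, 0 ≤ h n)
    (h1 : ∀ n : ℕ, n < ⌊X⌋₊ + 1 → h n = 0) (h2 : ∀ n : ℕ, ⌊X⌋₊ + 1 ≤ n → h n ≤ X * ((n : ℝ) ^ 2)⁻¹)
    (n : ℕ) : ∑ i ∈ Finset.range n, h i ≤ 2 := by
  set N : ℕ := ⌊X⌋₊ with hN
  have hN1 : 1 ≤ N := (Nat.one_le_floor_iff X).2 hX
  have hN0 : (0:ℝ) < N := by exact_mod_cast hN1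
  have hXN : X < N + 1 := Nat.lt_floor_add_one X
  have hX2 : X ≤ 2 * N := by
    have : (1:ℝ) ≤ N := by exact_mod_cast hN1
    linarith
  by_cases hn : n ≤ N
  · have : ∑ i ∈ Finset.range n, h i = 0 := Finset.sum_eq_zero fun i hi => h1 i (by
      have := Finset.mem_range.1 hi
      omega)
    rw [this]
    norm_num
  · push Not at hn
    have hsub : ∑ i ∈ Finset.range n, h i ≤ ∑ i ∈ Finset.Ioc N n, h i := by
      have e : ∑ i ∈ Finset.range n, h i = ∑ i ∈ (Finset.range n).filter (fun i => N < i), h i := by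
        rw [Finset.sum_filter]
        refine Finset.sum_congr rfl fun i _ => ?_
        split_ifs with hi
        · rfl
        · exact h1 i (by omega)
      rw [e]
      refine Finset.sum_le_sum_of_subset_of_nonneg ?_ fun i _ _ => h0 i
      intro i hi
      rw [Finset.mem_filter, Finset.mem_range] at hi
      rw [Finset.mem_Ioc]
      omega
    refine hsub.trans ?_
    calc ∑ i ∈ Finset.Ioc N n, h i ≤ ∑ i ∈ Finset.Ioc N n, X * ((i : ℝ) ^ 2)⁻¹ :=
          Finset.sum_le_sum fun i hi => h2 i (by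
            have := (Finset.mem_Ioc.1 hi).1
            omega)
      _ = X * ∑ i ∈ Finset.Ioc N n, ((i : ℝ) ^ 2)⁻¹ := by rw [Finset.mul_sum]
      _ ≤ X * ((N : ℝ)⁻¹ - (n : ℝ)⁻¹) := by
          gcongr
          exact sum_Ioc_inv_sq_le_sub (by omega) hn.le
      _ ≤ X * (N : ℝ)⁻¹ := by
          have : 0 ≤ (n : ℝ)⁻¹ := by positivity
          gcongr
          linarith
      _ ≤ 2 := by
          rw [← div_eq_mul_inv, div_le_iff₀ hN0]
          exact hX2

/-- the Gaussian sum over the primes up to `X` -/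
noncomputable def gsum (a b : ℤ) (τ X : ℝ) : ℂ :=
  ∑ p ∈ (Finset.range (⌊X⌋₊ + 1)).filter (GoodPrime a b),
    exp (-((1 + τ * I) * ((Real.log p) ^ 2 / Real.log X : ℝ))) *
      (Real.log (((pointCount a b p : ℝ) + 1) / p) : ℝ)

/-- the term -/
noncomputable def gt (a b : ℤ) (τ L : ℝ) (p : ℕ) : ℂ :=
  (cf a b p : ℂ) * exp (-(((1 + τ * I) / L) * (Real.log p) ^ 2))

theorem gt_norm (τ : ℝ) {L : ℝ} (p : ℕ) :
    ‖gt a b τ L p‖ = |cf a b p| * Real.exp (-((Real.log p) ^ 2 / L)) := by
  unfold gt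
  rw [norm_mul, Complex.norm_real, Real.norm_eq_abs, Complex.norm_exp]
  congr 2
  have e : -(((1 + τ * I) / L) * ((Real.log p : ℝ) : ℂ) ^ 2) =
      -((1 + τ * I) * (((Real.log p) ^ 2 / L : ℝ) : ℂ)) := by
    push_cast
    ring
  rw [e, Complex.neg_re, Complex.re_mul_ofReal]
  simp

theorem cf_abs_le (p : ℕ) : |cf a b p| ≤ 1 := by
  unfold cf
  split_ifs with h
  · exact (eData a b).cc_abs h
  · simp

theorem gt_tail (τ : ℝ) {X : ℝ} (hX : 1 < X) {p : ℕ} (hp : ⌊X⌋₊ + 1 ≤ p) :
    ‖gt a b τ (Real.log X) p‖ ≤ X * ((p : ℝ) ^ 2)⁻¹ := by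
  have hL : 0 < Real.log X := Real.log_pos hX
  have hX0 : 0 < X := by linarith
  have hXp : X < p := (Nat.lt_floor_add_one X).trans_le (by exact_mod_cast hp)
  have hp0 : (0:ℝ) < p := hX0.trans hXp
  rw [gt_norm]
  have h1 : Real.exp (-((Real.log p) ^ 2 / Real.log X)) ≤ Real.exp (Real.log X - 2 * Real.log p) := by
    apply Real.exp_le_exp.2
    rw [neg_le, neg_sub, le_div_iff₀ hL]
    have := sq_nonneg (Real.log p - Real.log X)
    linarith
  have h2 : Real.exp (Real.log X - 2 * Real.log p) = X * ((p : ℝ) ^ 2)⁻¹ := by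
    rw [Real.exp_sub, Real.exp_log hX0, two_mul, Real.exp_add, Real.exp_log hp0, sq, div_eq_mul_inv]
  rw [← h2]
  calc |cf a b p| * Real.exp (-((Real.log p) ^ 2 / Real.log X)) ≤
      1 * Real.exp (Real.log X - 2 * Real.log p) := by
        gcongr
        exact cf_abs_le p
    _ = _ := one_mul _

theorem gt_summable (τ : ℝ) {L : ℝ} (hL : 0 < L) (hF : IsLSeries a b F) :
    Summable (gt a b τ L) := by
  have := (dat_curve hF).gs_summable (s := (1 + τ * I) / L) (by
    rw [Complex.div_ofReal_re]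
    simp
    exact hL)
  exact this.of_norm

theorem trunc_le (hF : IsLSeries a b F) (τ : ℝ) {X : ℝ} (hX : 1 < X) :
    ‖gs (fun p : ℕ => Real.log p) (cf a b) ((1 + τ * I) / Real.log X) -
      ∑ p ∈ Finset.range (⌊X⌋₊ + 1), gt a b τ (Real.log X) p‖ ≤ 2 := by
  have hL : 0 < Real.log X := Real.log_pos hX
  have hs := gt_summable (a := a) (b := b) τ hL hF
  set N := ⌊X⌋₊ + 1 with hN
  have e1 : gs (fun p : ℕ => Real.log p) (cf a b) ((1 + τ * I) / Real.log X) =
      ∑' p, gt a b τ (Real.log X) p := rfl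
  rw [e1, ← hs.sum_add_tsum_compl (s := Finset.range N), add_sub_cancel_left]
  set h : ℕ → ℝ := fun p => if p < N then 0 else ‖gt a b τ (Real.log X) p‖ with hh
  have h0 : ∀ n, 0 ≤ h n := by
    intro n
    rw [hh]
    simp only
    split_ifs
    · exact le_rfl
    · exact norm_nonneg _
  have hb : ∀ n, ∑ i ∈ Finset.range n, h i ≤ 2 := tail_sq hX.le h0
    (fun n hn => by rw [hh]; simp only; rw [if_pos hn])
    (fun n hn => by
      rw [hh]
      simp only
      rw [if_neg (by omega)]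
      exact gt_tail τ hX hn)
  have hsum : Summable h := summable_of_sum_range_le h0 hb
  have hle : ∑' n, h n ≤ 2 := Real.tsum_le_of_sum_range_le h0 hb
  refine le_trans ?_ hle
  rw [tsum_subtype ((Finset.range N : Set ℕ)ᶜ) (gt a b τ (Real.log X))]
  refine tsum_of_norm_bounded hsum.hasSum fun i => ?_
  by_cases hi : i < N
  · have : i ∉ ((Finset.range N : Set ℕ)ᶜ) := by simpa using hi
    rw [indicator_of_notMem this, norm_zero]
    exact h0 i
  · have : i ∈ ((Finset.range N : Set ℕ)ᶜ) := by simpa using hi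
    rw [indicator_of_mem this, hh]
    simp only
    rw [if_neg hi]

/-- the small primes -/
theorem small_le (τ : ℝ) {X : ℝ} (hX : 1 < X) :
    ‖gsum a b τ X - ∑ p ∈ Finset.range (⌊X⌋₊ + 1), gt a b τ (Real.log X) p‖ ≤
      ∑ p ∈ Finset.range 25, |lp a b p| := by
  have hL : 0 < Real.log X := Real.log_pos hX
  set N := ⌊X⌋₊ + 1 with hN
  unfold gsum
  rw [Finset.sum_filter, ← Finset.sum_sub_distrib]
  have key : ∀ p ∈ Finset.range N, ‖(if GoodPrime a b p then
      exp (-((1 + τ * I) * ((Real.log p) ^ 2 / Real.log X : ℝ))) *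
      (Real.log (((pointCount a b p : ℝ) + 1) / p) : ℝ) else 0) - gt a b τ (Real.log X) p‖ ≤
      if p < 25 then |lp a b p| else 0 := by
    intro p _
    have ee : exp (-((1 + τ * I) * ((Real.log p) ^ 2 / Real.log X : ℝ))) =
        exp (-(((1 + τ * I) / (Real.log X : ℝ)) * (Real.log p) ^ 2)) := by
      congr 1
      push_cast
      ring
    unfold gt cf
    by_cases hg : GoodPrime a b p
    · by_cases h25 : 25 ≤ p
      · have hS : p ∈ SS a b := ⟨hg, h25⟩
        rw [if_pos hg, if_pos hS, if_neg (by omega), cc_eq_lp (by omega), ee]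
        unfold Pool.Agent.W263.BSD.lp
        rw [mul_comm, sub_self, norm_zero]
      · have hS : p ∉ SS a b := fun h => h25 h.2
        rw [if_pos hg, if_neg hS, if_pos (by omega), Complex.ofReal_zero, zero_mul, sub_zero]
        rw [norm_mul, Complex.norm_real, Real.norm_eq_abs]
        have h1 : ‖exp (-((1 + τ * I) * ((Real.log p) ^ 2 / Real.log X : ℝ)))‖ ≤ 1 := by
          rw [Complex.norm_exp, Complex.neg_re, Complex.re_mul_ofReal]
          apply Real.exp_le_one_iff.2
          have : 0 ≤ (Real.log p) ^ 2 / Real.log X := by positivity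
          simp
          exact this
        exact mul_le_of_le_one_left (abs_nonneg _) h1
    · have hS : p ∉ SS a b := fun h => hg h.1
      rw [if_neg hg, if_neg hS, Complex.ofReal_zero, zero_mul, sub_zero, norm_zero]
      split_ifs
      · exact abs_nonneg _
      · exact le_rfl
  refine (norm_sum_le _ _).trans ((Finset.sum_le_sum key).trans ?_)
  rw [← Finset.sum_filter]
  refine Finset.sum_le_sum_of_subset_of_nonneg ?_ fun _ _ _ => abs_nonneg _
  intro p hp
  rw [Finset.mem_filter] at hp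
  exact Finset.mem_range.2 hp.2

/-- the finite sum is the full sum up to a bounded amount -/
theorem gsum_le (hF : IsLSeries a b F) : ∃ C : ℝ, ∀ τ X : ℝ, 1 < X →
    ‖gsum a b τ X - gs (fun p : ℕ => Real.log p) (cf a b) ((1 + τ * I) / Real.log X)‖ ≤ C := by
  refine ⟨∑ p ∈ Finset.range 25, |lp a b p| + 2, fun τ X hX => ?_⟩
  have h1 := small_le (a := a) (b := b) τ hX
  have h2 := trunc_le hF τ hX
  rw [norm_sub_rev] at h2
  have e : gsum a b τ X - gs (fun p : ℕ => Real.log p) (cf a b) ((1 + τ * I) / Real.log X) =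
    (gsum a b τ X - ∑ p ∈ Finset.range (⌊X⌋₊ + 1), gt a b τ (Real.log X) p) +
    (∑ p ∈ Finset.range (⌊X⌋₊ + 1), gt a b τ (Real.log X) p -
      gs (fun p : ℕ => Real.log p) (cf a b) ((1 + τ * I) / Real.log X)) := by ring
  rw [e]
  exact (norm_add_le _ _).trans (add_le_add h1 h2)

end Pool.Agent.D0H40.GC
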