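import Pool.Agent.W189.ML.Star

/-! Gaussian sums of generalised Dirichlet coefficients as integrals over a vertical line. -/

set_option autoImplicit false

namespace Pool.Agent.D0H40.GC

open Complex MeasureTheory Filter Topology Set
open Pool.Agent.W189.ML (ser)

/-- Dirichlet coefficients `c i` with frequencies `lam i`; the function `Φ` is the exponential of
`G` minus the Dirichlet series. -/
structure Dat (lam : ℕ → ℝ) (c : ℕ → ℝ) (G Φ : ℂ → ℂ) : Prop where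
  lam_pos : ∀ i, 0 ≤ lam i
  sum : Summable fun i => |c i| * Real.exp (-(2 * lam i))
  Gd : ∀ w : ℂ, 0 < w.re → DifferentiableAt ℂ G w
  Gb : ∀ R : ℝ, 0 ≤ R → ∃ C : ℝ, ∀ w : ℂ, 0 < w.re → ‖w‖ ≤ R * w.re → ‖G w‖ ≤ C
  Φd : Differentiable ℂ Φ
  eq : ∀ w : ℂ, 2 < w.re → exp (G w - ser lam c w) = Φ w

/-- a function `S` in place of the Dirichlet series -/
structure Dat2 (S G Φ : ℂ → ℂ) : Prop where
  Sd : DifferentiableOn ℂ S {w | 2 < w.re}
  Sb : ∃ M : ℝ, 0 ≤ M ∧ ∀ w : ℂ, w.re = 3 → ‖S w‖ ≤ M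
  Gd : ∀ w : ℂ, 0 < w.re → DifferentiableAt ℂ G w
  Gb : ∀ R : ℝ, 0 ≤ R → ∃ C : ℝ, ∀ w : ℂ, 0 < w.re → ‖w‖ ≤ R * w.re → ‖G w‖ ≤ C
  Φd : Differentiable ℂ Φ
  eq : ∀ w : ℂ, 2 < w.re → exp (G w - S w) = Φ w

/-- the Gaussian sum -/
noncomputable def gs (lam c : ℕ → ℝ) (s : ℂ) : ℂ := ∑' i, (c i : ℂ) * exp (-(s * (lam i) ^ 2))

variable {lam c : ℕ → ℝ} {G Φ : ℂ → ℂ}

theorem Dat.term_le (D : Dat lam c G Φ) {w : ℂ} (hw : 2 ≤ w.re) (i : ℕ) :
    ‖(c i : ℂ) * exp (-(w * lam i))‖ ≤ |c i| * Real.exp (-(2 * lam i)) := by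
  rw [norm_mul, Complex.norm_real, Real.norm_eq_abs, Complex.norm_exp]
  refine mul_le_mul_of_nonneg_left ?_ (abs_nonneg _)
  apply Real.exp_le_exp.2
  have : (-(w * lam i)).re = -(w.re * lam i) := by simp
  rw [this]
  nlinarith [D.lam_pos i]

theorem Dat.ser_le (D : Dat lam c G Φ) {w : ℂ} (hw : 2 ≤ w.re) :
    ‖ser lam c w‖ ≤ ∑' i, |c i| * Real.exp (-(2 * lam i)) :=
  tsum_of_norm_bounded D.sum.hasSum fun i => D.term_le hw i

theorem Dat.ser_diff (D : Dat lam c G Φ) : DifferentiableOn ℂ (ser lam c) {w | 2 < w.re} := by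
  unfold ser
  refine differentiableOn_tsum_of_summable_norm D.sum (fun i => by fun_prop)
    (isOpen_lt continuous_const Complex.continuous_re) fun i w hw => D.term_le (le_of_lt hw) i

theorem exp_sq_le {σ x : ℝ} (hσ : 0 < σ) :
    Real.exp (-(σ * x ^ 2)) ≤ Real.exp (1 / σ) * Real.exp (-(2 * x)) := by
  rw [← Real.exp_add]
  apply Real.exp_le_exp.2
  have h : 0 ≤ (σ * x - 1) ^ 2 / σ := by positivity
  have h2 : (σ * x - 1) ^ 2 / σ = σ * x ^ 2 - 2 * x + 1 / σ := by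
    field_simp
    ring
  linarith

theorem norm_gs_term (s : ℂ) (i : ℕ) : ‖(c i : ℂ) * exp (-(s * (lam i) ^ 2))‖ =
    |c i| * Real.exp (-(s.re * lam i ^ 2)) := by
  rw [norm_mul, Complex.norm_real, Real.norm_eq_abs, Complex.norm_exp]
  congr 2
  have : (-(s * (lam i : ℂ) ^ 2)) = -(s * ((lam i ^ 2 : ℝ) : ℂ)) := by push_cast; ring
  rw [this, Complex.neg_re, Complex.re_mul_ofReal]

theorem Dat.gs_term_le (D : Dat lam c G Φ) {s : ℂ} (hs : 0 < s.re) (i : ℕ) :
    ‖(c i : ℂ) * exp (-(s * (lam i) ^ 2))‖ ≤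
      Real.exp (1 / s.re) * (|c i| * Real.exp (-(2 * lam i))) := by
  rw [norm_gs_term]
  calc |c i| * Real.exp (-(s.re * lam i ^ 2)) ≤
      |c i| * (Real.exp (1 / s.re) * Real.exp (-(2 * lam i))) :=
        mul_le_mul_of_nonneg_left (exp_sq_le hs) (abs_nonneg _)
    _ = _ := by ring

theorem Dat.gs_summable (D : Dat lam c G Φ) {s : ℂ} (hs : 0 < s.re) :
    Summable fun i => ‖(c i : ℂ) * exp (-(s * (lam i) ^ 2))‖ :=
  Summable.of_nonneg_of_le (fun i => norm_nonneg _) (fun i => D.gs_term_le hs i)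
    (D.sum.mul_left _)

/-- the kernel `exp (β w²)` on the line `Re w = 3` -/
theorem kern_eq (β : ℂ) (y : ℝ) (u : ℂ) :
    exp (β * (3 + y * I) ^ 2) * exp (-((3 + y * I) * u)) =
      exp ((-β) * (y : ℂ) ^ 2 + (I * (6 * β - u)) * y + (9 * β - 3 * u)) := by
  rw [← Complex.exp_add]
  congr 1
  have := Complex.I_sq
  linear_combination (β * (y : ℂ) ^ 2) * this

theorem kern_int {β : ℂ} (hβ : 0 < β.re) (u : ℂ) :
    Integrable fun y : ℝ => exp (β * (3 + y * I) ^ 2) * exp (-((3 + y * I) * u)) := by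
  simp only [kern_eq]
  exact integrable_cexp_quadratic (by simpa using hβ) _ _

theorem kern_integral {β : ℂ} (hβ : 0 < β.re) (u : ℂ) :
    ∫ y : ℝ, exp (β * (3 + y * I) ^ 2) * exp (-((3 + y * I) * u)) =
      (Real.pi / β) ^ (1 / 2 : ℂ) * exp (-(u ^ 2 / (4 * β))) := by
  simp only [kern_eq]
  have hb : β ≠ 0 := by rintro rfl; simp at hβ
  rw [integral_cexp_quadratic (by simpa using hβ)]
  rw [neg_neg]
  congr 2
  have := Complex.I_sq
  field_simp
  linear_combination (6 * β - u) ^ 2 * this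

theorem norm_norm {β : ℂ} : ‖((Real.pi : ℂ) / β) ^ (1 / 2 : ℂ)‖ = √(Real.pi / ‖β‖) := by
  have : (1 / 2 : ℂ) = ((1 / 2 : ℝ) : ℂ) := by push_cast; rfl
  rw [this, Complex.norm_cpow_real, norm_div, Complex.norm_real, Real.norm_eq_abs,
    abs_of_pos Real.pi_pos, Real.sqrt_eq_rpow]

/-- the integrand -/
noncomputable def ig (β : ℂ) (S : ℂ → ℂ) (y : ℝ) : ℂ := exp (β * (3 + y * I) ^ 2) * S (3 + y * I)

/-- **The Gaussian sum as an integral.** -/
theorem Dat.gs_eq (D : Dat lam c G Φ) {β : ℂ} (hβ : 0 < β.re) :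
    ∫ y : ℝ, ig β (ser lam c) y = (Real.pi / β) ^ (1 / 2 : ℂ) * gs lam c (1 / (4 * β)) := by
  set F : ℕ → ℝ → ℂ := fun i y =>
    (c i : ℂ) * (exp (β * (3 + y * I) ^ 2) * exp (-((3 + y * I) * lam i))) with hF
  have hint : ∀ i, Integrable (F i) := fun i => (kern_int hβ _).const_mul _
  have h0 : Integrable fun y : ℝ => exp (β * (3 + y * I) ^ 2) := by
    have := kern_int hβ 0
    simpa using this
  have hn : ∀ i y, ‖F i y‖ = |c i| * Real.exp (-(3 * lam i)) * ‖exp (β * (3 + y * I) ^ 2)‖ := by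
    intro i y
    rw [hF]
    simp only
    rw [norm_mul, norm_mul, Complex.norm_real, Real.norm_eq_abs, Complex.norm_exp (-(_ * _))]
    have : (-((3 + (y : ℂ) * I) * lam i)).re = -(3 * lam i) := by simp
    rw [this]
    ring
  have hs : Summable fun i => ∫ y, ‖F i y‖ := by
    simp only [hn, integral_const_mul]
    refine Summable.mul_right _ ?_
    refine Summable.of_nonneg_of_le (fun i => by positivity) (fun i => ?_) D.sum
    refine mul_le_mul_of_nonneg_left ?_ (abs_nonneg _)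
    apply Real.exp_le_exp.2
    have := D.lam_pos i
    linarith
  have h := hasSum_integral_of_summable_integral_norm hint hs
  have e1 : ∀ y : ℝ, ∑' i, F i y = ig β (ser lam c) y := by
    intro y
    unfold ig ser
    rw [← tsum_mul_left]
    refine tsum_congr fun i => ?_
    rw [hF]
    ring
  have e2 : ∀ i, ∫ y, F i y = (Real.pi / β) ^ (1 / 2 : ℂ) *
      ((c i : ℂ) * exp (-(1 / (4 * β) * (lam i) ^ 2))) := by
    intro i
    rw [hF]
    simp only
    rw [integral_const_mul, kern_integral hβ]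
    have : ((lam i : ℂ)) ^ 2 / (4 * β) = 1 / (4 * β) * (lam i) ^ 2 := by ring
    rw [this]
    ring
  simp only [e1, e2] at h
  unfold gs
  rw [← tsum_mul_left]
  exact h.tsum_eq.symm

theorem Dat2.ig_int {S G Φ : ℂ → ℂ} (D : Dat2 S G Φ) {β : ℂ} (hβ : 0 < β.re) :
    Integrable (ig β S) := by
  have h0 : Integrable fun y : ℝ => exp (β * (3 + y * I) ^ 2) := by
    have := kern_int hβ 0
    simpa using this
  have hc : Continuous fun y : ℝ => S (3 + y * I) := by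
    have h1 : ContinuousOn S {w | 2 < w.re} := D.Sd.continuousOn
    rw [← continuousOn_univ]
    exact h1.comp (by fun_prop) fun y _ => by simp; norm_num
  obtain ⟨M, -, hM⟩ := D.Sb
  exact h0.mul_bdd (c := M) hc.aestronglyMeasurable
    (Eventually.of_forall fun y => hM _ (by simp))

theorem Dat.two (D : Dat lam c G Φ) : Dat2 (ser lam c) G Φ where
  Sd := D.ser_diff
  Sb := ⟨∑' i, |c i| * Real.exp (-(2 * lam i)), tsum_nonneg fun i => by positivity,
    fun w hw => D.ser_le (by rw [hw]; norm_num)⟩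
  Gd := D.Gd
  Gb := D.Gb
  Φd := D.Φd
  eq := D.eq

theorem Dat.ig_int (D : Dat lam c G Φ) {β : ℂ} (hβ : 0 < β.re) : Integrable (ig β (ser lam c)) :=
  D.two.ig_int hβ

theorem int_one {β : ℂ} (hβ : 0 < β.re) :
    ∫ y : ℝ, exp (β * (3 + y * I) ^ 2) = (Real.pi / β) ^ (1 / 2 : ℂ) := by
  have h := kern_integral hβ 0
  simpa using h

end Pool.Agent.D0H40.GC
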