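import Pool.Agent.D0H40.GC.Conv

/-!
# Landau's theorem for Laplace integrals with a multiplier

(The proof is that of `Pool.Agent.W334.BSD.nonvanishing_of_bound`.)
-/

set_option autoImplicit false
open MeasureTheory Set Filter Topology ProbabilityTheory

namespace Pool.Agent.D0H40.GC

open Pool.Agent.W334.BSD (Tame LT_add LT_entire RHP RHP_open halfplane_open halfplane_convex
  halfplane_preconnected exists_log log_unique landau_mgf)

noncomputable section

/-- **Landau's theorem** for Laplace integrals, applied to a logarithm. -/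
theorem nonvanishing_mult {T : ℝ → ℝ} {C v0 : ℝ} (hT : Tame T C)
    (hpos : ∀ v, v0 ≤ v → 0 ≤ T v) {Φ Λ Mu : ℂ → ℂ}
    (hMu : DifferentiableOn ℂ Mu RHP) (hMu0 : ∀ q ∈ RHP, Mu q ≠ 0)
    (hMur : ∀ x : ℝ, 0 < x → ∃ y : ℝ, 0 ≤ y ∧ Mu x = (y : ℂ))
    (hΦ : DifferentiableOn ℂ Φ RHP) (hΛ : DifferentiableOn ℂ Λ RHP)
    (h : ∀ q : ℂ, 1 < q.re → Φ q = Complex.exp (Mu q * W334.BSD.LT T q - Λ q)) :
    ∀ q ∈ RHP, Φ q ≠ 0 := by
  -- split `T`
  set v1 : ℝ := max v0 0 with hv1
  have hv10 : 0 ≤ v1 := le_max_right _ _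
  set T1 : ℝ → ℝ := (Iio v1).indicator T with hT1
  set T2 : ℝ → ℝ := (Ici v1).indicator T with hT2
  have hT1t : Tame T1 C := ⟨hT.meas.indicator measurableSet_Iio, fun t ht => by
    rw [hT1]
    by_cases hm : t ∈ Iio v1
    · rw [indicator_of_mem hm]; exact hT.bound t ht
    · rw [indicator_of_notMem hm, abs_zero]; exact mul_nonneg hT.C_nonneg (Real.exp_pos _).le⟩
  have hT2t : Tame T2 C := ⟨hT.meas.indicator measurableSet_Ici, fun t ht => by
    rw [hT2]
    by_cases hm : t ∈ Ici v1
    · rw [indicator_of_mem hm]; exact hT.bound t ht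
    · rw [indicator_of_notMem hm, abs_zero]; exact mul_nonneg hT.C_nonneg (Real.exp_pos _).le⟩
  have hT2nn : ∀ t, 0 ≤ T2 t := by
    intro t
    rw [hT2]
    by_cases hm : t ∈ Ici v1
    · rw [indicator_of_mem hm]; exact hpos t ((le_max_left _ _).trans hm)
    · rw [indicator_of_notMem hm]
  have hsplit : T = fun t => T1 t + T2 t := by
    funext t
    rw [hT1, hT2]
    by_cases hm : t ∈ Iio v1
    · rw [indicator_of_mem hm, indicator_of_notMem (by simpa using hm), add_zero]
    · rw [indicator_of_notMem hm, indicator_of_mem (by simpa using hm), zero_add]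
  obtain ⟨hE1, -⟩ := LT_entire hT1t (v0 := v1) (fun v hv => by
    rw [hT1, indicator_of_notMem (by simpa using hv)])
  -- the measure
  set μ : Measure ℝ := (volume.restrict (Ioi (0:ℝ))).withDensity (fun x => ENNReal.ofReal (T2 x)) with hμ
  have hμnn : ∀ᵐ x ∂μ, 0 ≤ x := by
    rw [hμ]
    refine (withDensity_absolutelyContinuous _ _).ae_le ?_
    exact (ae_restrict_iff' measurableSet_Ioi).2 (Eventually.of_forall fun t ht => le_of_lt ht)
  have hmgf : ∀ q : ℂ, complexMGF id μ (-q) = W334.BSD.LT T2 q := by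
    intro q
    unfold complexMGF W334.BSD.LT
    rw [hμ, integral_withDensity_eq_integral_toReal_smul (hT2t.meas.ennreal_ofReal)
      (Eventually.of_forall fun x => ENNReal.ofReal_lt_top)]
    congr 1
    funext x
    rw [ENNReal.toReal_ofReal (hT2nn x), Complex.real_smul]
    congr 2
    simp
  have hset : ∀ x : ℝ, -x ∈ integrableExpSet id μ ↔
      IntegrableOn (fun t => T2 t * Real.exp (-(x * t))) (Ioi 0) := by
    intro x
    show Integrable (fun t => Real.exp (-x * id t)) μ ↔ _
    rw [hμ, integrable_withDensity_iff_integrable_smul' (hT2t.meas.ennreal_ofReal)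
      (Eventually.of_forall fun x => ENNReal.ofReal_lt_top)]
    have e : (fun t => (ENNReal.ofReal (T2 t)).toReal • Real.exp (-x * id t)) =
        fun t => T2 t * Real.exp (-(x * t)) := by
      funext t
      rw [ENNReal.toReal_ofReal (hT2nn t), smul_eq_mul, id, neg_mul]
    rw [e]
    rfl
  have hbig : ∀ x : ℝ, 1 < x → -x ∈ integrableExpSet id μ := by
    intro x hx
    rw [hset]
    have h1 := (hT2t.integrableOn (s := (x : ℂ)) (by simpa using hx)).re
    refine h1.congr (Eventually.of_forall fun t => ?_)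
    have e : (T2 t : ℂ) * Complex.exp (-((x:ℂ) * t)) = ((T2 t * Real.exp (-(x * t)) : ℝ) : ℂ) := by
      push_cast; ring
    show (_ : ℂ).re = _
    rw [e, Complex.ofReal_re]
  have hconv := convex_integrableExpSet (X := (id : ℝ → ℝ)) (μ := μ)
  -- the abscissa
  set S : Set ℝ := {x | 0 < x ∧ -x ∈ integrableExpSet id μ} with hS
  have hS2 : (2:ℝ) ∈ S := ⟨by norm_num, hbig 2 (by norm_num)⟩
  have hSb : BddBelow S := ⟨0, fun x hx => hx.1.le⟩
  set σ : ℝ := sInf S with hσ
  have hσ0 : 0 ≤ σ := le_csInf ⟨2, hS2⟩ fun x hx => hx.1.le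
  have hint : ∀ x : ℝ, σ < x → -x ∈ interior (integrableExpSet id μ) := by
    intro x hx
    obtain ⟨y, hyS, hyx⟩ := exists_lt_of_csInf_lt ⟨2, hS2⟩ hx
    have h1 : -(x + 2) ∈ integrableExpSet id μ := hbig _ (by linarith)
    have h2 : Icc (-(x+2)) (-y) ⊆ integrableExpSet id μ :=
      hconv.ordConnected.out h1 hyS.2
    have h3 : Ioo (-(x+2)) (-y) ⊆ interior (integrableExpSet id μ) :=
      interior_maximal (Ioo_subset_Icc_self.trans h2) isOpen_Ioo
    exact h3 ⟨by linarith, by linarith⟩
  -- the continuation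
  set L : ℂ → ℂ := fun q => W334.BSD.LT T1 q + complexMGF id μ (-q) with hL
  have hLd : DifferentiableOn ℂ L {q : ℂ | σ < q.re} := by
    intro q hq
    refine ((hE1 q).add ?_).differentiableWithinAt
    have h1 : DifferentiableAt ℂ (complexMGF id μ) (-q) :=
      (hasDerivAt_complexMGF (by simpa using hint q.re hq)).differentiableAt
    exact h1.comp q differentiableAt_id.neg
  have hLT : ∀ q : ℂ, 1 < q.re → L q = W334.BSD.LT T q := by
    intro q hq
    rw [hL, hsplit]
    simp only
    rw [LT_add hT1t hT2t hq, hmgf]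
  have hsub : {q : ℂ | σ < q.re} ⊆ RHP := fun q hq => lt_of_le_of_lt hσ0 hq
  have hψd : DifferentiableOn ℂ (fun q => Complex.exp (Mu q * L q - Λ q)) {q : ℂ | σ < q.re} :=
    (((hMu.mono hsub).mul hLd).sub (hΛ.mono hsub)).cexp
  have hψ : ∀ q : ℂ, σ < q.re → Φ q = Complex.exp (Mu q * L q - Λ q) := by
    have h1 : AnalyticOnNhd ℂ Φ {q : ℂ | σ < q.re} :=
      (hΦ.mono hsub).analyticOnNhd (halfplane_open σ)
    have h2 := hψd.analyticOnNhd (halfplane_open σ)
    have h3 := h1.eqOn_of_preconnected_of_eventuallyEq h2 (halfplane_preconnected σ)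
      (z₀ := ((σ + 2 : ℝ) : ℂ)) (by simp) (by
        filter_upwards [(halfplane_open 1).mem_nhds
          (show ((σ + 2 : ℝ) : ℂ) ∈ {q : ℂ | 1 < q.re} by simp; linarith)] with w hw
        rw [h w hw, hLT w hw])
    exact fun q hq => h3 hq
  -- the abscissa is zero
  have hσz : σ = 0 := by
    by_contra hne
    have hσp : 0 < σ := lt_of_le_of_ne hσ0 (Ne.symm hne)
    have hσR : (σ : ℂ) ∈ RHP := by show 0 < (σ : ℂ).re; simpa using hσp
    have hΦc : ContinuousAt Φ σ := (hΦ.differentiableAt (RHP_open.mem_nhds hσR)).continuousAt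
    by_cases hΦ0 : Φ σ = 0
    · -- the real part would tend to `-∞`
      have hcont : ContinuousAt (fun q : ℂ => (Mu q * W334.BSD.LT T1 q - Λ q).re) σ := by
        have h1 : ContinuousAt Λ σ := (hΛ.differentiableAt (RHP_open.mem_nhds hσR)).continuousAt
        have h2 : ContinuousAt Mu σ := (hMu.differentiableAt (RHP_open.mem_nhds hσR)).continuousAt
        exact Complex.continuous_re.continuousAt.comp
          ((h2.mul (hE1 _).continuousAt).sub h1)
      have hev1 : ∀ᶠ q : ℂ in 𝓝 (σ : ℂ), (Mu σ * W334.BSD.LT T1 σ - Λ σ).re - 1 < (Mu q * W334.BSD.LT T1 q - Λ q).re :=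
        hcont.eventually (lt_mem_nhds (by linarith))
      set K : ℝ := (Mu σ * W334.BSD.LT T1 σ - Λ σ).re - 1 with hK
      have hev2 : ∀ᶠ q : ℂ in 𝓝 (σ : ℂ), ‖Φ q‖ < Real.exp K := by
        have h1 : ContinuousAt (fun q => ‖Φ q‖) σ := hΦc.norm
        refine h1.eventually (gt_mem_nhds ?_)
        simp only
        rw [hΦ0, norm_zero]
        exact Real.exp_pos _
      have hof : Tendsto (fun x : ℝ => (x : ℂ)) (𝓝[>] σ) (𝓝 (σ : ℂ)) :=
        (Complex.continuous_ofReal.tendsto σ).mono_left nhdsWithin_le_nhds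
      obtain ⟨x, hx1, hx2, hx3⟩ := ((hof.eventually hev1).and ((hof.eventually hev2).and
        (self_mem_nhdsWithin : ∀ᶠ x in 𝓝[>] σ, x ∈ Ioi σ))).exists
      have hx4 := hψ (x : ℂ) (by simpa using hx3)
      have hx5 : ‖Φ x‖ = Real.exp ((Mu x * L x - Λ x).re) := by
        rw [hx4, Complex.norm_exp]
      have hx0 : 0 < x := lt_trans hσp hx3
      obtain ⟨y, hy0, hy⟩ := hMur x hx0
      have hx6 : (Mu x * L x - Λ x).re = (Mu x * W334.BSD.LT T1 x - Λ x).re + y * mgf id μ (-x) := by
        rw [hL, hy]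
        simp only
        have e : complexMGF id μ (-(x:ℂ)) = ((mgf id μ (-x) : ℝ) : ℂ) := by
          rw [← complexMGF_ofReal]; push_cast; rfl
        rw [e, mul_add, ← Complex.ofReal_mul]
        simp only [Complex.sub_re, Complex.add_re, Complex.ofReal_re]
        ring
      have hx7 : 0 ≤ y * mgf id μ (-x) := mul_nonneg hy0 mgf_nonneg
      have hx8 : Real.exp K ≤ ‖Φ x‖ := by
        rw [hx5]
        apply Real.exp_le_exp.2
        rw [hx6]
        linarith
      linarith
    · -- the transform continues analytically past `σ`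
      have hne' : ∀ᶠ q : ℂ in 𝓝 (σ : ℂ), Φ q ≠ 0 ∧ q ∈ RHP :=
        (hΦc.eventually_ne hΦ0).and (RHP_open.mem_nhds hσR)
      obtain ⟨ε, hε, hball⟩ := Metric.eventually_nhds_iff_ball.1 hne'
      obtain ⟨g, hg1, hg2⟩ := exists_log (U := Metric.ball (σ:ℂ) ε) Metric.isOpen_ball
        (convex_ball _ _) ⟨_, Metric.mem_ball_self hε⟩
        (hΦ.mono fun q hq => (hball q hq).2) (fun q hq => (hball q hq).1)
      set W : Set ℂ := Metric.ball (σ:ℂ) ε ∩ {q : ℂ | σ < q.re} with hW
      have hWo : IsOpen W := Metric.isOpen_ball.inter (halfplane_open σ)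
      have hWc : IsPreconnected W := ((convex_ball _ _).inter (halfplane_convex σ)).isPreconnected
      set x0 : ℝ := σ + ε / 4 with hx0
      have hx0W : (x0 : ℂ) ∈ W := by
        refine ⟨?_, ?_⟩
        · rw [Metric.mem_ball, dist_eq_norm, ← Complex.ofReal_sub, Complex.norm_real, hx0,
            Real.norm_eq_abs, abs_of_nonneg (by linarith)]
          linarith
        · show σ < (x0 : ℂ).re
          rw [Complex.ofReal_re, hx0]; linarith
      have huniq := log_unique hWo hWc (f := fun q => Mu q * L q - Λ q) (g := g)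
        ((((hMu.mono hsub).mul hLd).sub (hΛ.mono hsub)).mono fun q hq => hq.2)
        (hg1.mono fun q hq => hq.1) (fun q hq => by
          rw [hg2 q hq.1, hψ q hq.2]) hx0W
      set c : ℂ := Mu x0 * L x0 - Λ x0 - g x0 with hc
      have hLeq : ∀ q ∈ W, L q = (g q + c + Λ q) / Mu q := by
        intro q hq
        have h1 := huniq q hq
        have hq0 : Mu q ≠ 0 := hMu0 q (hsub hq.2)
        rw [eq_div_iff hq0]
        linear_combination h1
      -- the analytic function in the variable `-q`
      have hmem := landau_mgf hμnn (t := -x0) (R := ε / 2) (hint x0 (by rw [hx0]; linarith))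
        (H := fun z => (g (-z) + c + Λ (-z)) / Mu (-z) - W334.BSD.LT T1 (-z)) ?_ ?_
        (u := -(σ - min (ε / 8) (σ / 2))) ?_ ?_
      · have hmin : 0 < min (ε / 8) (σ / 2) := lt_min (by positivity) (by positivity)
        have h3 : σ - min (ε / 8) (σ / 2) ∈ S := by
          refine ⟨?_, hmem⟩
          have := min_le_right (ε / 8) (σ / 2)
          linarith
        have h4 := csInf_le hSb h3
        rw [← hσ] at h4
        linarith
      · have hsubb : ∀ z ∈ Metric.ball ((-x0 : ℝ) : ℂ) (ε / 2), -z ∈ Metric.ball (σ:ℂ) ε := by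
          intro z hz
          rw [Metric.mem_ball, dist_eq_norm] at hz ⊢
          have e : -z - (σ:ℂ) = -(z - ((-x0 : ℝ) : ℂ)) + ((ε / 4 : ℝ) : ℂ) := by
            rw [hx0]; push_cast; ring
          rw [e]
          refine (norm_add_le _ _).trans_lt ?_
          rw [norm_neg, Complex.norm_real, Real.norm_of_nonneg (by positivity)]
          linarith
        intro z hz
        have hz' := hsubb z hz
        have hzR := (hball _ hz').2
        have d1 : DifferentiableAt ℂ (fun z => g (-z)) z :=
          (hg1.differentiableAt (Metric.isOpen_ball.mem_nhds hz')).comp z differentiableAt_id.neg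
        have d2 : DifferentiableAt ℂ (fun z => Λ (-z)) z :=
          (hΛ.differentiableAt (RHP_open.mem_nhds hzR)).comp z differentiableAt_id.neg
        have d3 : DifferentiableAt ℂ (fun z => W334.BSD.LT T1 (-z)) z := (hE1 _).comp z differentiableAt_id.neg
        have hz0 : Mu (-z) ≠ 0 := hMu0 _ hzR
        have d4 : DifferentiableAt ℂ (fun z => Mu (-z)) z :=
          (hMu.differentiableAt (RHP_open.mem_nhds hzR)).comp z differentiableAt_id.neg
        exact ((((d1.add_const c).add d2).div d4 hz0).sub d3).differentiableWithinAt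
      · have hWn : ∀ᶠ z : ℂ in 𝓝 ((-x0 : ℝ) : ℂ), -z ∈ W := by
          have : Tendsto (fun z : ℂ => -z) (𝓝 ((-x0 : ℝ) : ℂ)) (𝓝 (x0 : ℂ)) := by
            have := (continuous_neg (G := ℂ)).tendsto ((-x0 : ℝ) : ℂ)
            simpa using this
          exact this.eventually (hWo.mem_nhds hx0W)
        filter_upwards [hWn] with z hz
        have h1 := hLeq (-z) hz
        rw [← h1, hL]
        simp
      · have := lt_min (by positivity : 0 < ε / 8) (by positivity : 0 < σ / 2)
        rw [hx0]; linarith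
      · have := min_le_left (ε / 8) (σ / 2)
        rw [hx0]; linarith
  intro q hq
  rw [hψ q (by rw [hσz]; exact hq)]
  exact Complex.exp_ne_zero _

end

end Pool.Agent.D0H40.GC
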