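import Pool.Agent.D0H40.GC.Grow

/-! The asymptotic law when there are no zeros in the closed sector. -/

set_option autoImplicit false

namespace Pool.Agent.D0H40.GC

open Complex MeasureTheory Filter Topology Set
open Pool.Agent.W189.ML (ser)
open Pool.Agent.W334.BSD (exists_log log_unique)
open scoped ComplexConjugate

variable {S G Φ : ℂ → ℂ} {d : ℂ}

/-- the point `x (1 + i u)` -/
noncomputable def pt (x u : ℝ) : ℂ := x * (1 + u * I)

@[simp] theorem pt_re (x u : ℝ) : (pt x u).re = x := by simp [pt]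

@[simp] theorem pt_im (x u : ℝ) : (pt x u).im = x * u := by simp [pt]

theorem pt_of {z : ℂ} (h : z.re ≠ 0) : pt z.re (z.im / z.re) = z := by
  apply Complex.ext
  · simp
  · simp; field_simp

theorem norm_exp_pt (r x u : ℝ) : ‖exp (r * pt x u ^ 2)‖ = Real.exp (r * (x ^ 2 * (1 - u ^ 2))) := by
  rw [norm_exp_sq, pt_re, pt_im]
  congr 1
  ring

theorem log_pt_le {x u s ρ : ℝ} (hx : 0 < x) (hu : |u| ≤ s) (hρ : 0 < ρ) (h1 : 1 ≤ ρ * x) :
    ‖log (pt x u) + (Real.log ρ : ℂ)‖ ≤ ρ * x + (s + 4) := by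
  have hs : 0 ≤ s := (abs_nonneg u).trans hu
  have hz : pt x u ≠ 0 := by
    intro h0
    have := congrArg Complex.re h0
    simp at this
    linarith
  have hn : ‖pt x u‖ = x * √(1 + u ^ 2) := by
    unfold pt
    rw [norm_mul, Complex.norm_real, Real.norm_eq_abs, abs_of_pos hx, Complex.norm_def,
      Complex.normSq_apply]
    congr 2
    simp
    ring
  have h2 : 1 ≤ √(1 + u ^ 2) := by
    rw [Real.one_le_sqrt]
    nlinarith [sq_nonneg u]
  have h3 : Real.log (√(1 + u ^ 2)) ≤ s := by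
    have h4 : √(1 + u ^ 2) ≤ 1 + |u| := by
      rw [Real.sqrt_le_left (by positivity)]
      have : |u| ^ 2 = u ^ 2 := sq_abs u
      nlinarith [abs_nonneg u]
    have h5 := Real.log_le_sub_one_of_pos (show 0 < √(1 + u ^ 2) by linarith)
    linarith
  have h3' : 0 ≤ Real.log (√(1 + u ^ 2)) := Real.log_nonneg h2
  have e1 : log (pt x u) + (Real.log ρ : ℂ) =
      ((Real.log (ρ * x) + Real.log (√(1 + u ^ 2)) : ℝ) : ℂ) + (arg (pt x u) : ℝ) * I := by
    apply Complex.ext
    · simp only [Complex.add_re, Complex.log_re, Complex.ofReal_re, Complex.re_ofReal_mul,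
        Complex.I_re, mul_zero, add_zero]
      rw [hn, Real.log_mul hx.ne' (by linarith : √(1 + u ^ 2) ≠ 0), Real.log_mul hρ.ne' hx.ne']
      ring
    · simp [Complex.log_im]
  rw [e1]
  refine (norm_add_le _ _).trans ?_
  rw [norm_mul, Complex.norm_I, mul_one, Complex.norm_real, Complex.norm_real, Real.norm_eq_abs,
    Real.norm_eq_abs]
  have h6 : 0 ≤ Real.log (ρ * x) := Real.log_nonneg h1
  rw [abs_of_nonneg (by linarith)]
  have h7 : Real.log (ρ * x) ≤ ρ * x := by
    have := Real.log_le_sub_one_of_pos (show 0 < ρ * x by linarith)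
    linarith
  have h8 := Complex.abs_arg_le_pi (pt x u)
  have h9 := Real.pi_lt_d2
  linarith

/-- the truncated closed cone -/
def Cone (R : ℝ) : Set ℂ := {z | z.re ≤ R ∧ |z.im| ≤ z.re}

theorem Cone_convex (R : ℝ) : Convex ℝ (Cone R) := by
  intro z hz w hw s t hs ht hst
  have e1 : (s • z + t • w).re = s * z.re + t * w.re := by simp
  have e2 : (s • z + t • w).im = s * z.im + t * w.im := by simp
  show (s • z + t • w).re ≤ R ∧ |(s • z + t • w).im| ≤ (s • z + t • w).re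
  rw [e1, e2]
  constructor
  · have h1 : s * z.re ≤ s * R := mul_le_mul_of_nonneg_left hz.1 hs
    have h2 : t * w.re ≤ t * R := mul_le_mul_of_nonneg_left hw.1 ht
    have h3 : s * R + t * R = R := by rw [← add_mul, hst, one_mul]
    linarith
  · refine (abs_add_le _ _).trans ?_
    rw [abs_mul, abs_mul, abs_of_nonneg hs, abs_of_nonneg ht]
    exact add_le_add (mul_le_mul_of_nonneg_left hz.2 hs) (mul_le_mul_of_nonneg_left hw.2 ht)

theorem Cone_compact (R : ℝ) : IsCompact (Cone R) := by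
  have h1 : IsClosed (Cone R) :=
    (isClosed_le Complex.continuous_re continuous_const).inter
      (isClosed_le (Complex.continuous_im.abs) Complex.continuous_re)
  have h2 : Cone R ⊆ Metric.closedBall 0 (2 * R) := by
    intro z hz
    rw [mem_closedBall_zero_iff]
    have h3 := Complex.norm_le_abs_re_add_abs_im z
    have h4 : 0 ≤ z.re := (abs_nonneg _).trans hz.2
    rw [abs_of_nonneg h4] at h3
    have := hz.1
    have := hz.2
    linarith
  exact (isCompact_closedBall 0 (2 * R)).of_isClosed_subset h1 h2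

/-- a Gaussian integral -/
theorem g0_int {κ : ℝ} (hκ : 0 < κ) (B m : ℝ) :
    Integrable fun v : ℝ => Real.exp (-κ * v ^ 2) * (B + m * |v|) := by
  have h1 := integrable_exp_neg_mul_sq hκ
  have h2 : Integrable fun v : ℝ => |v| * Real.exp (-κ * v ^ 2) := by
    have := (integrable_mul_exp_neg_mul_sq hκ).norm
    refine this.congr (Eventually.of_forall fun v => ?_)
    show ‖v * Real.exp (-κ * v ^ 2)‖ = _
    rw [norm_mul, Real.norm_eq_abs, Real.norm_of_nonneg (Real.exp_pos _).le]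
  refine ((h1.const_mul B).add (h2.const_mul m)).congr (Eventually.of_forall fun v => ?_)
  show B * Real.exp (-κ * v ^ 2) + m * (|v| * Real.exp (-κ * v ^ 2)) = _
  ring

theorem pt_deriv_x (x u : ℝ) : HasDerivAt (fun x : ℝ => pt x u) (1 + u * I) x := by
  have h1 := (hasDerivAt_id x).ofReal_comp.mul_const (1 + (u : ℂ) * I)
  simpa [pt] using h1

theorem pt_deriv_u (x u : ℝ) : HasDerivAt (fun u : ℝ => pt x u) (x * I) u := by
  have h1 := (((hasDerivAt_id u).ofReal_comp.mul_const I).const_add 1).const_mul (x : ℂ)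
  simpa [pt] using h1

theorem pt_cont (u : ℝ) : Continuous fun x : ℝ => pt x u := by unfold pt; fun_prop

/-- the integral over a ray outside the cone -/
theorem ray_le {r κ₀ B m x₀ x₁ u : ℝ} (hr : 0 < r) (hκ : 0 < κ₀) (hB : 0 ≤ B) (hm : 0 ≤ m)
    (hx0 : 0 ≤ x₀) (h01 : x₀ ≤ x₁)
    (hu : u ^ 2 = 1 + κ₀) {U : Set ℂ} {P T : ℂ → ℂ} {κ' : ℂ} (hU : ∀ x ∈ Icc x₀ x₁, pt x u ∈ U)
    (hP : ∀ z ∈ U, HasDerivAt P (exp (r * z ^ 2) * (T z - κ')) z) (hTc : ContinuousOn T U)
    (hT : ∀ x ∈ Icc x₀ x₁, ‖T (pt x u) - κ'‖ ≤ B + m * (√r * x)) :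
    ‖P (pt x₁ u) - P (pt x₀ u)‖ ≤
      (1 + |u|) * ((∫ v, Real.exp (-κ₀ * v ^ 2) * (B + m * |v|)) / √r) := by
  have hsr : 0 < √r := Real.sqrt_pos.2 hr
  have key : ∀ x ∈ uIcc x₀ x₁, HasDerivAt (fun x : ℝ => P (pt x u))
      (exp (r * pt x u ^ 2) * (T (pt x u) - κ') * (1 + u * I)) x := by
    intro x hx
    rw [uIcc_of_le h01] at hx
    exact (hP _ (hU x hx)).comp x (pt_deriv_x x u)
  have hcont : ContinuousOn (fun x : ℝ => exp (r * pt x u ^ 2) * (T (pt x u) - κ') * (1 + u * I))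
      (uIcc x₀ x₁) := by
    rw [uIcc_of_le h01]
    have h1 : ContinuousOn (fun x : ℝ => T (pt x u)) (Icc x₀ x₁) :=
      hTc.comp (pt_cont u).continuousOn hU
    have h2 : Continuous fun x : ℝ => exp (r * pt x u ^ 2) := by
      have := pt_cont u
      fun_prop
    exact (h2.continuousOn.mul (h1.sub continuousOn_const)).mul continuousOn_const
  have hI := intervalIntegral.integral_eq_sub_of_hasDerivAt key (hcont.intervalIntegrable)
  rw [← hI]
  set g : ℝ → ℝ := fun v => Real.exp (-κ₀ * v ^ 2) * (B + m * |v|) with hg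
  have hgi := g0_int hκ B m
  have hg0 : ∀ v, 0 ≤ g v := fun v => by rw [hg]; positivity
  have hn : ‖(1 : ℂ) + u * I‖ ≤ 1 + |u| := by
    refine (norm_add_le _ _).trans ?_
    rw [norm_one, norm_mul, Complex.norm_I, mul_one, Complex.norm_real, Real.norm_eq_abs]
  have hpt : ∀ x ∈ Icc x₀ x₁, ‖exp (r * pt x u ^ 2) * (T (pt x u) - κ') * (1 + u * I)‖ ≤
      (1 + |u|) * g (√r * x) := by
    intro x hx
    have h1 := hT x hx
    have hx' : 0 ≤ x := hx0.trans hx.1
    rw [norm_mul, norm_mul, norm_exp_pt, hu]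
    have e1 : r * (x ^ 2 * (1 - (1 + κ₀))) = -κ₀ * (√r * x) ^ 2 := by
      rw [mul_pow, Real.sq_sqrt hr.le]
      ring
    rw [e1, hg]
    simp only
    rw [abs_of_nonneg (by positivity : 0 ≤ √r * x)]
    calc Real.exp (-κ₀ * (√r * x) ^ 2) * ‖T (pt x u) - κ'‖ * ‖1 + (u : ℂ) * I‖ ≤
        Real.exp (-κ₀ * (√r * x) ^ 2) * (B + m * (√r * x)) * (1 + |u|) := by gcongr
      _ = _ := by ring
  calc ‖∫ x in x₀..x₁, exp (r * pt x u ^ 2) * (T (pt x u) - κ') * (1 + u * I)‖ ≤
      ∫ x in x₀..x₁, (1 + |u|) * g (√r * x) := by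
        refine intervalIntegral.norm_integral_le_of_norm_le h01 ?_ ?_
        · refine Eventually.of_forall fun x hx => hpt x (Ioc_subset_Icc_self hx)
        · exact ((hgi.comp_mul_left' hsr.ne').const_mul _).intervalIntegrable
    _ = (1 + |u|) * ∫ x in Ioc x₀ x₁, g (√r * x) := by
        rw [intervalIntegral.integral_const_mul, intervalIntegral.integral_of_le h01]
    _ ≤ (1 + |u|) * ∫ x, g (√r * x) := by
        refine mul_le_mul_of_nonneg_left ?_ (by positivity)
        exact setIntegral_le_integral (hgi.comp_mul_left' hsr.ne')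
          (Eventually.of_forall fun x => hg0 _)
    _ = _ := by
        rw [MeasureTheory.Measure.integral_comp_mul_left, smul_eq_mul,
          abs_of_pos (inv_pos.2 hsr)]
        rw [div_eq_inv_mul]

/-- the short segment near the origin -/
theorem seg_le {r x₀ s B : ℝ} (hr : 0 < r) (hx : x₀ = 1 / √r) (hs : 0 ≤ s) {U : Set ℂ} {P T : ℂ → ℂ}
    {κ' : ℂ} (hU : ∀ u ∈ Icc (-s) s, pt x₀ u ∈ U)
    (hP : ∀ z ∈ U, HasDerivAt P (exp (r * z ^ 2) * (T z - κ')) z)
    (hT : ∀ u ∈ Icc (-s) s, ‖T (pt x₀ u) - κ'‖ ≤ B) :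
    ‖P (pt x₀ s) - P (pt x₀ (-s))‖ ≤ 3 * B * (2 * s) / √r := by
  have hsr : 0 < √r := Real.sqrt_pos.2 hr
  have hB : 0 ≤ B := (norm_nonneg _).trans (hT s ⟨by linarith, le_rfl⟩)
  have hder : ∀ u ∈ Icc (-s) s, HasDerivWithinAt (fun u : ℝ => P (pt x₀ u))
      (exp (r * pt x₀ u ^ 2) * (T (pt x₀ u) - κ') * (x₀ * I)) (Icc (-s) s) u := fun u hu =>
    ((hP _ (hU u hu)).comp u (pt_deriv_u x₀ u)).hasDerivWithinAt
  have hb : ∀ u ∈ Icc (-s) s, ‖exp (r * pt x₀ u ^ 2) * (T (pt x₀ u) - κ') * (x₀ * I)‖ ≤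
      3 * B / √r := by
    intro u hu
    have hx0 : 0 < x₀ := by rw [hx]; positivity
    rw [norm_mul, norm_mul, norm_exp_pt, norm_mul, Complex.norm_I, mul_one, Complex.norm_real,
      Real.norm_eq_abs, abs_of_pos hx0]
    have e1 : r * (x₀ ^ 2 * (1 - u ^ 2)) = 1 - u ^ 2 := by
      rw [hx, div_pow, Real.sq_sqrt hr.le]
      field_simp
    rw [e1]
    have h2 : Real.exp (1 - u ^ 2) ≤ 3 := by
      have h3 : Real.exp (1 - u ^ 2) ≤ Real.exp 1 := Real.exp_le_exp.2 (by nlinarith [sq_nonneg u])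
      have := Real.exp_one_lt_d9
      linarith
    have h4 := hT u hu
    calc Real.exp (1 - u ^ 2) * ‖T (pt x₀ u) - κ'‖ * x₀ ≤ 3 * B * x₀ := by gcongr
      _ = _ := by rw [hx, mul_one_div]
  have h5 := Convex.norm_image_sub_le_of_norm_hasDerivWithin_le hder hb
    (convex_Icc (-s) s) (x := -s) (y := s) ⟨le_rfl, by linarith⟩ ⟨by linarith, le_rfl⟩
  rw [Real.norm_eq_abs, show s - -s = 2 * s by ring, abs_of_nonneg (by linarith)] at h5
  calc _ ≤ _ := h5
    _ = _ := by ring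

end Pool.Agent.D0H40.GC
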