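import Pool.Agent.D0H40.GC.Law

/-! The asymptotic law when there are no zeros in the closed sector: main theorem. -/

set_option autoImplicit false

namespace Pool.Agent.D0H40.GC

open Complex MeasureTheory Filter Topology Set
open Pool.Agent.W189.ML (ser)
open Pool.Agent.W334.BSD (exists_log log_unique)
open scoped ComplexConjugate

variable {S G Φ : ℂ → ℂ} {d : ℂ}

/-- geometry: the truncated cone with slope slightly larger than one -/
theorem exists_slope (h : Dir d) {δ R : ℝ} (hδ : 0 < δ) (hR : 0 < R) : ∃ s : ℝ, 1 < s ∧ s ≤ 2 ∧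
    (s - 1) * R ≤ δ / 2 ∧ (d.re - |d.im|) / 2 ≤ d.re - s * |d.im| := by
  have h1 : 0 < d.re - |d.im| := by have := h.h; linarith
  set σ : ℝ := min 1 (min (δ / (2 * R)) ((d.re - |d.im|) / 2)) with hσ
  have hσ0 : 0 < σ := by
    refine lt_min one_pos (lt_min (by positivity) (by positivity))
  have hσ1 : σ ≤ 1 := min_le_left _ _
  have hσ2 : σ ≤ δ / (2 * R) := (min_le_right _ _).trans (min_le_left _ _)
  have hσ3 : σ ≤ (d.re - |d.im|) / 2 := (min_le_right _ _).trans (min_le_right _ _)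
  refine ⟨1 + σ, by linarith, by linarith, ?_, ?_⟩
  · have : σ * R ≤ δ / (2 * R) * R := mul_le_mul_of_nonneg_right hσ2 hR.le
    have e : δ / (2 * R) * R = δ / 2 := by field_simp
    rw [add_sub_cancel_left]
    linarith
  · have h2 : |d.im| ≤ 1 := by
      have := h.n
      rw [abs_le_one_iff_mul_self_le_one]
      nlinarith [sq_nonneg d.re]
    have h3 : σ * |d.im| ≤ σ * 1 := mul_le_mul_of_nonneg_left h2 hσ0.le
    linarith

theorem half_convex (d : ℂ) (σ : ℝ) : Convex ℝ {z : ℂ | σ < (d * z).re} := by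
  intro x hx y hy a b ha hb hab
  have hx' : σ < (d * x).re := hx
  have hy' : σ < (d * y).re := hy
  have e : (d * (a • x + b • y)).re = a * (d * x).re + b * (d * y).re := by
    simp only [Complex.mul_re, Complex.add_re, Complex.add_im, Complex.real_smul,
      Complex.ofReal_re, Complex.ofReal_im, Complex.mul_im]
    ring
  show σ < (d * (a • x + b • y)).re
  rw [e]
  have h1 : a * σ + b * σ = σ := by rw [← add_mul, hab, one_mul]
  rcases ha.eq_or_lt with h' | h'
  · subst h'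
    have : b = 1 := by linarith
    subst this
    linarith
  · have h2 : a * σ < a * (d * x).re := by gcongr
    have h3 : b * σ ≤ b * (d * y).re := by gcongr
    linarith

theorem slit_of (h : Dir d) {z : ℂ} (hz : 0 < (d * z).re) : z ∈ slitPlane := by
  by_cases h1 : 0 < z.re
  · exact Or.inl h1
  · right
    intro h2
    rw [Dir.mul_re, h2, mul_zero, sub_zero] at hz
    push Not at h1
    have := mul_nonpos_of_nonneg_of_nonpos h.re_pos.le h1
    linarith

theorem zt_mem {U : Set ℂ} (hU : Convex ℝ U) {y₁ y₂ : ℝ} (h12 : y₁ < y₂) (h1 : zt d y₁ ∈ U)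
    (h2 : zt d y₂ ∈ U) {y : ℝ} (hy : y ∈ Icc y₁ y₂) : zt d y ∈ U := by
  have hlt : 0 < y₂ - y₁ := by linarith
  obtain ⟨t, ht⟩ : ∃ t, t = (y - y₁) / (y₂ - y₁) := ⟨_, rfl⟩
  have ht0 : 0 ≤ t := by rw [ht]; exact div_nonneg (by linarith [hy.1]) hlt.le
  have ht1 : t ≤ 1 := by rw [ht, div_le_one hlt]; linarith [hy.2]
  have e : zt d y = (1 - t) • zt d y₁ + t • zt d y₂ := by
    have hy' : y = (1 - t) * y₁ + t * y₂ := by
      have : t * (y₂ - y₁) = y - y₁ := by rw [ht, div_mul_cancel₀ _ hlt.ne']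
      linarith
    rw [hy']
    unfold zt
    simp only [Complex.real_smul]
    push_cast
    ring
  rw [e]
  exact hU h1 h2 (by linarith) ht0 (by ring)

theorem re_pt (h : Dir d) {s : ℝ} (hs4 : (d.re - |d.im|) / 2 ≤ d.re - s * |d.im|) {x u : ℝ}
    (hx : 0 < x) (hu : |u| ≤ s) : x * ((d.re - |d.im|) / 2) ≤ (d * pt x u).re := by
  rw [Dir.mul_re, pt_re, pt_im]
  have h2 : d.im * u ≤ |d.im| * s := by
    calc d.im * u ≤ |d.im| * |u| := by rw [← abs_mul]; exact le_abs_self _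
      _ ≤ |d.im| * s := mul_le_mul_of_nonneg_left hu (abs_nonneg _)
  have h3 : x * (d.im * u) ≤ x * (|d.im| * s) := mul_le_mul_of_nonneg_left h2 hx.le
  have h4 : x * ((d.re - |d.im|) / 2) ≤ x * (d.re - s * |d.im|) := mul_le_mul_of_nonneg_left hs4 hx.le
  have e : d.re * x - d.im * (x * u) = x * (d.re - s * |d.im|) + (x * (|d.im| * s) - x * (d.im * u)) := by
    ring
  rw [e]
  linarith

theorem cone_pt {δ R s : ℝ} (hs3 : (s - 1) * R ≤ δ / 2) (hs1 : 1 < s) {x u : ℝ} (hx : 0 < x)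
    (hxR : x ≤ R) (hu : |u| ≤ s) : pt x u ∈ Metric.cthickening (δ / 2) (Cone R) := by
  set u' : ℝ := max (-1) (min 1 u) with hu'
  have hu1 : |u'| ≤ 1 := by
    rw [abs_le]
    exact ⟨le_max_left _ _, max_le (by norm_num) (min_le_left _ _)⟩
  have hu2 : |u - u'| ≤ s - 1 := by
    have := abs_le.1 hu
    rw [hu', abs_le]
    rcases le_total 1 u with h1 | h1
    · rw [min_eq_left h1, max_eq_right (by norm_num)]
      constructor <;> linarith
    · rw [min_eq_right h1]
      rcases le_total (-1) u with h2 | h2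
      · rw [max_eq_right h2]
        constructor <;> linarith
      · rw [max_eq_left h2]
        constructor <;> linarith
  refine Metric.mem_cthickening_of_dist_le _ (pt x u') (δ / 2) _ ?_ ?_
  · refine ⟨by rw [pt_re]; exact hxR, ?_⟩
    rw [pt_re, pt_im, abs_mul, abs_of_pos hx]
    have := mul_le_mul_of_nonneg_left hu1 hx.le
    linarith
  · rw [Complex.dist_eq]
    have : pt x u - pt x u' = ((x * (u - u') : ℝ) : ℂ) * I := by
      unfold pt; push_cast; ring
    rw [this, norm_mul, Complex.norm_I, mul_one, Complex.norm_real, Real.norm_eq_abs, abs_mul,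
      abs_of_pos hx]
    have hs0 : 0 ≤ s - 1 := by linarith
    have hR0 : 0 ≤ R := hx.le.trans hxR
    calc x * |u - u'| ≤ R * (s - 1) := by gcongr
      _ ≤ δ / 2 := by rw [mul_comm]; exact hs3

/-- the points where the line meets the rays -/
theorem ends (h : Dir d) {s : ℝ} (hs1 : 1 < s) (hs2 : s ≤ 2)
    (hs4 : (d.re - |d.im|) / 2 ≤ d.re - s * |d.im|) :
    ∃ x₁ x₂ y₁ y₂ : ℝ, 1 ≤ x₁ ∧ x₁ ≤ 6 / (d.re - |d.im|) ∧ 1 ≤ x₂ ∧ x₂ ≤ 6 / (d.re - |d.im|) ∧
      y₁ < y₂ ∧ zt d y₂ = pt x₂ s ∧ zt d y₁ = pt x₁ (-s) ∧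
      ∀ y, (y < y₁ ∨ y₂ < y) → fq d y ≤ -(s ^ 2 - 1) := by
  obtain ⟨p, hp⟩ : ∃ p, p = d.re := ⟨_, rfl⟩
  obtain ⟨q, hq⟩ : ∃ q, q = d.im := ⟨_, rfl⟩
  have hpq : 0 < p - |q| := by have := h.h; rw [← hp, ← hq] at this; linarith
  have hp0 : 0 < p := by rw [hp]; exact h.re_pos
  have hn : p ^ 2 + q ^ 2 = 1 := by rw [hp, hq]; exact h.n
  have hp1 : p ≤ 1 := by
    clear hs4 h hpq
    nlinarith [sq_nonneg q]
  have hq1 : |q| ≤ 1 := by linarith
  have hC0 : 0 < p ^ 2 - q ^ 2 := by rw [hp, hq]; exact h.C_pos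
  rw [← hp, ← hq] at hs4
  have hs0 : 0 < s := by linarith
  have hsq : s * |q| ≤ 2 := by
    calc s * |q| ≤ 2 * 1 := mul_le_mul hs2 hq1 (abs_nonneg _) (by norm_num)
      _ = 2 := by norm_num
  have hb1 : s * q ≤ s * |q| := mul_le_mul_of_nonneg_left (le_abs_self q) hs0.le
  have hb2 : s * -q ≤ s * |q| := mul_le_mul_of_nonneg_left (neg_le_abs q) hs0.le
  have hden2 : (p - |q|) / 2 ≤ p - s * q := by linarith
  have hden1 : (p - |q|) / 2 ≤ p + s * q := by linarith
  have hd2 : 0 < p - s * q := by linarith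
  have hd1 : 0 < p + s * q := by linarith
  have hspq : |q| < s * p := by
    have : 0 < (s - 1) * p := mul_pos (by linarith) hp0
    linarith
  have hspq1 := (abs_lt.1 hspq).1
  have hspq2 := (abs_lt.1 hspq).2
  have hx21 : 1 ≤ 3 / (p - s * q) := by
    rw [le_div_iff₀ hd2]
    linarith
  have hx11 : 1 ≤ 3 / (p + s * q) := by
    rw [le_div_iff₀ hd1]
    linarith
  have hy2 : zt d (3 / (p - s * q) * (q + s * p)) = pt (3 / (p - s * q)) s := by
    clear hs4 hsq hb1 hb2 hden2 hden1 hspq hspq1 hspq2 hx21 hx11 hC0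
    apply Complex.ext
    · rw [zt_re, pt_re, ← hp, ← hq]
      field_simp
      linear_combination hn
    · rw [zt_im, pt_im, ← hp, ← hq]
      field_simp
      linear_combination s * hn
  have hy1 : zt d (3 / (p + s * q) * (q - s * p)) = pt (3 / (p + s * q)) (-s) := by
    clear hs4 hsq hb1 hb2 hden2 hden1 hspq hspq1 hspq2 hx21 hx11 hC0
    apply Complex.ext
    · rw [zt_re, pt_re, ← hp, ← hq]
      field_simp
      linear_combination hn
    · rw [zt_im, pt_im, ← hp, ← hq]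
      field_simp
      linear_combination (-s) * hn
  have hfq : ∀ y, fq d y = 9 / (p ^ 2 - q ^ 2) - (p ^ 2 - q ^ 2) *
      (y - 6 * (p * q) / (p ^ 2 - q ^ 2)) ^ 2 := by
    intro y
    have := fq_eq h y
    rw [← hp, ← hq] at this
    exact this
  have hge2 : 0 ≤ 3 / (p - s * q) * (q + s * p) - 6 * (p * q) / (p ^ 2 - q ^ 2) := by
    have e : 3 / (p - s * q) * (q + s * p) - 6 * (p * q) / (p ^ 2 - q ^ 2) =
        3 * (s * p - q) * (p ^ 2 + q ^ 2) / ((p - s * q) * (p ^ 2 - q ^ 2)) := by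
      field_simp
      ring
    rw [e, hn]
    exact div_nonneg (by linarith) (by positivity)
  have hge1 : 0 ≤ 6 * (p * q) / (p ^ 2 - q ^ 2) - 3 / (p + s * q) * (q - s * p) := by
    have e : 6 * (p * q) / (p ^ 2 - q ^ 2) - 3 / (p + s * q) * (q - s * p) =
        3 * (s * p + q) * (p ^ 2 + q ^ 2) / ((p + s * q) * (p ^ 2 - q ^ 2)) := by
      have e1 : p + s * q ≠ 0 := hd1.ne'
      have e2 : p ^ 2 - q ^ 2 ≠ 0 := hC0.ne'
      rw [div_mul_eq_mul_div, div_sub_div _ _ e2 e1, div_eq_div_iff (mul_ne_zero e2 e1) (mul_ne_zero e1 e2)]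
      ring
    rw [e, hn]
    exact div_nonneg (by linarith) (by positivity)
  have hs21 : 0 < s ^ 2 - 1 := by
    have : 0 < (s - 1) * (s + 1) := mul_pos (by linarith) (by linarith)
    linarith
  have hfend : ∀ x : ℝ, 1 ≤ x → ∀ y u : ℝ, u ^ 2 = s ^ 2 → zt d y = pt x u →
      fq d y ≤ -(s ^ 2 - 1) := by
    intro x hx y u hu hy
    unfold fq
    rw [hy, pt_re, pt_im]
    have e : x ^ 2 - (x * u) ^ 2 = -(s ^ 2 - 1) - (x ^ 2 - 1) * (s ^ 2 - 1) := by
      rw [mul_pow, hu]; ring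
    rw [e]
    have h1 : 0 ≤ x ^ 2 - 1 := by
      have : 0 ≤ (x - 1) * (x + 1) := mul_nonneg (by linarith) (by linarith)
      linarith
    have := mul_nonneg h1 hs21.le
    linarith
  refine ⟨3 / (p + s * q), 3 / (p - s * q), 3 / (p + s * q) * (q - s * p),
    3 / (p - s * q) * (q + s * p), hx11, ?_, hx21, ?_, ?_, hy2, hy1, ?_⟩
  · rw [← hp, ← hq, div_le_div_iff₀ hd1 hpq]
    linarith
  · rw [← hp, ← hq, div_le_div_iff₀ hd2 hpq]
    linarith
  · have h1 : 0 < 3 / (p - s * q) * (q + s * p) := mul_pos (by linarith) (by linarith)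
    have h2 : 3 / (p + s * q) * (q - s * p) < 0 :=
      mul_neg_of_pos_of_neg (by linarith) (by linarith)
    linarith
  · intro y hy
    rcases hy with hy | hy
    · refine le_trans ?_ (hfend _ hx11 _ (-s) (by ring) hy1)
      rw [hfq, hfq]
      have h3 : (3 / (p + s * q) * (q - s * p) - 6 * (p * q) / (p ^ 2 - q ^ 2)) ^ 2 ≤
          (y - 6 * (p * q) / (p ^ 2 - q ^ 2)) ^ 2 := by
        rw [← neg_sq, ← neg_sq (y - _)]
        exact pow_le_pow_left₀ (by linarith) (by linarith) 2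
      have := mul_le_mul_of_nonneg_left h3 hC0.le
      linarith
    · refine le_trans ?_ (hfend _ hx21 _ s rfl hy2)
      rw [hfq, hfq]
      have h3 : (3 / (p - s * q) * (q + s * p) - 6 * (p * q) / (p ^ 2 - q ^ 2)) ^ 2 ≤
          (y - 6 * (p * q) / (p ^ 2 - q ^ 2)) ^ 2 :=
        pow_le_pow_left₀ (by linarith) (by linarith) 2
      have := mul_le_mul_of_nonneg_left h3 hC0.le
      linarith

/-- the bound in the tails -/
theorem tail_num {r ρ κ₀ M m f : ℝ} (hr : 1 ≤ r) (hρ : 1 ≤ ρ) (hρr : ρ ^ 2 = r) (hκ : 0 < κ₀)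
    (hM : 0 ≤ M) (hm : 0 ≤ m) (hf : f ≤ -κ₀) :
    Real.exp (r * f) * (M + m * ρ) ≤ (M + m) * Real.exp κ₀ / κ₀ / ρ * Real.exp (1 * f) := by
  have hρ0 : 0 < ρ := by linarith
  have h3 : r * f ≤ -((r - 1) * κ₀) + 1 * f := by
    have : (r - 1) * f ≤ (r - 1) * -κ₀ := mul_le_mul_of_nonneg_left hf (by linarith)
    linarith
  have h4 : Real.exp (r * f) ≤ Real.exp (-((r - 1) * κ₀)) * Real.exp (1 * f) := by
    rw [← Real.exp_add]
    exact Real.exp_le_exp.2 h3
  have hρle : ρ ≤ r := by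
    rw [← hρr, sq]
    exact le_mul_of_one_le_left hρ0.le hρ
  have h5 : Real.exp (-((r - 1) * κ₀)) * (M + m * ρ) ≤ (M + m) * Real.exp κ₀ / κ₀ / ρ := by
    rw [le_div_iff₀ hρ0]
    have h6 : (M + m * ρ) * ρ ≤ (M + m) * r := by
      have h7 : M * ρ ≤ M * r := mul_le_mul_of_nonneg_left hρle hM
      have e : (M + m * ρ) * ρ = M * ρ + m * ρ ^ 2 := by ring
      rw [e, hρr]
      linarith
    have h7 : κ₀ * r ≤ Real.exp (κ₀ * r) := by
      have := Real.add_one_le_exp (κ₀ * r)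
      linarith
    have h8 : Real.exp (-((r - 1) * κ₀)) = Real.exp κ₀ / Real.exp (κ₀ * r) := by
      rw [← Real.exp_sub]
      congr 1
      ring
    have h9 : 0 < Real.exp (κ₀ * r) := Real.exp_pos _
    calc Real.exp (-((r - 1) * κ₀)) * (M + m * ρ) * ρ =
        Real.exp (-((r - 1) * κ₀)) * ((M + m * ρ) * ρ) := by ring
      _ ≤ Real.exp (-((r - 1) * κ₀)) * ((M + m) * r) := by gcongr
      _ = (M + m) * Real.exp κ₀ * (r / Real.exp (κ₀ * r)) := by rw [h8]; ring
      _ ≤ (M + m) * Real.exp κ₀ * (1 / κ₀) := by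
          have : r / Real.exp (κ₀ * r) ≤ 1 / κ₀ := by
            rw [div_le_div_iff₀ h9 hκ]
            linarith
          gcongr
      _ = _ := by ring
  calc Real.exp (r * f) * (M + m * ρ) ≤
      (Real.exp (-((r - 1) * κ₀)) * Real.exp (1 * f)) * (M + m * ρ) := by gcongr
    _ = (Real.exp (-((r - 1) * κ₀)) * (M + m * ρ)) * Real.exp (1 * f) := by ring
    _ ≤ _ := by gcongr

/-- **The law for the integral.** -/
theorem law (h : Dir d) (D : Dat2 S G Φ) {m : ℕ} {Q : ℂ → ℂ} (hQa : ∀ z, AnalyticAt ℂ Q z)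
    (hQ : ∀ z, z ≠ 0 → Φ (d * z) = z ^ m * Q z) (hQ0 : ∀ z : ℂ, |z.im| ≤ z.re → Q z ≠ 0) :
    ∃ C : ℝ, ∀ r : ℝ, 1 ≤ r → ‖∫ y, (ig (r * (conj d) ^ 2) S y -
      ((m : ℂ) * (Real.log √r : ℝ)) * exp ((r * (conj d) ^ 2) * (3 + y * I) ^ 2))‖ ≤ C / √r := by
  have hpq : 0 < d.re - |d.im| := by have := h.h; linarith
  set R : ℝ := 6 / (d.re - |d.im|) with hR
  have hR0 : 0 < R := by positivity
  -- the thickening of the cone
  have hQc : Continuous Q := continuous_iff_continuousAt.2 fun z => (hQa z).continuousAt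
  have hQo : IsOpen {z | Q z ≠ 0} := isOpen_ne_fun hQc continuous_const
  have hKs : Cone R ⊆ {z | Q z ≠ 0} := fun z hz => hQ0 z hz.2
  obtain ⟨δ, hδ, hsub⟩ := (Cone_compact R).exists_cthickening_subset_open hQo hKs
  set V : Set ℂ := Metric.thickening δ (Cone R) with hV
  have hVo : IsOpen V := Metric.isOpen_thickening
  have hVc : Convex ℝ V := (Cone_convex R).thickening δ
  have h0K : (0 : ℂ) ∈ Cone R := by
    constructor
    · simpa using hR0.le
    · simp
  have hVn : V.Nonempty := ⟨0, Metric.self_subset_thickening hδ _ h0K⟩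
  have hVs : V ⊆ {z | Q z ≠ 0} := (Metric.thickening_subset_cthickening _ _).trans hsub
  obtain ⟨L, hL1, hL2⟩ := exists_log hVo hVc hVn (Φ := Q)
    (fun z _ => (hQa z).differentiableAt.differentiableWithinAt) (fun z hz => hVs hz)
  have hcc : IsCompact (Metric.cthickening (δ / 2) (Cone R)) := (Cone_compact R).cthickening
  have hcs : Metric.cthickening (δ / 2) (Cone R) ⊆ V :=
    Metric.cthickening_subset_thickening' hδ (by linarith) _
  obtain ⟨Mq, hMq⟩ := hcc.exists_bound_of_continuousOn (hL1.continuousOn.mono hcs)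
  obtain ⟨s, hs1, hs2, hs3, hs4⟩ := exists_slope h hδ hR0
  -- the domain
  set U : Set ℂ := V ∩ {z | 0 < (d * z).re} with hU
  have hdo : IsOpen {z : ℂ | 0 < (d * z).re} :=
    isOpen_lt continuous_const (Complex.continuous_re.comp (by fun_prop))
  have hUo : IsOpen U := hVo.inter hdo
  have hUc : Convex ℝ U := hVc.inter (half_convex d 0)
  have hslit : ∀ z ∈ U, z ∈ slitPlane := fun z hz => slit_of h hz.2
  have hptU : ∀ x u : ℝ, 0 < x → x ≤ R → |u| ≤ s → pt x u ∈ U := by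
    intro x u hx hxR hu
    refine ⟨hcs (cone_pt hs3 hs1 hx hxR hu), ?_⟩
    have := re_pt h hs4 hx hu
    show 0 < (d * pt x u).re
    have h1 : 0 < x * ((d.re - |d.im|) / 2) := by positivity
    linarith
  -- the continuation
  have hlogd : DifferentiableOn ℂ (fun z => (m : ℂ) * log z) U := by
    intro z hz
    exact ((differentiableAt_log (hslit z hz)).const_mul _).differentiableWithinAt
  obtain ⟨k, hk⟩ := continuation D (d := d) hUo hUc (fun z hz => hz.2)
    (M := fun z => (m : ℂ) * log z) (L := L) hlogd (hL1.mono inter_subset_left) (fun z hz => by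
      have hz0 : z ≠ 0 := slitPlane_ne_zero (hslit z hz)
      rw [Complex.exp_add, Complex.exp_nat_mul, Complex.exp_log hz0, hL2 z hz.1, hQ z hz0])
  set T : ℂ → ℂ := fun z => G (d * z) - (m : ℂ) * log z - L z - k with hT
  have hTd : DifferentiableOn ℂ T U := by
    intro z hz
    refine DifferentiableAt.differentiableWithinAt ?_
    have h1 : DifferentiableAt ℂ (fun z => G (d * z)) z :=
      DifferentiableAt.comp (g := G) (f := fun z : ℂ => d * z) z (D.Gd _ hz.2) (by fun_prop)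
    have h2 : DifferentiableAt ℂ L z := hL1.differentiableAt (hVo.mem_nhds hz.1)
    have h3 : DifferentiableAt ℂ (fun z => (m : ℂ) * log z) z :=
      (differentiableAt_log (hslit z hz)).const_mul _
    exact ((h1.sub h3).sub h2).sub_const k
  -- the bound
  have hs0 : 0 < s := by linarith
  obtain ⟨CG, hCG⟩ := D.Gb (2 * (1 + s) / (d.re - |d.im|)) (by positivity)
  set B₀ : ℝ := |CG| + |Mq| + ‖k‖ with hB₀
  have hB₀0 : 0 ≤ B₀ := by positivity
  have hTb : ∀ x u : ℝ, 0 < x → x ≤ R → |u| ≤ s → ‖T (pt x u) + (m : ℂ) * log (pt x u)‖ ≤ B₀ := by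
    intro x u hx hxR hu
    have e : T (pt x u) + (m : ℂ) * log (pt x u) = G (d * pt x u) - L (pt x u) - k := by
      rw [hT]; ring
    rw [e]
    have h1 : ‖G (d * pt x u)‖ ≤ |CG| := by
      have h2 := re_pt h hs4 hx hu
      have h3 : 0 < x * ((d.re - |d.im|) / 2) := by positivity
      refine (hCG _ (by linarith) ?_).trans (le_abs_self _)
      rw [norm_mul, h.norm_eq, one_mul]
      have h4 : ‖pt x u‖ ≤ x * (1 + s) := by
        have h5 := Complex.norm_le_abs_re_add_abs_im (pt x u)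
        rw [pt_re, pt_im, abs_mul, abs_of_pos hx] at h5
        have := mul_le_mul_of_nonneg_left hu hx.le
        linarith
      calc ‖pt x u‖ ≤ x * (1 + s) := h4
        _ = 2 * (1 + s) / (d.re - |d.im|) * (x * ((d.re - |d.im|) / 2)) := by field_simp
        _ ≤ _ := by gcongr
    have h2 : ‖L (pt x u)‖ ≤ |Mq| := (hMq _ (cone_pt hs3 hs1 hx hxR hu)).trans (le_abs_self _)
    refine (norm_sub_le _ _).trans (add_le_add ((norm_sub_le _ _).trans (add_le_add h1 h2)) le_rfl)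
  set B₁ : ℝ := B₀ + m * (s + 4) with hB₁
  have hB₁0 : 0 ≤ B₁ := by positivity
  have hTk : ∀ ρ x u : ℝ, 0 < ρ → 0 < x → 1 ≤ ρ * x → x ≤ R → |u| ≤ s →
      ‖T (pt x u) - (m : ℂ) * (Real.log ρ : ℝ)‖ ≤ B₁ + m * (ρ * x) := by
    intro ρ x u hρ hx hρx hxR hu
    have e : T (pt x u) - (m : ℂ) * (Real.log ρ : ℝ) = (T (pt x u) + (m : ℂ) * log (pt x u)) -
        m * (log (pt x u) + (Real.log ρ : ℝ)) := by ring
    rw [e]
    refine (norm_sub_le _ _).trans ?_
    rw [norm_mul, Complex.norm_natCast]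
    have h1 := hTb x u hx hxR hu
    have h2 := log_pt_le hx hu hρ hρx
    calc _ ≤ B₀ + m * (ρ * x + (s + 4)) := by gcongr
      _ = _ := by rw [hB₁]; ring
  -- the end points
  obtain ⟨x₁, x₂, y₁, y₂, hx11, hx1R, hx21, hx2R, h12', hz2, hz1, hfout⟩ := ends h hs1 hs2 hs4
  have h12 := h12'.le
  have habs : |s| ≤ s := by rw [abs_of_pos hs0]
  have habs' : |-s| ≤ s := by rw [abs_neg]; exact habs
  have hmem : ∀ y ∈ Icc y₁ y₂, zt d y ∈ U := by
    intro y hy
    refine zt_mem hUc h12' ?_ ?_ hy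
    · rw [hz1]; exact hptU _ _ (by linarith) hx1R habs'
    · rw [hz2]; exact hptU _ _ (by linarith) hx2R habs
  -- the tails
  set κ₀ : ℝ := s ^ 2 - 1 with hκ₀
  have hκ0 : 0 < κ₀ := by
    have : 0 < (s - 1) * (s + 1) := mul_pos (by linarith) (by linarith)
    rw [hκ₀]
    linarith
  obtain ⟨M, hM0, hMb⟩ := D.Sb
  set A : ℝ := ∫ y, Real.exp (1 * fq d y) with hA
  have hAi := exp_fq_int h one_pos
  set Ct : ℝ := (M + m) * Real.exp κ₀ / κ₀ with hCt
  have hCt0 : 0 ≤ Ct := by positivity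
  set Ig : ℝ := ∫ v, Real.exp (-κ₀ * v ^ 2) * (B₁ + m * |v|) with hIg
  set B₂ : ℝ := B₁ + m with hB₂
  refine ⟨2 * ((1 + s) * Ig) + 3 * B₂ * (2 * s) + Ct * A, fun r hr => ?_⟩
  have hr0 : 0 < r := by linarith
  set ρ : ℝ := √r with hρ
  have hρ0 : 0 < ρ := Real.sqrt_pos.2 hr0
  have hρ1 : 1 ≤ ρ := by rw [hρ, Real.one_le_sqrt]; exact hr
  have hρr : ρ ^ 2 = r := Real.sq_sqrt hr0.le
  set κ' : ℂ := (m : ℂ) * (Real.log ρ : ℝ) with hκ'
  obtain ⟨P, hP⟩ := exists_prim hUo hUc (h := fun z => exp (r * z ^ 2) * (T z - κ')) (by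
    refine DifferentiableOn.mul ?_ (hTd.sub_const κ')
    exact (Differentiable.differentiableOn (by fun_prop)))
  have hline := line_prim h D hr0 hP (fun z hz hz2 => hk z hz hz2) h12 hmem
  set x₀ : ℝ := 1 / ρ with hx₀
  have hx00 : 0 < x₀ := by positivity
  have hx01 : x₀ ≤ 1 := by rw [hx₀, div_le_one hρ0]; exact hρ1
  have hρx0 : ρ * x₀ = 1 := by rw [hx₀]; field_simp
  have hray2 := ray_le (r := r) (κ₀ := κ₀) (B := B₁) (m := m) (x₀ := x₀) (x₁ := x₂) (u := s) hr0 hκ0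
    hB₁0 (Nat.cast_nonneg m) hx00.le (hx01.trans hx21) (by rw [hκ₀]; ring) (U := U) (P := P) (T := T)
    (κ' := κ') (fun x hx => hptU x s (hx00.trans_le hx.1) (hx.2.trans hx2R) habs) hP
    hTd.continuousOn (fun x hx => by
      have h1 : 1 ≤ ρ * x := by
        rw [← hρx0]
        exact mul_le_mul_of_nonneg_left hx.1 hρ0.le
      exact hTk ρ x s hρ0 (hx00.trans_le hx.1) h1 (hx.2.trans hx2R) habs)
  have hray1 := ray_le (r := r) (κ₀ := κ₀) (B := B₁) (m := m) (x₀ := x₀) (x₁ := x₁) (u := -s) hr0 hκ0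
    hB₁0 (Nat.cast_nonneg m) hx00.le (hx01.trans hx11) (by rw [hκ₀]; ring) (U := U) (P := P) (T := T)
    (κ' := κ') (fun x hx => hptU x (-s) (hx00.trans_le hx.1) (hx.2.trans hx1R) habs') hP
    hTd.continuousOn (fun x hx => by
      have h1 : 1 ≤ ρ * x := by
        rw [← hρx0]
        exact mul_le_mul_of_nonneg_left hx.1 hρ0.le
      exact hTk ρ x (-s) hρ0 (hx00.trans_le hx.1) h1 (hx.2.trans hx1R) habs')
  have hx0R : x₀ ≤ R := (hx01.trans hx21).trans hx2R
  have hseg := seg_le (r := r) (x₀ := x₀) (s := s) (B := B₂) hr0 hx₀ hs0.le (U := U) (P := P) (T := T)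
    (κ' := κ') (fun u hu => hptU x₀ u hx00 hx0R (abs_le.2 hu)) hP (fun u hu => by
      have := hTk ρ x₀ u hρ0 hx00 hρx0.ge hx0R (abs_le.2 hu)
      rw [hρx0, mul_one] at this
      exact this)
  rw [abs_of_pos hs0] at hray2
  rw [abs_neg, abs_of_pos hs0] at hray1
  have hmid : ‖∫ y in y₁..y₂, (ig (r * (conj d) ^ 2) S y -
      κ' * exp ((r * (conj d) ^ 2) * (3 + y * I) ^ 2))‖ ≤
      (2 * ((1 + s) * Ig) + 3 * B₂ * (2 * s)) / ρ := by
    rw [hline, norm_div, norm_mul, Complex.norm_I, mul_one, Complex.norm_conj, h.norm_eq, div_one,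
      hz2, hz1]
    have e : P (pt x₂ s) - P (pt x₁ (-s)) = (P (pt x₂ s) - P (pt x₀ s)) +
        (P (pt x₀ s) - P (pt x₀ (-s))) - (P (pt x₁ (-s)) - P (pt x₀ (-s))) := by ring
    rw [e]
    refine (norm_sub_le _ _).trans ?_
    refine (add_le_add (norm_add_le _ _) le_rfl).trans ?_
    refine (add_le_add (add_le_add hray2 hseg) hray1).trans (le_of_eq ?_)
    ring
  have hint : Integrable fun y : ℝ => (ig (r * (conj d) ^ 2) S y -
      κ' * exp ((r * (conj d) ^ 2) * (3 + y * I) ^ 2)) := by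
    refine (D.ig_int (beta_re h hr0)).sub (Integrable.const_mul ?_ κ')
    have := kern_int (beta_re h hr0) 0
    simpa using this
  have hbd : ∀ y, (y < y₁ ∨ y₂ < y) → ‖ig (r * (conj d) ^ 2) S y -
      κ' * exp ((r * (conj d) ^ 2) * (3 + y * I) ^ 2)‖ ≤ Ct / ρ * Real.exp (1 * fq d y) := by
    intro y hy
    rw [ig_eq, beta_sq, mul_comm κ', ← mul_sub, norm_mul, norm_exp_sq]
    have h2 : ‖S (3 + y * I) - κ'‖ ≤ M + m * ρ := by
      refine (norm_sub_le _ _).trans (add_le_add (hMb _ (by simp)) ?_)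
      rw [hκ', norm_mul, Complex.norm_natCast, Complex.norm_real, Real.norm_eq_abs,
        abs_of_nonneg (Real.log_nonneg hρ1)]
      have := Real.log_le_sub_one_of_pos hρ0
      gcongr
      linarith
    calc _ ≤ Real.exp (r * ((zt d y).re ^ 2 - (zt d y).im ^ 2)) * (M + m * ρ) := by gcongr
      _ ≤ _ := tail_num hr hρ1 hρr hκ0 hM0 (Nat.cast_nonneg m) (hfout y hy)
  have hsplit := split_line hint h12 (g := fun y => Ct / ρ * Real.exp (1 * fq d y))
    (hAi.const_mul _) (fun y => by positivity) hbd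
  rw [integral_const_mul] at hsplit
  calc _ ≤ _ := hsplit
    _ ≤ (2 * ((1 + s) * Ig) + 3 * B₂ * (2 * s)) / ρ + Ct / ρ * A := by gcongr
    _ = _ := by ring

end Pool.Agent.D0H40.GC
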